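import Pool.Agent.K3h21.CB.Prm6
import Pool.Agent.K3h21.IR.Main

set_option autoImplicit false
set_option linter.unusedSectionVars false
set_option linter.unusedVariables false

/-! Tools for the applications. -/

namespace Pool.Agent.K3h21.CB

open Finset Filter
open Pool.Agent.Y677.RSZ (rt per_mod ev_log)

open Classical in
/-- the Chinese remainder theorem for properties -/
theorem exCRT (W : ℕ) (hW : Squarefree W) (Q : ℕ → ℕ → Prop)
    (hQ : ∀ q : ℕ, q.Prime → ∀ r s : ℕ, r ≡ s [MOD q] → (Q q r ↔ Q q s))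
    (hex : ∀ q : ℕ, q.Prime → q ∣ W → ∃ c, Q q c) : ∃ a : ℕ, ∀ q : ℕ, q.Prime → q ∣ W → Q q a := by
  have h1 := Pool.Agent.Y833.RSZ.card_prod W.primeFactors (fun p hp => Nat.prime_of_mem_primeFactors hp) Q
    (fun p hp r => hQ p (Nat.prime_of_mem_primeFactors hp) r (r % p) (Nat.mod_modEq r p).symm)
  have h2 : 0 < ∏ p ∈ W.primeFactors, ((range p).filter (Q p)).card := by
    apply prod_pos
    intro p hp
    have hpp := Nat.prime_of_mem_primeFactors hp
    obtain ⟨c, hc⟩ := hex p hpp (Nat.dvd_of_mem_primeFactors hp)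
    exact card_pos.2 ⟨c % p, mem_filter.2 ⟨mem_range.2 (Nat.mod_lt _ hpp.pos),
      (hQ p hpp c (c % p) (Nat.mod_modEq c p).symm).1 hc⟩⟩
  rw [← h1, card_pos] at h2
  obtain ⟨a, ha⟩ := h2
  rw [mem_filter] at ha
  exact ⟨a, fun q hq hqW => ha.2 q (Nat.mem_primeFactors.2 ⟨hq, hqW, hW.ne_zero⟩)⟩

open Classical in
/-- few large prime divisors -/
theorem few_primes (P Y E C₀ : ℕ) (δ : ℝ) (hδ : 0 < δ) (hY : 2 ≤ Y) (hP : P ≠ 0)
    (hPY : (P : ℝ) ≤ (Y : ℝ) ^ E) (hC : (E : ℝ) / δ ≤ C₀) :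
    (P.primeFactors.filter (fun q : ℕ => (Y : ℝ) ^ δ ≤ q)).card ≤ C₀ := by
  set S := P.primeFactors.filter (fun q : ℕ => (Y : ℝ) ^ δ ≤ q) with hS
  have hYr : (1 : ℝ) < Y := by exact_mod_cast (by omega : 1 < Y)
  have h1 : ∏ q ∈ S, q ∣ P := by
    refine (prod_dvd_prod_of_subset _ _ _ (filter_subset _ _)).trans (Nat.prod_primeFactors_dvd P)
  have h2 : ((∏ q ∈ S, q : ℕ) : ℝ) ≤ P := by exact_mod_cast Nat.le_of_dvd (Nat.pos_of_ne_zero hP) h1
  have h3 : ((Y : ℝ) ^ δ) ^ S.card ≤ ((∏ q ∈ S, q : ℕ) : ℝ) := by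
    push_cast
    rw [← prod_const]
    exact Finset.prod_le_prod (fun q _ => by positivity) fun q hq => (mem_filter.1 hq).2
  have h4 : (Y : ℝ) ^ (δ * S.card) ≤ (Y : ℝ) ^ (E : ℝ) := by
    rw [Real.rpow_mul (by positivity), Real.rpow_natCast, Real.rpow_natCast]
    exact h3.trans (h2.trans hPY)
  have h5 := (Real.rpow_le_rpow_left_iff hYr).1 h4
  have h6 : (S.card : ℝ) ≤ E / δ := by
    rw [le_div_iff₀ hδ]
    linarith
  exact_mod_cast h6.trans hC

/-- a product of parameters -/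
def PPr {n : ℕ} (α : Fin n → ℕ) (β : Fin n → Fin n → ℕ) : ℕ := (∏ i, α i) * ∏ i, ∏ j, β i j

theorem PPr_facts {n : ℕ} (α : Fin n → ℕ) (β : Fin n → Fin n → ℕ) (M : ℝ) (hM : 1 ≤ M)
    (hα : ∀ i, 1 ≤ α i ∧ (α i : ℝ) ≤ M) (hβ : ∀ i j, 1 ≤ β i j ∧ (β i j : ℝ) ≤ M) :
    PPr α β ≠ 0 ∧ (PPr α β : ℝ) ≤ M ^ (n + n * n) ∧ (∀ i, α i ∣ PPr α β) ∧ (∀ i j, β i j ∣ PPr α β) := by
  unfold PPr
  refine ⟨?_, ?_, fun i => ?_, fun i j => ?_⟩
  · apply Nat.mul_ne_zero
    · exact prod_ne_zero_iff.2 fun i _ => by have := (hα i).1; omega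
    · exact prod_ne_zero_iff.2 fun i _ => prod_ne_zero_iff.2 fun j _ => by have := (hβ i j).1; omega
  · push_cast
    rw [pow_add, pow_mul]
    apply mul_le_mul
    · calc ∏ i, (α i : ℝ) ≤ ∏ _i : Fin n, M := Finset.prod_le_prod (fun i _ => Nat.cast_nonneg _) fun i _ => (hα i).2
        _ = M ^ n := by rw [prod_const, card_univ, Fintype.card_fin]
    · calc ∏ i, ∏ j, (β i j : ℝ) ≤ ∏ _i : Fin n, M ^ n := Finset.prod_le_prod
            (fun i _ => prod_nonneg fun j _ => Nat.cast_nonneg _) fun i _ => by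
              calc ∏ j, (β i j : ℝ) ≤ ∏ _j : Fin n, M := Finset.prod_le_prod (fun j _ => Nat.cast_nonneg _)
                    fun j _ => (hβ i j).2
                _ = M ^ n := by rw [prod_const, card_univ, Fintype.card_fin]
        _ = (M ^ n) ^ n := by rw [prod_const, card_univ, Fintype.card_fin]
    · exact prod_nonneg fun i _ => prod_nonneg fun j _ => Nat.cast_nonneg _
    · positivity
  · exact (dvd_prod_of_mem α (mem_univ i)).mul_right _
  · exact ((dvd_prod_of_mem (β i) (mem_univ j)).trans (dvd_prod_of_mem (fun i => ∏ j, β i j) (mem_univ i))).mul_left _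

theorem rt_id (p : ℕ) (hp : p.Prime) : rt (fun n => (Polynomial.X : Polynomial ℤ).eval n) p = 1 := by
  unfold rt
  have : (range p).filter (fun r : ℕ => (p : ℤ) ∣ (Polynomial.X : Polynomial ℤ).eval (r : ℤ)) = {0} := by
    ext r
    rw [mem_filter, mem_range, mem_singleton, Polynomial.eval_X]
    constructor
    · rintro ⟨h1, h2⟩
      have h3 : p ∣ r := by exact_mod_cast h2
      exact Nat.eq_zero_of_dvd_of_lt h3 h1
    · rintro rfl
      exact ⟨hp.pos, by simp⟩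
  rw [this, card_singleton]

end Pool.Agent.K3h21.CB
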