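import Pool.Agent.K3h21.CB.App1

set_option autoImplicit false
set_option linter.unusedSectionVars false
set_option linter.unusedVariables false

/-! Several even numbers and one prime. -/

namespace Pool.Agent.K3h21.CB

open Finset Filter
open Pool.Agent.Y677.RSZ (rt per_mod ev_log)
open Pool.Agent.K3h21.AV (AP)
open Pool.Agent.R498.MT (exW shifts)

theorem lin1 (q : ℕ) (hq : 0 < q) (u : ℕ) :
    (range q).filter (fun c : ℕ => (q : ℤ) ∣ (u : ℤ) - (c : ℤ)) = {u % q} := by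
  ext c
  rw [mem_filter, mem_range, mem_singleton]
  constructor
  · rintro ⟨h1, h2⟩
    have h3 : c ≡ u [MOD q] := Nat.modEq_iff_dvd.2 h2
    unfold Nat.ModEq at h3
    rwa [Nat.mod_eq_of_lt h1] at h3
  · rintro rfl
    exact ⟨Nat.mod_lt _ hq, Nat.modEq_iff_dvd.1 (Nat.mod_modEq u q)⟩

theorem cop_of (a W : ℕ) (h : ∀ q : ℕ, q.Prime → q ∣ W → ¬ q ∣ a) : a.Coprime W :=
  (Nat.coprime_of_dvd h).symm

open Classical in
/-- **Several even numbers and one prime.** -/
theorem gold (m : ℕ) : ∃ K A N₀ : ℕ, ∀ N : ℕ, N₀ ≤ N → ∀ E : Finset ℕ, K ≤ E.card →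
    (∀ n ∈ E, Even n ∧ N ≤ n ∧ n ≤ 3 * N) →
    Real.sqrt N / Real.log N ^ A ≤ (((range (4 * N)).filter (fun p : ℕ => p.Prime ∧ ∃ H ⊆ E, H.card = m ∧
      ∀ n ∈ H, Real.sqrt n < p ∧ (p : ℝ) < 4 * Real.sqrt n ∧
        AP 5 ((n : ℝ) ^ ((49 : ℝ) / 800)) (n - p))).card : ℝ) := by
  obtain ⟨k, A₁, A, δ, hA₁, hδ, hδτ, hfin⟩ := primeFin 1 1 1 5 (49 / 100) 2 (by norm_num) (by norm_num)
    (by norm_num) (by norm_num) m
  obtain ⟨W, hW0, hWs, hWp, -⟩ := exW A₁ 0
  set n : ℕ := 2 ^ k with hn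
  have hn1 : 1 ≤ n := Nat.one_le_two_pow
  set C₀ : ℕ := ⌈((2 * (n + n * n) : ℕ) : ℝ) / δ⌉₊ with hC₀
  obtain ⟨η, hη, Y₀, hfin⟩ := hfin W hWs hWp C₀
  obtain ⟨Y₁, hMe⟩ := Pool.Agent.K3h21.IR.mer_irr Polynomial.X Polynomial.irreducible_X
    (by rw [Polynomial.natDegree_X]; norm_num) δ (24 / 25 * (49 / 100)) η hδ (by norm_num) hη
  refine ⟨W * n, A, 20 + Y₀ ^ 2 + Y₁ ^ 2, ?_⟩
  intro N hN E hEc hE
  obtain ⟨r₀, t, hr₀, ht, htE⟩ := shifts W n hW0 E hEc
  set u : Fin n → ℕ := fun i => W * t i + r₀ with hu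
  have huE : ∀ i, u i ∈ E := htE
  have hinj : Function.Injective u := by
    intro i j hij
    rw [hu] at hij
    dsimp only at hij
    exact ht (Nat.eq_of_mul_eq_mul_left hW0 (by omega))
  set s : ℕ := Nat.sqrt (3 * N) with hs
  have hs1 : s * s ≤ 3 * N := Nat.sqrt_le _
  have hs2 : 3 * N < (s + 1) * (s + 1) := Nat.lt_succ_sqrt _
  set Y : ℕ := s + 1 with hY
  have hYY₀ : Y₀ ≤ Y := by nlinarith
  have hYY₁ : Y₁ ≤ Y := by nlinarith
  have hN20 : 20 ≤ N := by
    have : 20 + Y₀ ^ 2 + Y₁ ^ 2 ≥ 20 := by omega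
    omega
  have h2Y : 2 * Y + 1 < N := by
    by_contra hcon
    push Not at hcon
    nlinarith
  have h4Y : 2 * Y * (2 * Y) < 16 * N := by nlinarith
  have hY2 : 2 ≤ Y := by nlinarith
  have hYr : (1 : ℝ) < Y := by exact_mod_cast (by omega : 1 < Y)
  have hY0 : (0 : ℝ) < Y := by linarith
  have huN : ∀ i, N ≤ u i ∧ u i ≤ 3 * N ∧ Even (u i) := fun i => by
    obtain ⟨h1, h2, h3⟩ := hE _ (huE i)
    exact ⟨h2, h3, h1⟩
  -- the exceptional primes
  set β : Fin n → Fin n → ℕ := fun i j => if i = j then 1 else ((u i : ℤ) - u j).natAbs with hβ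
  have hM : (1 : ℝ) ≤ (Y : ℝ) ^ 2 := one_le_pow₀ hYr.le
  have h3NY : (3 * N : ℝ) ≤ (Y : ℝ) ^ 2 := by
    have h1 : 3 * N ≤ Y ^ 2 := by rw [sq]; exact hs2.le
    exact_mod_cast h1
  have hβb : ∀ i j, 1 ≤ β i j ∧ (β i j : ℝ) ≤ (Y : ℝ) ^ 2 := by
    intro i j
    rw [hβ]
    dsimp only
    split_ifs with h
    · exact ⟨le_rfl, by push_cast; exact hM⟩
    · have h1 : u i ≠ u j := fun h2 => h (hinj h2)
      have h2 := huN i
      have h3 := huN j
      refine ⟨by omega, le_trans ?_ h3NY⟩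
      have h4 : ((u i : ℤ) - u j).natAbs ≤ 3 * N := by omega
      exact_mod_cast h4
  obtain ⟨p1, p2, p3, p4⟩ := PPr_facts u β ((Y : ℝ) ^ 2) hM (fun i => by
    obtain ⟨h1, h2, -⟩ := huN i
    refine ⟨by omega, le_trans ?_ h3NY⟩
    exact_mod_cast h2) hβb
  set P : ℕ := PPr u β with hP
  set Z : Finset ℕ := P.primeFactors.filter (fun q : ℕ => (Y : ℝ) ^ δ ≤ q) with hZ
  have hZc : Z.card ≤ C₀ := by
    apply few_primes P Y (2 * (n + n * n)) C₀ δ hδ hY2 p1
    · rw [pow_mul]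
      exact p2
    · exact Nat.le_ceil _
  have hnZ : ∀ q : ℕ, q.Prime → (Y : ℝ) ^ δ ≤ q → q ∉ Z → ∀ x, x ∣ P → ¬ q ∣ x := by
    intro q hq hqY hqZ x hx hqx
    apply hqZ
    rw [hZ, mem_filter]
    exact ⟨Nat.mem_primeFactors.2 ⟨hq, hqx.trans hx, p1⟩, hqY⟩
  -- the class
  have h2W : 2 ∣ W := hWp 2 Nat.prime_two (by omega)
  have hr0e : 2 ∣ r₀ := by
    have i0 : Fin n := ⟨0, hn1⟩
    obtain ⟨-, -, h3⟩ := huN i0
    have h4 : 2 ∣ W * t i0 + r₀ := h3.two_dvd
    exact (Nat.dvd_add_right (h2W.mul_right _)).1 h4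
  obtain ⟨a₀, ha₀⟩ := exCRT W hWs (fun q c => ¬ q ∣ c ∧ ¬ (q : ℤ) ∣ (r₀ : ℤ) - c) (by
    intro q hq r s hrs
    have e1 : q ∣ r ↔ q ∣ s := hrs.dvd_iff dvd_rfl
    have e2 : (q : ℤ) ∣ (r₀ : ℤ) - r ↔ (q : ℤ) ∣ (r₀ : ℤ) - s := by
      rw [← Nat.modEq_iff_dvd, ← Nat.modEq_iff_dvd]
      exact ⟨fun h => hrs.symm.trans h, fun h => hrs.trans h⟩
    rw [e1, e2]) (by
    intro q hq hqW
    rcases hq.two_le.eq_or_lt with h | h
    · refine ⟨1, ?_, ?_⟩
      · rw [← h]; norm_num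
      · rw [← h]
        intro h5
        have h6 : (2 : ℤ) ∣ (r₀ : ℤ) := by exact_mod_cast hr0e
        push_cast at h5
        omega
    · by_cases h5 : (q : ℤ) ∣ (r₀ : ℤ) - 1
      · refine ⟨2, ?_, ?_⟩
        · intro h6
          have := Nat.le_of_dvd (by norm_num) h6
          omega
        · intro h6
          have h7 := dvd_sub h5 h6
          push_cast at h7
          have h8 : (r₀ : ℤ) - 1 - (r₀ - 2) = 1 := by ring
          rw [h8] at h7
          have := Int.eq_one_of_dvd_one (by positivity) h7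
          omega
      · refine ⟨1, ?_, ?_⟩
        · intro h6
          have := Nat.le_of_dvd (by norm_num) h6
          omega
        · push_cast
          exact h5)
  obtain ⟨T, hTP, hTc, hTp⟩ := hfin Y hYY₀ (fun x => (Polynomial.X : Polynomial ℤ).eval x)
    (fun p hp => (rt_id p hp).le) (hMe Y hYY₁) (fun i x => (u i : ℤ) - x) Z a₀
    (cop_of a₀ W (fun q hq hqW => (ha₀ q hq hqW).1))
    (fun i q hq x => by
      refine ⟨-1, ?_⟩
      ring)
    (fun i q hq x => by
      refine ⟨-1, ?_⟩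
      ring)
    (fun K hK i => by
      unfold PB at hK
      rw [mem_filter, mem_Ioc] at hK
      obtain ⟨h1, h2, -⟩ := huN i
      have h3 : K < u i := by omega
      refine ⟨by omega, ?_⟩
      have h4 : ((u i : ℤ) - K).natAbs ≤ 3 * N := by omega
      have h5 : (((u i : ℤ) - K).natAbs : ℝ) ≤ 3 * N := by exact_mod_cast h4
      rw [Real.rpow_two]
      linarith)
    (fun i q hq hqW h => by
      apply (ha₀ q hq hqW).2
      have h1 : (q : ℤ) ∣ ((u i : ℤ) - r₀) := by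
        rw [hu]
        push_cast
        have h2 : (q : ℤ) ∣ (W : ℤ) := by exact_mod_cast hqW
        have h3 : ((W : ℤ) * t i + r₀ - r₀) = W * t i := by ring
        rw [h3]
        exact h2.mul_right _
      have h4 := dvd_sub h h1
      have h5 : (u i : ℤ) - a₀ - (u i - r₀) = r₀ - a₀ := by ring
      rwa [h5] at h4)
    hZc (fun q hq => by
      rw [hZ, mem_filter] at hq
      exact hq.2)
    (fun q hq hqW i => by
      have := lin1 q hq.pos (u i)
      rw [this, card_singleton])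
    (fun q hq hqY hqτ hqZ i => by
      rw [rt_id q hq]
      have h1 : (range q).filter (fun c : ℕ => c ≠ 0 ∧ (q : ℤ) ∣ (u i : ℤ) - (c : ℤ)) = {u i % q} := by
        rw [← lin1 q hq.pos (u i)]
        ext c
        rw [mem_filter, mem_filter]
        constructor
        · rintro ⟨h2, h3, h4⟩
          exact ⟨h2, h4⟩
        · rintro ⟨h2, h4⟩
          refine ⟨h2, ?_, h4⟩
          rintro rfl
          apply hnZ q hq hqY hqZ (u i) (p3 i)
          push_cast at h4
          rw [sub_zero] at h4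
          exact_mod_cast h4
      rw [h1, card_singleton])
    (fun q hq hqY hqτ hqZ x i j hi hj => by
      by_contra hne
      apply hnZ q hq hqY hqZ (β i j) (p4 i j)
      rw [hβ]
      dsimp only
      rw [if_neg hne]
      have h1 := dvd_sub hi hj
      have h2 : (u i : ℤ) - x - (u j - x) = u i - u j := by ring
      rw [h2] at h1
      exact Int.natCast_dvd.1 h1)
    (fun q hq hqY hqτ hqZ i => by
      have := lin1 (q ^ 2) (by have := hq.pos; positivity) (u i)
      rw [this, card_singleton])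
  have hlogY : 0 < Real.log (Y : ℝ) := Real.log_pos hYr
  have hcount : Real.sqrt N / Real.log N ^ A ≤ T.card := by
    refine le_trans ?_ hTc
    have h1 : Real.sqrt N ≤ Y := by
      rw [Real.sqrt_le_left hY0.le]
      have : (N : ℝ) ≥ 0 := Nat.cast_nonneg _
      linarith
    have h2 : Real.log Y ≤ Real.log N := by
      apply Real.log_le_log hY0
      have : Y ≤ N := by omega
      exact_mod_cast this
    exact div_le_div₀ hY0.le h1 (by positivity) (pow_le_pow_left₀ hlogY.le h2 _)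
  refine hcount.trans ?_
  have hsub : T ⊆ (range (4 * N)).filter (fun p : ℕ => p.Prime ∧ ∃ H ⊆ E, H.card = m ∧
      ∀ n ∈ H, Real.sqrt n < p ∧ (p : ℝ) < 4 * Real.sqrt n ∧
        AP 5 ((n : ℝ) ^ ((49 : ℝ) / 800)) (n - p)) := by
    intro p hp
    have hpP := hTP hp
    unfold PB at hpP
    rw [mem_filter, mem_Ioc] at hpP
    obtain ⟨⟨q1, q2⟩, q3⟩ := hpP
    obtain ⟨-, ⟨H, hH, hHA⟩, -⟩ := hTp p hp
    rw [mem_filter, mem_range]
    refine ⟨by omega, q3, H.image u, ?_, ?_, ?_⟩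
    · intro x hx
      rw [mem_image] at hx
      obtain ⟨i, -, rfl⟩ := hx
      exact huE i
    · rw [card_image_of_injective _ hinj, hH]
    · intro x hx
      rw [mem_image] at hx
      obtain ⟨i, hi, rfl⟩ := hx
      obtain ⟨n1, n2, -⟩ := huN i
      have hui : (0 : ℝ) ≤ u i := Nat.cast_nonneg _
      have hp0 : (0 : ℝ) < p := by exact_mod_cast q3.pos
      have hYp : (Y : ℝ) < p := by exact_mod_cast q1
      have huY : (u i : ℝ) ≤ (Y : ℝ) ^ 2 := by
        refine le_trans ?_ h3NY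
        exact_mod_cast n2
      refine ⟨?_, ?_, ?_⟩
      · rw [Real.sqrt_lt' hp0]
        nlinarith
      · have h1 : (p : ℝ) / 4 < Real.sqrt (u i) := by
          rw [Real.lt_sqrt (by positivity)]
          have h2 : p * p < 16 * u i := by
            calc p * p ≤ 2 * Y * (2 * Y) := Nat.mul_le_mul q2 q2
              _ < 16 * N := h4Y
              _ ≤ 16 * u i := by omega
          have h3 : (p : ℝ) * p < 16 * u i := by exact_mod_cast h2
          nlinarith
        linarith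
      · obtain ⟨g1, g2⟩ := hHA i hi
        have e1 : ((u i : ℤ) - p).natAbs = u i - p := by omega
        rw [e1] at g1 g2
        refine ⟨g1, fun q hq hqd => le_trans ?_ (g2 q hq hqd)⟩
        calc (u i : ℝ) ^ ((49 : ℝ) / 800) ≤ ((Y : ℝ) ^ 2) ^ ((49 : ℝ) / 800) :=
              Real.rpow_le_rpow hui huY (by norm_num)
          _ = (Y : ℝ) ^ ((49 : ℝ) / 100 / 4) := by
              rw [← Real.rpow_natCast, ← Real.rpow_mul hY0.le]
              norm_num
  exact_mod_cast card_le_card hsub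

end Pool.Agent.K3h21.CB
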