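import Pool.Agent.K3h21.CB.App2

set_option autoImplicit false
set_option linter.unusedSectionVars false
set_option linter.unusedVariables false

/-! Several multipliers and one prime. -/

namespace Pool.Agent.K3h21.CB

open Finset Filter
open Pool.Agent.Y677.RSZ (rt per_mod ev_log)
open Pool.Agent.K3h21.AV (AP)
open Pool.Agent.R498.MT (exW shifts)

theorem lin2 (q : ℕ) (hq : 1 < q) (u : ℕ) (hco : Nat.Coprime (2 * u) q) :
    ∃ c₀ : ℕ, c₀ ≠ 0 ∧ (range q).filter (fun c : ℕ => (q : ℤ) ∣ 2 * (u : ℤ) * (c : ℤ) + 1) = {c₀} := by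
  obtain ⟨v, -, hv⟩ := Nat.exists_mul_mod_eq_one_of_coprime hco hq
  have hv' : 2 * u * v ≡ 1 [MOD q] := by
    unfold Nat.ModEq
    rw [hv, Nat.mod_eq_of_lt hq]
  set c₀ : ℕ := ((q - 1) * v) % q with hc₀
  have h0 : (q : ℤ) ∣ 2 * (u : ℤ) * (c₀ : ℤ) + 1 := by
    have h1 : 2 * u * c₀ + 1 ≡ 0 [MOD q] := by
      have h2 : c₀ ≡ (q - 1) * v [MOD q] := Nat.mod_modEq _ _
      have h3 : 2 * u * c₀ ≡ 2 * u * ((q - 1) * v) [MOD q] := h2.mul_left _
      have h4 : 2 * u * ((q - 1) * v) = (q - 1) * (2 * u * v) := by ring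
      rw [h4] at h3
      have h5 : (q - 1) * (2 * u * v) ≡ (q - 1) * 1 [MOD q] := hv'.mul_left _
      have h6 := (h3.trans h5).add_right 1
      rw [mul_one, Nat.sub_add_cancel hq.le] at h6
      exact h6.trans (by unfold Nat.ModEq; simp)
    have h2 := (Nat.modEq_zero_iff_dvd.1 h1)
    have h3 : ((q : ℕ) : ℤ) ∣ ((2 * u * c₀ + 1 : ℕ) : ℤ) := by exact_mod_cast h2
    push_cast at h3
    exact h3
  refine ⟨c₀, ?_, ?_⟩
  · intro h
    rw [h] at h0
    push_cast at h0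
    rw [mul_zero, zero_add] at h0
    have := Int.eq_one_of_dvd_one (by positivity) h0
    omega
  · ext c
    rw [mem_filter, mem_range, mem_singleton]
    constructor
    · rintro ⟨h1, h2⟩
      have h3 := dvd_sub h2 h0
      have h4 : 2 * (u : ℤ) * c + 1 - (2 * u * c₀ + 1) = ((2 * u : ℕ) : ℤ) * (c - c₀) := by push_cast; ring
      rw [h4] at h3
      have h5 : IsCoprime (q : ℤ) ((2 * u : ℕ) : ℤ) := (Nat.isCoprime_iff_coprime.2 hco).symm
      have h6 : (q : ℤ) ∣ (c : ℤ) - c₀ := h5.dvd_of_dvd_mul_left h3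
      have h7 : c₀ ≡ c [MOD q] := Nat.modEq_iff_dvd.2 h6
      unfold Nat.ModEq at h7
      rw [Nat.mod_eq_of_lt h1, Nat.mod_eq_of_lt (Nat.mod_lt _ (by omega))] at h7
      exact h7.symm
    · rintro rfl
      exact ⟨Nat.mod_lt _ (by omega), h0⟩

theorem lin2le (q : ℕ) (hq : q.Prime) (u : ℕ) :
    ((range q).filter (fun c : ℕ => (q : ℤ) ∣ 2 * (u : ℤ) * (c : ℤ) + 1)).card ≤ 1 := by
  by_cases h : q ∣ 2 * u
  · have : (range q).filter (fun c : ℕ => (q : ℤ) ∣ 2 * (u : ℤ) * (c : ℤ) + 1) = ∅ := by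
      rw [filter_eq_empty_iff]
      intro c _ h1
      have h2 : (q : ℤ) ∣ 2 * (u : ℤ) * c := by
        have : (q : ℤ) ∣ 2 * (u : ℤ) := by exact_mod_cast h
        exact this.mul_right _
      have h3 := (Int.dvd_add_right h2).1 h1
      have := Int.eq_one_of_dvd_one (by positivity) h3
      have := hq.one_lt
      omega
    rw [this]
    simp
  · obtain ⟨c₀, -, h1⟩ := lin2 q hq.one_lt u ((Nat.Prime.coprime_iff_not_dvd hq).2 h).symm
    rw [h1, card_singleton]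

open Classical in
/-- **Several multipliers and one prime.** -/
theorem mult (r : ℕ) (σ : ℝ) (hσ : 0 ≤ σ) (hr : (1 + σ) * (25 / 12) < r - 1 / 8) (m : ℕ) :
    ∃ (K A X₀ : ℕ) (c : ℝ), 0 < c ∧ ∀ X : ℕ, X₀ ≤ X → ∀ S : Finset ℕ, K ≤ S.card →
    (∀ k ∈ S, 1 ≤ k ∧ (k : ℝ) ≤ (X : ℝ) ^ σ) →
    (X : ℝ) / Real.log X ^ A ≤ (((Ioc X (2 * X)).filter (fun p : ℕ => p.Prime ∧ ∃ H ⊆ S, H.card = m ∧
      ∀ k ∈ H, AP r ((X : ℝ) ^ c) (2 * k * p + 1))).card : ℝ) := by
  set ρ : ℝ := (r : ℝ) - 1 / 8 with hρ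
  have hρ0 : 0 < ρ := by nlinarith
  set B : ℝ := (1 + σ + ρ * (12 / 25)) / 2 with hB
  have hB0 : 0 < B := by rw [hB]; positivity
  have hBσ : 1 + σ < B := by rw [hB]; linarith
  set τ : ℝ := 25 / 24 * B / ρ with hτ
  have hτ0 : 0 < τ := by rw [hτ]; positivity
  have hτ2 : τ < 1 / 2 := by
    rw [hτ, div_lt_iff₀ hρ0, hB]
    linarith
  obtain ⟨k, A₁, A, δ, hA₁, hδ, hδτ, hfin⟩ := primeFin 1 1 ⌈B⌉₊ r τ B hτ0 hτ2
    (by have := Nat.le_ceil B; have : (0:ℝ) ≤ ⌈B⌉₊ := Nat.cast_nonneg _; linarith)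
    (by
      have : B / (24 / 25 * τ) = ρ := by
        rw [hτ]
        field_simp
      rw [this, hρ]
      linarith) m
  obtain ⟨W, hW0, hWs, hWp, -⟩ := exW A₁ 0
  set n : ℕ := 2 ^ k with hn
  have hn1 : 1 ≤ n := Nat.one_le_two_pow
  set e : ℕ := ⌈σ⌉₊ with he
  set C₀ : ℕ := ⌈((e * (n + n * n) : ℕ) : ℝ) / δ⌉₊ with hC₀
  obtain ⟨η, hη, Y₀, hfin⟩ := hfin W hWs hWp C₀
  obtain ⟨Y₁, hMe⟩ := Pool.Agent.K3h21.IR.mer_irr Polynomial.X Polynomial.irreducible_X
    (by rw [Polynomial.natDegree_X]; norm_num) δ (24 / 25 * τ) η hδ (by linarith) hη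
  have hT := tendsto_natCast_atTop_atTop (R := ℝ)
  have v1 : ∀ᶠ X : ℕ in atTop, (5 : ℝ) ≤ (X : ℝ) ^ (B - (1 + σ)) :=
    ((tendsto_rpow_atTop (by linarith)).comp hT).eventually_ge_atTop _
  have v2 : ∀ᶠ X : ℕ in atTop, (3 : ℝ) ≤ (X : ℝ) ^ δ :=
    ((tendsto_rpow_atTop hδ).comp hT).eventually_ge_atTop _
  obtain ⟨Y₂, hY₂⟩ := eventually_atTop.1 (v1.and v2)
  refine ⟨W * n, A, 2 + Y₀ + Y₁ + Y₂, τ / 4, by positivity, ?_⟩
  intro X hX S hSc hS
  obtain ⟨b1, b2⟩ := hY₂ X (by omega)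
  obtain ⟨r₀, t, hr₀, ht, htE⟩ := shifts W n hW0 S hSc
  set u : Fin n → ℕ := fun i => W * t i + r₀ with hu
  have huS : ∀ i, u i ∈ S := htE
  have hinj : Function.Injective u := by
    intro i j hij
    rw [hu] at hij
    dsimp only at hij
    exact ht (Nat.eq_of_mul_eq_mul_left hW0 (by omega))
  have hXr : (1 : ℝ) < X := by exact_mod_cast (by omega : 1 < X)
  have hX0 : (0 : ℝ) < X := by linarith
  have hσe : (X : ℝ) ^ σ ≤ (X : ℝ) ^ e := by
    rw [← Real.rpow_natCast]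
    exact Real.rpow_le_rpow_of_exponent_le hXr.le (Nat.le_ceil σ)
  have huN : ∀ i, 1 ≤ u i ∧ (u i : ℝ) ≤ (X : ℝ) ^ σ := fun i => hS _ (huS i)
  set β : Fin n → Fin n → ℕ := fun i j => if i = j then 1 else ((u i : ℤ) - u j).natAbs with hβ
  have hM : (1 : ℝ) ≤ (X : ℝ) ^ e := one_le_pow₀ hXr.le
  have hβb : ∀ i j, 1 ≤ β i j ∧ (β i j : ℝ) ≤ (X : ℝ) ^ e := by
    intro i j
    rw [hβ]
    dsimp only
    split_ifs with h
    · exact ⟨le_rfl, by push_cast; exact hM⟩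
    · have h1 : u i ≠ u j := fun h2 => h (hinj h2)
      obtain ⟨h2, h3⟩ := huN i
      obtain ⟨h5, h6⟩ := huN j
      refine ⟨by omega, ?_⟩
      rcases Nat.le_total (u i) (u j) with h7 | h7
      · have h8 : ((u i : ℤ) - u j).natAbs ≤ u j := by omega
        have h9 : (((u i : ℤ) - u j).natAbs : ℝ) ≤ u j := by exact_mod_cast h8
        linarith
      · have h8 : ((u i : ℤ) - u j).natAbs ≤ u i := by omega
        have h9 : (((u i : ℤ) - u j).natAbs : ℝ) ≤ u i := by exact_mod_cast h8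
        linarith
  obtain ⟨p1, p2, p3, p4⟩ := PPr_facts u β ((X : ℝ) ^ e) hM (fun i => by
    obtain ⟨h1, h2⟩ := huN i
    exact ⟨h1, h2.trans hσe⟩) hβb
  set P : ℕ := PPr u β with hP
  set Z : Finset ℕ := P.primeFactors.filter (fun q : ℕ => (X : ℝ) ^ δ ≤ q) with hZ
  have hZc : Z.card ≤ C₀ := by
    apply few_primes P X (e * (n + n * n)) C₀ δ hδ (by omega) p1
    · rw [pow_mul]
      exact p2
    · exact Nat.le_ceil _
  have hnZ : ∀ q : ℕ, q.Prime → (X : ℝ) ^ δ ≤ q → q ∉ Z → ∀ x, x ∣ P → ¬ q ∣ x := by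
    intro q hq hqY hqZ x hx hqx
    apply hqZ
    rw [hZ, mem_filter]
    exact ⟨Nat.mem_primeFactors.2 ⟨hq, hqx.trans hx, p1⟩, hqY⟩
  have hq2 : ∀ q : ℕ, (X : ℝ) ^ δ ≤ q → 3 ≤ q := by
    intro q hq
    exact_mod_cast b2.trans hq
  have hcop : ∀ q : ℕ, q.Prime → (X : ℝ) ^ δ ≤ q → q ∉ Z → ∀ i, Nat.Coprime (2 * u i) q := by
    intro q hq hqY hqZ i
    apply Nat.Coprime.symm
    rw [Nat.Prime.coprime_iff_not_dvd hq, hq.dvd_mul]
    rintro (h | h)
    · have := Nat.le_of_dvd (by norm_num) h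
      have := hq2 q hqY
      omega
    · exact hnZ q hq hqY hqZ (u i) (p3 i) h
  obtain ⟨a₀, ha₀⟩ := exCRT W hWs (fun q c => ¬ q ∣ c ∧ ¬ (q : ℤ) ∣ 2 * (r₀ : ℤ) * c + 1) (by
    intro q hq r s hrs
    have e1 : q ∣ r ↔ q ∣ s := hrs.dvd_iff dvd_rfl
    have e2 : (q : ℤ) ∣ 2 * (r₀ : ℤ) * r + 1 ↔ (q : ℤ) ∣ 2 * (r₀ : ℤ) * s + 1 := by
      have h1 : (q : ℤ) ∣ (s : ℤ) - r := Nat.modEq_iff_dvd.1 hrs
      have h2 : (2 * (r₀ : ℤ) * s + 1) - (2 * (r₀ : ℤ) * r + 1) = 2 * r₀ * (s - r) := by ring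
      have h3 : (q : ℤ) ∣ (2 * (r₀ : ℤ) * s + 1) - (2 * (r₀ : ℤ) * r + 1) := by
        rw [h2]
        exact h1.mul_left _
      exact (dvd_iff_dvd_of_dvd_sub h3).symm
    rw [e1, e2]) (by
    intro q hq hqW
    rcases hq.two_le.eq_or_lt with h | h
    · refine ⟨1, ?_, ?_⟩
      · rw [← h]; norm_num
      · rw [← h]
        intro h5
        push_cast at h5
        omega
    · by_cases h5 : (q : ℤ) ∣ 2 * (r₀ : ℤ) + 1
      · refine ⟨2, ?_, ?_⟩
        · intro h6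
          have := Nat.le_of_dvd (by norm_num) h6
          omega
        · intro h6
          have h7 := dvd_sub (h5.mul_left 2) h6
          push_cast at h7
          have h8 : 2 * (2 * (r₀ : ℤ) + 1) - (2 * r₀ * 2 + 1) = 1 := by ring
          rw [h8] at h7
          have := Int.eq_one_of_dvd_one (by positivity) h7
          omega
      · refine ⟨1, ?_, ?_⟩
        · intro h6
          have := Nat.le_of_dvd (by norm_num) h6
          omega
        · push_cast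
          rw [mul_one]
          exact h5)
  obtain ⟨T, hTP, hTc, hTp⟩ := hfin X (by omega) (fun x => (Polynomial.X : Polynomial ℤ).eval x)
    (fun p hp => (rt_id p hp).le) (hMe X (by omega)) (fun i x => 2 * (u i : ℤ) * x + 1) Z a₀
    (cop_of a₀ W (fun q hq hqW => (ha₀ q hq hqW).1))
    (fun i q hq x => by
      refine ⟨2 * u i, ?_⟩
      ring)
    (fun i q hq x => by
      refine ⟨2 * u i, ?_⟩
      ring)
    (fun K hK i => by
      unfold PB at hK
      rw [mem_filter, mem_Ioc] at hK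
      obtain ⟨⟨k1, k2⟩, k3⟩ := hK
      obtain ⟨h1, h2⟩ := huN i
      have e1 : (2 * (u i : ℤ) * K + 1).natAbs = 2 * u i * K + 1 := by
        have : (2 * (u i : ℤ) * K + 1) = ((2 * u i * K + 1 : ℕ) : ℤ) := by push_cast; ring
        rw [this, Int.natAbs_natCast]
      refine ⟨by positivity, ?_⟩
      rw [e1]
      push_cast
      have k4 : (K : ℝ) ≤ 2 * X := by exact_mod_cast k2
      have h3 : 1 ≤ (X : ℝ) ^ σ := Real.one_le_rpow hXr.le hσ
      calc 2 * (u i : ℝ) * K + 1 ≤ 2 * (X : ℝ) ^ σ * (2 * X) + 1 * 1 := by gcongr; norm_num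
        _ ≤ 2 * (X : ℝ) ^ σ * (2 * X) + (X : ℝ) ^ σ * X := by gcongr
        _ = 5 * ((X : ℝ) * (X : ℝ) ^ σ) := by ring
        _ ≤ (X : ℝ) ^ (B - (1 + σ)) * ((X : ℝ) * (X : ℝ) ^ σ) := mul_le_mul_of_nonneg_right b1 (by positivity)
        _ = (X : ℝ) ^ B := by
            have h5 : (X : ℝ) * (X : ℝ) ^ σ = (X : ℝ) ^ (1 + σ) := by rw [Real.rpow_add hX0, Real.rpow_one]
            rw [h5, ← Real.rpow_add hX0]
            congr 1
            ring)
    (fun i q hq hqW h => by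
      apply (ha₀ q hq hqW).2
      have h2 : (q : ℤ) ∣ (W : ℤ) := by exact_mod_cast hqW
      have h3 : (2 * (u i : ℤ) * a₀ + 1) - (2 * (r₀ : ℤ) * a₀ + 1) = W * (2 * t i * a₀) := by
        rw [hu]
        push_cast
        ring
      have h4 : (q : ℤ) ∣ (2 * (u i : ℤ) * a₀ + 1) - (2 * (r₀ : ℤ) * a₀ + 1) := by
        rw [h3]
        exact h2.mul_right _
      exact (dvd_iff_dvd_of_dvd_sub h4).1 h)
    hZc (fun q hq => by
      rw [hZ, mem_filter] at hq
      exact hq.2)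
    (fun q hq hqW i => by
      have := lin2le q hq (u i)
      convert this)
    (fun q hq hqY hqτ hqZ i => by
      rw [rt_id q hq]
      obtain ⟨c₀, hc₀, h1⟩ := lin2 q hq.one_lt (u i) (hcop q hq hqY hqZ i)
      have h2 : (range q).filter (fun c : ℕ => c ≠ 0 ∧ (q : ℤ) ∣ 2 * (u i : ℤ) * (c : ℤ) + 1) = {c₀} := by
        ext c
        constructor
        · intro hc
          rw [mem_filter] at hc
          rw [← h1, mem_filter]
          exact ⟨hc.1, hc.2.2⟩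
        · intro hc
          have hc' := hc
          rw [← h1, mem_filter] at hc
          rw [mem_filter]
          refine ⟨hc.1, ?_, hc.2⟩
          rw [mem_singleton.1 hc']
          exact hc₀
      rw [h2, card_singleton])
    (fun q hq hqY hqτ hqZ x i j hi hj => by
      by_contra hne
      have h1 := dvd_sub hi hj
      have h2 : 2 * (u i : ℤ) * x + 1 - (2 * u j * x + 1) = 2 * (u i - u j) * x := by ring
      rw [h2] at h1
      have hqp : Prime (q : ℤ) := Nat.prime_iff_prime_int.1 hq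
      rcases hqp.dvd_or_dvd h1 with h3 | h3
      · rcases hqp.dvd_or_dvd h3 with h4 | h4
        · have h5 : q ∣ 2 := by exact_mod_cast h4
          have := Nat.le_of_dvd (by norm_num) h5
          have := hq2 q hqY
          omega
        · apply hnZ q hq hqY hqZ (β i j) (p4 i j)
          rw [hβ]
          dsimp only
          rw [if_neg hne]
          exact Int.natCast_dvd.1 h4
      · have h4 : (q : ℤ) ∣ 2 * (u i : ℤ) * x := h3.mul_left _
        have h5 := (Int.dvd_add_right h4).1 hi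
        have := Int.eq_one_of_dvd_one (by positivity) h5
        have := hq.one_lt
        omega)
    (fun q hq hqY hqτ hqZ i => by
      obtain ⟨c₀, hc₀, h1⟩ := lin2 (q ^ 2) (Nat.one_lt_pow two_ne_zero hq.one_lt) (u i)
        (Nat.Coprime.pow_right 2 (hcop q hq hqY hqZ i))
      have h2 : ((range (q ^ 2)).filter (fun c : ℕ => ((q ^ 2 : ℕ) : ℤ) ∣ 2 * (u i : ℤ) * (c : ℤ) + 1)).card ≤ 1 := by
        rw [h1, card_singleton]
      convert h2)
  refine hTc.trans ?_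
  have hsub : T ⊆ (Ioc X (2 * X)).filter (fun p : ℕ => p.Prime ∧ ∃ H ⊆ S, H.card = m ∧
      ∀ k ∈ H, AP r ((X : ℝ) ^ (τ / 4)) (2 * k * p + 1)) := by
    intro p hp
    have hpP := hTP hp
    unfold PB at hpP
    rw [mem_filter] at hpP
    obtain ⟨-, ⟨H, hH, hHA⟩, -⟩ := hTp p hp
    rw [mem_filter]
    refine ⟨hpP.1, hpP.2, H.image u, ?_, ?_, ?_⟩
    · intro x hx
      rw [mem_image] at hx
      obtain ⟨i, -, rfl⟩ := hx
      exact huS i
    · rw [card_image_of_injective _ hinj, hH]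
    · intro x hx
      rw [mem_image] at hx
      obtain ⟨i, hi, rfl⟩ := hx
      have h1 := hHA i hi
      have e1 : (2 * (u i : ℤ) * p + 1).natAbs = 2 * u i * p + 1 := by
        have : (2 * (u i : ℤ) * p + 1) = ((2 * u i * p + 1 : ℕ) : ℤ) := by push_cast; ring
        rw [this, Int.natAbs_natCast]
      rwa [e1] at h1
  exact_mod_cast card_le_card hsub

end Pool.Agent.K3h21.CB
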