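import Pool.Agent.K3h21.CB.App3
import Pool.Agent.K3h21.AV.Win5

set_option autoImplicit false
set_option linter.unusedSectionVars false
set_option linter.unusedVariables false

/-! Several shifts of one prime in a polynomial. -/

namespace Pool.Agent.K3h21.CB

open Finset Filter Polynomial
open Pool.Agent.Y677.RSZ (rt per_mod ev_log Sys)
open Pool.Agent.K3h21.AV (AP)
open Pool.Agent.R498.MT (exW shifts)

theorem shf (f : ℤ[X]) (g : ℕ) (hG : Sys g (fun n => f.eval n)) (q : ℕ) (hq : q.Prime) (h : ℕ) :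
    ((range q).filter (fun c : ℕ => (q : ℤ) ∣ f.eval ((c : ℤ) + h))).card = rt (fun n => f.eval n) q := by
  have h1 := Pool.Agent.Y833.RSZ.card_shift (F := fun n => f.eval n) hq (fun n => hG.per q hq n) 1 0 h
    (fun h => hq.one_lt.ne' (Nat.dvd_one.1 h))
  rw [← h1]
  congr 1
  ext c
  simp only [one_mul, add_zero]
  push_cast
  rfl

open Classical in
/-- **Several shifts of one prime in a polynomial.** -/
theorem polyP (f : ℤ[X]) (hf : Irreducible f) (hd : 0 < f.natDegree) (hne0 : ∀ h : ℕ, f.eval (h : ℤ) ≠ 0)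
    (h2 : ∀ q : ℕ, q.Prime → rt (fun n => f.eval n) q + 2 ≤ q) (r : ℕ) (τ : ℝ) (hτ0 : 0 < τ) (hτ2 : τ < 1 / 2)
    (hr : 9 / 8 + ((f.natDegree : ℝ) + 1 / 100) / (24 / 25 * τ) ≤ r + 1) (m : ℕ) :
    ∃ K A X₀ : ℕ, ∀ X : ℕ, X₀ ≤ X → ∀ S : Finset ℕ, K ≤ S.card → (∀ h ∈ S, h ≤ X) →
    (X : ℝ) / Real.log X ^ A ≤ (((Ioc X (2 * X)).filter (fun p : ℕ => p.Prime ∧ ∃ H ⊆ S, H.card = m ∧
      ∀ h ∈ H, AP r ((X : ℝ) ^ (τ / 4)) (f.eval ((p + h : ℕ) : ℤ)).natAbs)).card : ℝ) := by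
  obtain ⟨g, hG⟩ := Pool.Agent.Y677.RSZ.poly_all f hf.ne_zero (fun q hq => by
    by_contra hcon
    push Not at hcon
    have h3 := h2 q hq
    have h4 : rt (fun n => f.eval n) q = q := by
      have h5 : (range q).filter (fun c : ℕ => (q : ℤ) ∣ (fun n : ℤ => f.eval n) c) = range q :=
        filter_true_of_mem (fun c _ => hcon c)
      unfold rt
      rw [h5, card_range]
    omega)
  obtain ⟨KK, q0, hSq⟩ := Pool.Agent.K3h21.IR.sq_irr f hf hd
  obtain ⟨CG, hCG⟩ := Pool.Agent.K3h21.IR.eval_size f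
  set d : ℕ := f.natDegree with hdd
  set B : ℝ := (d : ℝ) + 1 / 100 with hB
  set g₁ : ℕ := g + 2 * KK + 1 with hg₁
  obtain ⟨k, A₁, A, δ, hA₁, hδ, hδτ, hfin⟩ := primeFin g g₁ (d + 1) r τ B hτ0 hτ2
    (by rw [hB]; push_cast; have : (0:ℝ) ≤ d := Nat.cast_nonneg _; linarith) hr m
  obtain ⟨W, hW0, hWs, hWp, hWg⟩ := exW A₁ g
  set n : ℕ := 2 ^ k with hn
  have hn1 : 1 ≤ n := Nat.one_le_two_pow
  obtain ⟨Δ, hΔ⟩ := hG.coll
  set e : ℕ := d + 1 + g with he
  set C₀ : ℕ := ⌈((e * (n + n * n) : ℕ) : ℝ) / δ⌉₊ with hC₀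
  obtain ⟨η, hη, Y₀, hfin⟩ := hfin W hWs hWp C₀
  obtain ⟨Y₁, hMe⟩ := Pool.Agent.K3h21.IR.mer_irr f hf hd δ (24 / 25 * τ) η hδ (by linarith) hη
  have hT := tendsto_natCast_atTop_atTop (R := ℝ)
  have v1 : ∀ᶠ X : ℕ in atTop, (CG * 4 ^ d : ℝ) ≤ (X : ℝ) ^ ((1 : ℝ) / 100) :=
    ((tendsto_rpow_atTop (by norm_num)).comp hT).eventually_ge_atTop _
  have v2 : ∀ᶠ X : ℕ in atTop, (q0 : ℝ) ≤ (X : ℝ) ^ δ :=
    ((tendsto_rpow_atTop hδ).comp hT).eventually_ge_atTop _
  obtain ⟨Y₂, hY₂⟩ := eventually_atTop.1 (v1.and v2)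
  refine ⟨W * n, A, 2 + Y₀ + Y₁ + Y₂, ?_⟩
  intro X hX S hSc hS
  obtain ⟨b1, b2⟩ := hY₂ X (by omega)
  obtain ⟨r₀, t, hr₀, ht, htE⟩ := shifts W n hW0 S hSc
  set u : Fin n → ℕ := fun i => W * t i + r₀ with hu
  have huS : ∀ i, u i ∈ S := htE
  have hinj : Function.Injective u := by
    intro i j hij
    rw [hu] at hij
    dsimp only at hij
    exact ht (Nat.eq_of_mul_eq_mul_left hW0 (by omega))
  have hXr : (1 : ℝ) < X := by exact_mod_cast (by omega : 1 < X)
  have hX0 : (0 : ℝ) < X := by linarith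
  have huN : ∀ i, u i ≤ X := fun i => hS _ (huS i)
  set ds : Fin n → Fin n → ℕ := fun i j => (u i - u j) + (u j - u i) with hds
  have hdsg : ∀ i j, i ≠ j → g ≤ ds i j ∧ ds i j ≤ X := by
    intro i j hij
    have h3 : t i ≠ t j := fun h => hij (ht h)
    rw [hds]
    dsimp only
    have hui := huN i
    have huj := huN j
    refine ⟨?_, by omega⟩
    rcases Nat.lt_or_gt_of_ne h3 with h4 | h4
    · obtain ⟨s, hs⟩ : ∃ s, t j = t i + (s + 1) := ⟨t j - t i - 1, by omega⟩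
      have h5 : u j = u i + W * (s + 1) := by
        rw [hu]
        dsimp only
        rw [hs]
        ring
      have h6 : W ≤ W * (s + 1) := Nat.le_mul_of_pos_right _ (by omega)
      omega
    · obtain ⟨s, hs⟩ : ∃ s, t i = t j + (s + 1) := ⟨t i - t j - 1, by omega⟩
      have h5 : u i = u j + W * (s + 1) := by
        rw [hu]
        dsimp only
        rw [hs]
        ring
      have h6 : W ≤ W * (s + 1) := Nat.le_mul_of_pos_right _ (by omega)
      omega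
  set β : Fin n → Fin n → ℕ := fun i j => if i = j then 1 else Δ (ds i j) with hβ
  have hM : (1 : ℝ) ≤ (X : ℝ) ^ e := one_le_pow₀ hXr.le
  have hβb : ∀ i j, 1 ≤ β i j ∧ (β i j : ℝ) ≤ (X : ℝ) ^ e := by
    intro i j
    rw [hβ]
    dsimp only
    split_ifs with h
    · exact ⟨le_rfl, by push_cast; exact hM⟩
    · obtain ⟨h3, h4⟩ := hdsg i j h
      obtain ⟨h5, h6, -⟩ := hΔ (ds i j) h3
      refine ⟨h5, ?_⟩
      have h7 : Δ (ds i j) ≤ X ^ e := h6.trans ((Nat.pow_le_pow_left h4 g).trans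
        (Nat.pow_le_pow_right (by omega) (by omega)))
      exact_mod_cast h7
  have hval : ∀ x : ℕ, x + 1 ≤ 4 * X → (((f.eval (x : ℤ)).natAbs : ℕ) : ℝ) ≤ (X : ℝ) ^ B := by
    intro x hx
    have h3 : (((f.eval (x : ℤ)).natAbs : ℕ) : ℝ) ≤ CG * ((x + 1 : ℕ) : ℝ) ^ d := by exact_mod_cast hCG x
    have h4 : ((x + 1 : ℕ) : ℝ) ≤ 4 * X := by exact_mod_cast hx
    calc (((f.eval (x : ℤ)).natAbs : ℕ) : ℝ) ≤ CG * ((x + 1 : ℕ) : ℝ) ^ d := h3
      _ ≤ CG * (4 * X) ^ d := by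
          apply mul_le_mul_of_nonneg_left _ (Nat.cast_nonneg _)
          exact pow_le_pow_left₀ (Nat.cast_nonneg _) h4 _
      _ = (CG * 4 ^ d) * (X : ℝ) ^ d := by rw [mul_pow]; ring
      _ ≤ (X : ℝ) ^ ((1 : ℝ) / 100) * (X : ℝ) ^ d := mul_le_mul_of_nonneg_right b1 (by positivity)
      _ = (X : ℝ) ^ B := by rw [hB, Real.rpow_add hX0, Real.rpow_natCast, mul_comm]
  obtain ⟨p1, p2, p3, p4⟩ := PPr_facts (fun i => (f.eval ((u i : ℕ) : ℤ)).natAbs) β ((X : ℝ) ^ e) hM (fun i => by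
    refine ⟨Nat.one_le_iff_ne_zero.2 (Int.natAbs_ne_zero.2 (hne0 _)), (hval (u i) (by have := huN i; omega)).trans ?_⟩
    rw [← Real.rpow_natCast]
    apply Real.rpow_le_rpow_of_exponent_le hXr.le
    rw [hB, he]
    push_cast
    have : (0 : ℝ) ≤ g := Nat.cast_nonneg _
    linarith) hβb
  set P : ℕ := PPr (fun i => (f.eval ((u i : ℕ) : ℤ)).natAbs) β with hP
  set Z : Finset ℕ := P.primeFactors.filter (fun q : ℕ => (X : ℝ) ^ δ ≤ q) with hZ
  have hZc : Z.card ≤ C₀ := by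
    apply few_primes P X (e * (n + n * n)) C₀ δ hδ (by omega) p1
    · rw [pow_mul]
      exact p2
    · exact Nat.le_ceil _
  have hnZ : ∀ q : ℕ, q.Prime → (X : ℝ) ^ δ ≤ q → q ∉ Z → ∀ x, x ∣ P → ¬ q ∣ x := by
    intro q hq hqY hqZ x hx hqx
    apply hqZ
    rw [hZ, mem_filter]
    exact ⟨Nat.mem_primeFactors.2 ⟨hq, hqx.trans hx, p1⟩, hqY⟩
  have hpm : ∀ q : ℕ, q.Prime → ∀ h r s : ℕ, r ≡ s [MOD q] →
      ((q : ℤ) ∣ f.eval ((r : ℤ) + h) ↔ (q : ℤ) ∣ f.eval ((s : ℤ) + h)) := by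
    intro q hq h r s hrs
    have e1 : (q : ℤ) ∣ (s : ℤ) - r := Nat.modEq_iff_dvd.1 hrs
    have e2 : (q : ℤ) ∣ f.eval ((s : ℤ) + h) - f.eval ((r : ℤ) + h) := by
      refine dvd_trans ?_ (sub_dvd_eval_sub _ _ f)
      have : (s : ℤ) + h - (r + h) = s - r := by ring
      rw [this]
      exact e1
    exact (dvd_iff_dvd_of_dvd_sub e2).symm
  obtain ⟨a₀, ha₀⟩ := exCRT W hWs (fun q c => ¬ q ∣ c ∧ ¬ (q : ℤ) ∣ f.eval ((c : ℤ) + r₀)) (by
    intro q hq r s hrs
    have e1 : q ∣ r ↔ q ∣ s := hrs.dvd_iff dvd_rfl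
    rw [e1, hpm q hq r₀ r s hrs]) (by
    intro q hq hqW
    by_contra hcon
    push Not at hcon
    have h3 : range q ⊆ insert 0 ((range q).filter (fun c : ℕ => (q : ℤ) ∣ f.eval ((c : ℤ) + r₀))) := by
      intro c hc
      rw [mem_insert, mem_filter]
      by_cases hc0 : c = 0
      · exact Or.inl hc0
      · right
        refine ⟨hc, hcon c (fun h => ?_)⟩
        have := Nat.le_of_dvd (by omega) h
        have := mem_range.1 hc
        omega
    have h4 := (card_le_card h3).trans (card_insert_le _ _)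
    rw [card_range, shf f g hG q hq r₀] at h4
    have := h2 q hq
    omega)
  obtain ⟨T, hTP, hTc, hTp⟩ := hfin X (by omega) (fun x => f.eval x)
    (fun p hp => (hG.root p hp).1) (hMe X (by omega)) (fun i x => f.eval (x + (u i : ℤ))) Z a₀
    (cop_of a₀ W (fun q hq hqW => (ha₀ q hq hqW).1))
    (fun i q hq x => by
      refine dvd_trans ?_ (sub_dvd_eval_sub _ _ f)
      have : x + (q : ℤ) + (u i : ℤ) - (x + u i) = q := by ring
      rw [this])
    (fun i q hq x => by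
      refine dvd_trans ?_ (sub_dvd_eval_sub _ _ f)
      have : x + ((q ^ 2 : ℕ) : ℤ) + (u i : ℤ) - (x + u i) = ((q ^ 2 : ℕ) : ℤ) := by ring
      rw [this])
    (fun K hK i => by
      unfold PB at hK
      rw [mem_filter, mem_Ioc] at hK
      obtain ⟨⟨k1, k2⟩, k3⟩ := hK
      have h1 := huN i
      have h3 : ((K : ℤ) + (u i : ℤ)) = ((K + u i : ℕ) : ℤ) := by push_cast; ring
      rw [h3]
      exact ⟨hne0 _, hval (K + u i) (by omega)⟩)
    (fun i q hq hqW h => by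
      apply (ha₀ q hq hqW).2
      have h2' : (q : ℤ) ∣ (W : ℤ) := by exact_mod_cast hqW
      have h3 : (q : ℤ) ∣ f.eval ((a₀ : ℤ) + u i) - f.eval ((a₀ : ℤ) + r₀) := by
        refine dvd_trans ?_ (sub_dvd_eval_sub _ _ f)
        have h4 : (a₀ : ℤ) + (u i : ℤ) - (a₀ + r₀) = W * t i := by
          rw [hu]
          push_cast
          ring
        rw [h4]
        exact h2'.mul_right _
      exact (dvd_iff_dvd_of_dvd_sub h3).1 h)
    hZc (fun q hq => by
      rw [hZ, mem_filter] at hq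
      exact hq.2)
    (fun q hq hqW i => by
      have h3 : ((range q).filter (fun c : ℕ => (q : ℤ) ∣ f.eval ((c : ℤ) + (u i : ℕ)))).card ≤ g₁ := by
        rw [shf f g hG q hq (u i)]
        have := (hG.root q hq).1
        omega
      convert h3)
    (fun q hq hqY hqτ hqZ i => by
      rw [← shf f g hG q hq (u i)]
      have h3 : (range q).filter (fun c : ℕ => c ≠ 0 ∧ (q : ℤ) ∣ f.eval ((c : ℤ) + (u i : ℕ))) =
          (range q).filter (fun c : ℕ => (q : ℤ) ∣ f.eval ((c : ℤ) + (u i : ℕ))) := by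
        ext c
        rw [mem_filter, mem_filter]
        constructor
        · rintro ⟨h4, h5, h6⟩
          exact ⟨h4, h6⟩
        · rintro ⟨h4, h6⟩
          refine ⟨h4, ?_, h6⟩
          rintro rfl
          push_cast at h6
          rw [zero_add] at h6
          exact hnZ q hq hqY hqZ _ (p3 i) (Int.natCast_dvd.1 h6)
      rw [h3])
    (fun q hq hqY hqτ hqZ x i j hi hj => by
      by_contra hne
      have key : ∀ i j : Fin n, i ≠ j → u i < u j → (q : ℤ) ∣ f.eval ((x : ℤ) + (u i : ℤ)) →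
          (q : ℤ) ∣ f.eval ((x : ℤ) + (u j : ℤ)) → False := by
        intro i j hij hlt hi hj
        obtain ⟨h3, h4⟩ := hdsg i j hij
        obtain ⟨h5, h6, h7⟩ := hΔ (ds i j) h3
        apply hnZ q hq hqY hqZ (β i j) (p4 i j)
        rw [hβ]
        dsimp only
        rw [if_neg hij]
        apply h7 q hq ((x : ℤ) + (u i : ℤ)) hi
        have h8 : (x : ℤ) + (u i : ℤ) + ((ds i j : ℕ) : ℤ) = x + u j := by
          rw [hds]
          dsimp only
          have : (((u i - u j) + (u j - u i) : ℕ) : ℤ) = u j - u i := by omega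
          rw [this]
          ring
        rw [h8]
        exact hj
      rcases Nat.lt_or_gt_of_ne (fun h => hne (hinj h) : u i ≠ u j) with h3 | h3
      · exact key i j hne h3 hi hj
      · exact key j i (fun h => hne h.symm) h3 hj hi)
    (fun q hq hqY hqτ hqZ i => by
      have hqq0 : q0 ≤ q := by exact_mod_cast b2.trans hqY
      have h3 := hSq q hq hqq0 (u i) (q ^ 2)
      have hqr : (0 : ℝ) < q := by exact_mod_cast hq.pos
      have h4 : (KK : ℝ) * (((q ^ 2 : ℕ) : ℝ) * (1 / (q : ℝ) ^ 2) + 1) = 2 * KK := by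
        push_cast
        field_simp
        ring
      rw [h4] at h3
      have h5 : ((Icc 1 (q ^ 2)).filter (fun j : ℕ => ((q ^ 2 : ℕ) : ℤ) ∣ f.eval ((u i + j : ℕ) : ℤ))).card ≤ 2 * KK := by
        exact_mod_cast h3
      have h6 : (range (q ^ 2)).filter (fun c : ℕ => ((q ^ 2 : ℕ) : ℤ) ∣ f.eval ((c : ℤ) + (u i : ℕ))) ⊆
          insert 0 ((Icc 1 (q ^ 2)).filter (fun j : ℕ => ((q ^ 2 : ℕ) : ℤ) ∣ f.eval ((u i + j : ℕ) : ℤ))) := by
        intro c hc
        rw [mem_filter, mem_range] at hc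
        rw [mem_insert, mem_filter, mem_Icc]
        by_cases hc0 : c = 0
        · exact Or.inl hc0
        · right
          refine ⟨⟨by omega, hc.1.le⟩, ?_⟩
          have h7 : ((u i + c : ℕ) : ℤ) = (c : ℤ) + (u i : ℕ) := by push_cast; ring
          rw [h7]
          exact hc.2
      have h7 : ((range (q ^ 2)).filter (fun c : ℕ => ((q ^ 2 : ℕ) : ℤ) ∣ f.eval ((c : ℤ) + (u i : ℕ)))).card ≤ g₁ := by
        have := (card_le_card h6).trans (card_insert_le _ _)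
        omega
      convert h7)
  refine hTc.trans ?_
  have hsub : T ⊆ (Ioc X (2 * X)).filter (fun p : ℕ => p.Prime ∧ ∃ H ⊆ S, H.card = m ∧
      ∀ h ∈ H, AP r ((X : ℝ) ^ (τ / 4)) (f.eval ((p + h : ℕ) : ℤ)).natAbs) := by
    intro p hp
    have hpP := hTP hp
    unfold PB at hpP
    rw [mem_filter] at hpP
    obtain ⟨-, ⟨H, hH, hHA⟩, -⟩ := hTp p hp
    rw [mem_filter]
    refine ⟨hpP.1, hpP.2, H.image u, ?_, ?_, ?_⟩
    · intro x hx
      rw [mem_image] at hx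
      obtain ⟨i, -, rfl⟩ := hx
      exact huS i
    · rw [card_image_of_injective _ hinj, hH]
    · intro x hx
      rw [mem_image] at hx
      obtain ⟨i, hi, rfl⟩ := hx
      have h1 := hHA i hi
      have e1 : ((p + u i : ℕ) : ℤ) = (p : ℤ) + (u i : ℤ) := by push_cast; ring
      rw [e1]
      exact h1
  exact_mod_cast card_le_card hsub

end Pool.Agent.K3h21.CB
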