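import Pool.Agent.K3h21.AV.CoreA

set_option autoImplicit false
set_option linter.unusedSectionVars false
set_option linter.unusedVariables false

/-! The sieve of Maynard and Tao with Richert's weights in the slots, for abstract families with a level of
distribution in the mean and with general densities and general conditions at the small primes. -/

namespace Pool.Agent.K3h21.CB

open Finset Filter
open Pool.Agent.Y677.RSZ (rt Sys)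
open Pool.Agent.TH423.SH (PS)
open Pool.Agent.W23.DC
open Pool.Agent.Y882
open Pool.Agent.Y882.PX
open Pool.Agent.Y882.KW
open Pool.Agent.R498.MT
open Pool.Agent.K3h21.AV

section
variable (G : ℤ → ℤ) (Y : ℕ) (ε₁ υ : ℝ)

/-- the colours of the primes of a pattern -/
noncomputable def colT {n : ℕ} (T : Pg G Y ε₁ υ → Option (Fin n)) (i0 : Fin n) (p : ℕ) : Fin n :=
  open Classical in if h : p ∈ Pg G Y ε₁ υ then (T ⟨p, h⟩).getD i0 else i0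

open Classical in
/-- the weighted count with given prime divisors of given colours -/
theorem combB (W z k : ℕ) (hY : 2 ≤ Y) (N : Finset ℕ) (ω : ℕ → ℝ)
    (val : ℕ → Fin (2 ^ k) → ℕ) (hit : ℕ → ℕ → Prop) (γ : ℕ → ℝ) (X₀ θ : ℝ) (e : ℕ → ℝ)
    (hz1 : (z : ℝ) < (Y : ℝ) ^ ε₁) (hWz : W ≤ z) (hW : 0 < W)
    (hH : ∀ A S : Finset ℕ, (∀ p ∈ A, p.Prime ∧ ¬ p ∣ W ∧ (p : ℝ) < (Y : ℝ) ^ ε₁) →
      (∀ p ∈ S, p.Prime ∧ ¬ p ∣ W ∧ (Y : ℝ) ^ ε₁ ≤ p ∧ (p : ℝ) < (Y : ℝ) ^ υ) →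
      (((∏ p ∈ A, p) * (∏ p ∈ S, p) : ℕ) : ℝ) ≤ (Y : ℝ) ^ θ → ∀ σ : ℕ → Fin (2 ^ k),
      |∑ K ∈ N, ω K * (if (∀ p ∈ A, hit p K) ∧ (∀ p ∈ S, p ∣ val K (σ p)) then 1 else 0) -
        X₀ * (∏ p ∈ A, γ p) * ∏ p ∈ S, ((rt G p : ℝ) / p)| ≤ e ((∏ p ∈ A, p) * (∏ p ∈ S, p)))
    (hU : ∀ K ∈ N, ∀ p : ℕ, p.Prime → ¬ p ∣ W → (Y : ℝ) ^ ε₁ ≤ p → (p : ℝ) < (Y : ℝ) ^ υ → ∀ i j,
      p ∣ val K i → p ∣ val K j → i = j)
    (A : Finset ℕ) (hA : A ⊆ PS W z) (T : Pg G Y ε₁ υ → Option (Fin (2 ^ k)))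
    (hAT : (((∏ p ∈ A, p) * (∏ p ∈ sp G Y ε₁ υ T, p) : ℕ) : ℝ) ≤ (Y : ℝ) ^ θ) :
    |∑ K ∈ (N.filter (fun K => Pool.Agent.R498.MT.Sub T
        (xv (fun s : Pg G Y ε₁ υ => (s : ℕ)) (val K)))).filter
        (fun K => ∀ p ∈ A, hit p K), ω K -
      X₀ * (∏ t, Pool.Agent.R498.MT.rr (fun _ : Fin (2 ^ k) => 1 / qs G Y ε₁ υ t) (T t)) *
        ∏ p ∈ A, γ p| ≤
      e ((∏ p ∈ A, p) * (∏ p ∈ sp G Y ε₁ υ T, p)) := by
  have hYr : (2 : ℝ) ≤ Y := by exact_mod_cast hY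
  have hY0 : (0 : ℝ) < Y := by linarith
  have hY1 : (1 : ℝ) ≤ Y := by linarith
  have hAp : ∀ p ∈ A, p.Prime ∧ ¬ p ∣ W ∧ (p : ℝ) < (Y : ℝ) ^ ε₁ := by
    intro p hp
    have h1 := hA hp
    unfold PS at h1
    rw [mem_filter, mem_Icc] at h1
    refine ⟨h1.2.1, h1.2.2, ?_⟩
    have h2 : (p : ℝ) ≤ z := by exact_mod_cast h1.1.2
    exact h2.trans_lt hz1
  have hPp : ∀ p ∈ Pg G Y ε₁ υ, p.Prime ∧ ¬ p ∣ W ∧ (Y : ℝ) ^ ε₁ ≤ p ∧ (p : ℝ) < (Y : ℝ) ^ υ := by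
    intro p hp
    obtain ⟨a1, a2, a3, a4, -⟩ := Pg_mem G Y ε₁ υ hY ⟨p, hp⟩
    have h1 : z < p := by exact_mod_cast hz1.trans_le a2
    refine ⟨a1, fun h => ?_, a2, (tt_lt Y p υ hY a1.pos).1 a4⟩
    have := Nat.le_of_dvd hW h
    omega
  have i0 : Fin (2 ^ k) := ⟨0, by positivity⟩
  set ξ := fun K => xv (fun s : Pg G Y ε₁ υ => (s : ℕ)) (val K) with hξd
  have hξ : ∀ K ∈ N, ∀ (s : Pg G Y ε₁ υ) j, ξ K s = some j ↔ (s : ℕ) ∣ val K j := by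
    intro K hK s j
    obtain ⟨b1, b2, b3, b4⟩ := hPp s s.2
    exact xv_iff _ _ _ (hU K hK s b1 b2 b3 b4) j
  have h1 : ∑ K ∈ (N.filter (fun K => Pool.Agent.R498.MT.Sub T (ξ K))).filter
      (fun K => ∀ p ∈ A, hit p K), ω K =
      ∑ K ∈ N, ω K * (if (∀ p ∈ A, hit p K) ∧
        (∀ p ∈ sp G Y ε₁ υ T, p ∣ val K (colT G Y ε₁ υ T i0 p)) then 1 else 0) := by
    rw [filter_filter, sum_filter]
    refine sum_congr rfl fun K hK => ?_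
    have key : Pool.Agent.R498.MT.Sub T (ξ K) ↔
        ∀ p ∈ sp G Y ε₁ υ T, p ∣ val K (colT G Y ε₁ υ T i0 p) := by
      constructor
      · intro h3 p hp
        obtain ⟨hpP, hpT⟩ := (sp_mem G Y ε₁ υ T p).1 hp
        unfold colT
        rw [dif_pos hpP]
        obtain ⟨j, hj⟩ := Option.ne_none_iff_exists'.1 hpT
        rw [hj, Option.getD_some]
        have h5 := (h3 ⟨p, hpP⟩).resolve_left hpT
        rw [hj] at h5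
        exact (hξ K hK ⟨p, hpP⟩ j).1 h5.symm
      · intro h s
        by_cases hs : T s = none
        · exact Or.inl hs
        · right
          obtain ⟨j, hj⟩ := Option.ne_none_iff_exists'.1 hs
          have h3 := h s ((sp_mem G Y ε₁ υ T s).2 ⟨s.2, hs⟩)
          unfold colT at h3
          rw [dif_pos s.2] at h3
          have h5 : T ⟨(s : ℕ), s.2⟩ = some j := hj
          rw [h5, Option.getD_some] at h3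
          rw [hj]
          exact ((hξ K hK s j).2 h3).symm
    by_cases g1 : Pool.Agent.R498.MT.Sub T (ξ K)
    · by_cases g2 : ∀ p ∈ A, hit p K
      · rw [if_pos ⟨g1, g2⟩, if_pos ⟨g2, key.1 g1⟩, mul_one]
      · rw [if_neg (fun h => g2 h.2), if_neg (fun h => g2 h.1), mul_zero]
    · rw [if_neg (fun h => g1 h.1), if_neg (fun h => g1 (key.2 h.2)), mul_zero]
  have h2 : X₀ * (∏ t, Pool.Agent.R498.MT.rr (fun _ : Fin (2 ^ k) => 1 / qs G Y ε₁ υ t) (T t)) *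
        ∏ p ∈ A, γ p = X₀ * (∏ p ∈ A, γ p) * ∏ p ∈ sp G Y ε₁ υ T, ((rt G p : ℝ) / p) := by
    rw [sp_prod]
    have h3 : ∀ t : Pg G Y ε₁ υ, Pool.Agent.R498.MT.rr (fun _ : Fin (2 ^ k) => 1 / qs G Y ε₁ υ t) (T t) =
        if T t = none then 1 else ((rt G (t : ℕ) : ℝ) / (t : ℕ)) := by
      intro t
      rcases h : T t with _ | j
      · simp [Pool.Agent.R498.MT.rr]
      · simp only [Pool.Agent.R498.MT.rr, reduceCtorEq, if_false]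
        unfold qs
        rw [one_div, inv_div]
    simp_rw [h3]
    ring
  rw [h1, h2]
  exact hH A (sp G Y ε₁ υ T) hAp (fun p hp => by
    obtain ⟨h, -⟩ := (sp_mem G Y ε₁ υ T p).1 hp
    exact hPp p h) hAT (colT G Y ε₁ υ T i0)

end

open Classical in
/-- the presieved weights -/
noncomputable def nuB (ω : ℕ → ℝ) (P : Finset ℕ) (hit : ℕ → ℕ → Prop) (K : ℕ) : ℝ :=
  if ∀ p ∈ P, ¬ hit p K then ω K else 0

open Classical in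
/-- the family with the small primes sifted out, for one pattern -/
theorem pre_TB (C : ℕ) (hCpos : 1 ≤ C) (hfl : ∀ (κ b J z0 : ℕ) (P : Finset ℕ) (g : ℕ → ℝ),
  C * (κ + 1) ≤ b → C * (κ + 1) ≤ z0 → (∀ p ∈ P, p.Prime ∧ z0 < p ∧ p ≤ 2 ^ 2 ^ J) →
  (∀ p ∈ P, 0 ≤ g p ∧ g p ≤ κ / ((p : ℝ) - 1)) →
  ∀ (Ω : Finset ℕ) (w : ℕ → ℝ) (hit : ℕ → ℕ → Prop) (A : ℝ) (err : Finset ℕ → ℝ),
    (∀ m ∈ Ω, 0 ≤ w m) → 0 ≤ A →
    (∀ T ⊆ P, ∏ p ∈ T, p ≤ (2 ^ 2 ^ J) ^ (C * b) →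
      |∑ m ∈ Ω.filter (fun m => ∀ p ∈ T, hit p m), w m - A * ∏ p ∈ T, g p| ≤ err T) →
    |∑ m ∈ Ω.filter (fun m => ∀ p ∈ P, ¬ hit p m), w m - A * ∏ p ∈ P, (1 - g p)| ≤
      (1 / 2 : ℝ) ^ b * (A * ∏ p ∈ P, (1 - g p)) +
        ((J : ℝ) + 2) *
          ∑ T ∈ P.powerset.filter (fun T : Finset ℕ => ∏ p ∈ T, p ≤ (2 ^ 2 ^ J) ^ (C * b)),
            err T)
    (G : ℤ → ℤ) (κ : ℕ)
    (Y : ℕ) (ε₁ υ : ℝ) (W z k b₀ J : ℕ) (hY : 2 ≤ Y) (N : Finset ℕ) (ω : ℕ → ℝ)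
    (val : ℕ → Fin (2 ^ k) → ℕ) (hit : ℕ → ℕ → Prop) (γ : ℕ → ℝ) (X₀ θ B : ℝ) (e : ℕ → ℝ)
    (he : ∀ d, 0 ≤ e d) (hω : ∀ K ∈ N, 0 ≤ ω K) (hX₀ : 0 ≤ X₀)
    (hγ : ∀ p ∈ PS W z, 0 ≤ γ p ∧ γ p ≤ κ / ((p : ℝ) - 1))
    (hz1 : (z : ℝ) < (Y : ℝ) ^ ε₁) (hWz : W ≤ z) (hW : 0 < W)
    (hb₀ : C * (κ + 1) ≤ b₀) (hWp : ∀ p : ℕ, p.Prime → p ≤ C * (κ + 1) → p ∣ W)
    (hzJ : z < 2 ^ 2 ^ J)
    (hBZ : (Y : ℝ) ^ B * ((2 : ℝ) ^ 2 ^ J) ^ (C * b₀) ≤ (Y : ℝ) ^ θ)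
    (hH : ∀ A S : Finset ℕ, (∀ p ∈ A, p.Prime ∧ ¬ p ∣ W ∧ (p : ℝ) < (Y : ℝ) ^ ε₁) →
      (∀ p ∈ S, p.Prime ∧ ¬ p ∣ W ∧ (Y : ℝ) ^ ε₁ ≤ p ∧ (p : ℝ) < (Y : ℝ) ^ υ) →
      (((∏ p ∈ A, p) * (∏ p ∈ S, p) : ℕ) : ℝ) ≤ (Y : ℝ) ^ θ → ∀ σ : ℕ → Fin (2 ^ k),
      |∑ K ∈ N, ω K * (if (∀ p ∈ A, hit p K) ∧ (∀ p ∈ S, p ∣ val K (σ p)) then 1 else 0) -
        X₀ * (∏ p ∈ A, γ p) * ∏ p ∈ S, ((rt G p : ℝ) / p)| ≤ e ((∏ p ∈ A, p) * (∏ p ∈ S, p)))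
    (hU : ∀ K ∈ N, ∀ p : ℕ, p.Prime → ¬ p ∣ W → (Y : ℝ) ^ ε₁ ≤ p → (p : ℝ) < (Y : ℝ) ^ υ → ∀ i j,
      p ∣ val K i → p ∣ val K j → i = j)
    (T : Pg G Y ε₁ υ → Option (Fin (2 ^ k))) (hT : lt (ls G Y ε₁ υ) T ≤ B) :
    |∑ K ∈ N, nuB ω (PS W z) hit K * (if Pool.Agent.R498.MT.Sub T
        (xv (fun s : Pg G Y ε₁ υ => (s : ℕ)) (val K)) then 1 else 0) -
      (X₀ * ∏ p ∈ PS W z, (1 - γ p)) *
        ∏ t, Pool.Agent.R498.MT.rr (fun _ : Fin (2 ^ k) => 1 / qs G Y ε₁ υ t) (T t)| ≤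
      (1 / 2 : ℝ) ^ b₀ * (X₀ * ∏ p ∈ PS W z, (1 - γ p)) *
        ∏ t, Pool.Agent.R498.MT.rr (fun _ : Fin (2 ^ k) => 1 / qs G Y ε₁ υ t) (T t) +
      ((J : ℝ) + 2) * ∑ A ∈ (PS W z).powerset.filter
          (fun A : Finset ℕ => ((∏ p ∈ A, p : ℕ) : ℝ) ≤ ((2 : ℝ) ^ 2 ^ J) ^ (C * b₀)),
        (2 ^ k) ^ A.card * e ((∏ p ∈ A, p) * (∏ p ∈ sp G Y ε₁ υ T, p)) := by
  have hYr : (2 : ℝ) ≤ Y := by exact_mod_cast hY
  have hY0 : (0 : ℝ) < Y := by linarith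
  have hY1 : (1 : ℝ) ≤ Y := by linarith
  set Rr : ℝ := ∏ t, Pool.Agent.R498.MT.rr (fun _ : Fin (2 ^ k) => 1 / qs G Y ε₁ υ t) (T t) with hRr
  have hRr0 : 0 ≤ Rr := by
    apply prod_nonneg
    intro s _
    rcases T s with _ | j
    · simp [Pool.Agent.R498.MT.rr]
    · simp only [Pool.Agent.R498.MT.rr]
      unfold qs
      positivity
  have hspT : ((∏ p ∈ sp G Y ε₁ υ T, p : ℕ) : ℝ) ≤ (Y : ℝ) ^ B := by
    rw [lt_sp G Y ε₁ υ hY T]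
    exact Real.rpow_le_rpow_of_exponent_le hY1 hT
  have h1 := hfl κ b₀ J (C * (κ + 1)) (PS W z) γ hb₀ le_rfl
    (by
      intro p hp
      unfold PS at hp
      rw [mem_filter, mem_Icc] at hp
      refine ⟨hp.2.1, ?_, by omega⟩
      by_contra hcon
      exact hp.2.2 (hWp p hp.2.1 (not_lt.1 hcon)))
    hγ
    (N.filter (fun K => Pool.Agent.R498.MT.Sub T (xv (fun s : Pg G Y ε₁ υ => (s : ℕ)) (val K)))) ω
    hit (X₀ * Rr)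
    (fun A => (2 ^ k) ^ A.card * e ((∏ p ∈ A, p) * (∏ p ∈ sp G Y ε₁ υ T, p)))
    (fun K hK => hω K (mem_filter.1 hK).1) (mul_nonneg hX₀ hRr0)
    (fun A hA hAZ => by
      have h0 := combB G Y ε₁ υ W z k hY N ω val hit γ X₀ θ e hz1 hWz hW hH hU A hA T (by
        push_cast
        refine le_trans ?_ hBZ
        rw [mul_comm]
        have h2 : ((∏ p ∈ A, p : ℕ) : ℝ) ≤ ((2 : ℝ) ^ 2 ^ J) ^ (C * b₀) := by exact_mod_cast hAZ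
        push_cast at h2 hspT
        exact mul_le_mul hspT h2 (prod_nonneg fun _ _ => Nat.cast_nonneg _) (by positivity))
      rw [← hRr] at h0
      have h2 : e ((∏ p ∈ A, p) * (∏ p ∈ sp G Y ε₁ υ T, p)) ≤
          (2 ^ k) ^ A.card * e ((∏ p ∈ A, p) * (∏ p ∈ sp G Y ε₁ υ T, p)) :=
        le_mul_of_one_le_left (he _) (one_le_pow₀ (one_le_pow₀ (by norm_num)))
      refine le_trans (le_of_eq ?_) (h0.trans h2)
      congr 3)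
  have h2 : ∑ K ∈ N, nuB ω (PS W z) hit K * (if Pool.Agent.R498.MT.Sub T
        (xv (fun s : Pg G Y ε₁ υ => (s : ℕ)) (val K)) then 1 else 0) =
      ∑ m ∈ (N.filter (fun K => Pool.Agent.R498.MT.Sub T
        (xv (fun s : Pg G Y ε₁ υ => (s : ℕ)) (val K)))).filter
        (fun K => ∀ p ∈ PS W z, ¬ hit p K), ω m := by
    rw [filter_filter, sum_filter]
    refine sum_congr rfl fun K _ => ?_
    unfold nuB
    by_cases g1 : Pool.Agent.R498.MT.Sub T (xv (fun s : Pg G Y ε₁ υ => (s : ℕ)) (val K))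
    · by_cases g2 : ∀ p ∈ PS W z, ¬ hit p K
      · rw [if_pos g1, if_pos g2, if_pos ⟨g1, g2⟩, mul_one]
      · rw [if_pos g1, if_neg g2, if_neg (fun h => g2 h.2), zero_mul]
    · rw [if_neg g1, mul_zero]
      symm
      exact if_neg (fun h => g1 h.1)
  rw [h2]
  have h3 : (X₀ * ∏ p ∈ PS W z, (1 - γ p)) * Rr =
      X₀ * Rr * ∏ p ∈ PS W z, (1 - γ p) := by ring
  have h4 : (1 / 2 : ℝ) ^ b₀ * (X₀ * ∏ p ∈ PS W z, (1 - γ p)) * Rr =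
      (1 / 2 : ℝ) ^ b₀ * (X₀ * Rr * ∏ p ∈ PS W z, (1 - γ p)) := by ring
  rw [h3, h4]
  have h5 : (PS W z).powerset.filter
          (fun A : Finset ℕ => ((∏ p ∈ A, p : ℕ) : ℝ) ≤ ((2 : ℝ) ^ 2 ^ J) ^ (C * b₀)) =
      (PS W z).powerset.filter (fun A : Finset ℕ => ∏ p ∈ A, p ≤ (2 ^ 2 ^ J) ^ (C * b₀)) := by
    refine filter_congr fun A _ => ?_
    exact_mod_cast Iff.rfl
  rw [h5]
  refine le_trans (le_of_eq ?_) h1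
  congr 3

end Pool.Agent.K3h21.CB
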