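import Pool.Agent.K3h21.CB.CoreB

set_option autoImplicit false
set_option linter.unusedSectionVars false
set_option linter.unusedVariables false

/-! The sieve of Maynard and Tao with Richert's weights in the slots, general densities at the small primes: the core. -/

namespace Pool.Agent.K3h21.CB

open Finset Filter
open Pool.Agent.Y677.RSZ (rt Sys)
open Pool.Agent.TH423.SH (PS)
open Pool.Agent.W23.DC
open Pool.Agent.Y882
open Pool.Agent.Y882.PX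
open Pool.Agent.Y882.KW
open Pool.Agent.R498.MT
open Pool.Agent.K3h21.AV

open Classical in
/-- **The core.** -/
theorem coreB (g g₁ D : ℕ) (m : ℕ) (τ ζ υ aw bw θ R : ℝ) (hζ : 0 < ζ) (h2 : 2 * ζ < τ) (h4 : τ ≤ 4 * ζ) (hτ : τ ≤ 1)
    (hζυ : ζ ≤ υ) (hυτ : υ < τ) (ha : 0 ≤ aw) (hb : 0 ≤ bw) (hab : bw * υ ≤ aw)
    (hJ0 : ∫ x in ζ..υ, (aw - bw * x) / (τ - x) / x < Real.log (τ / ζ - 1) / τ)
    (hR : 0 < R) (hRζ : R < ζ) (hRτ : 2 * R + τ < θ) :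
    ∃ k A₁ : ℕ, g₁ * 2 ^ k + 2 ≤ A₁ ∧
      ∃ ε₁ c η : ℝ, 0 < ε₁ ∧ ε₁ ≤ ζ ∧ 0 < c ∧ 0 < η ∧ ∀ W : ℕ, 0 < W →
      (∀ p : ℕ, p.Prime → p ≤ A₁ → p ∣ W) → ∃ Y₀ : ℕ, ∀ Y : ℕ, Y₀ ≤ Y →
      ∀ G : ℤ → ℤ, (∀ p : ℕ, p.Prime → rt G p ≤ g) →
        Mer (pr Y ε₁ υ) (tt Y) (fun p => (rt G p : ℝ) / p) ε₁ υ η →
      ∀ (N : Finset ℕ) (ω : ℕ → ℝ) (val : ℕ → Fin (2 ^ k) → ℕ) (hit : ℕ → ℕ → Prop) (γ : ℕ → ℝ)
        (X₀ : ℝ) (e : ℕ → ℝ),
        (∀ K ∈ N, 0 ≤ ω K) → 0 ≤ X₀ → (∀ d, 0 ≤ e d) →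
        (∀ p : ℕ, p.Prime → ¬ p ∣ W → (p : ℝ) < (Y : ℝ) ^ ε₁ →
          0 ≤ γ p ∧ γ p ≤ ((g₁ * 2 ^ k : ℕ) : ℝ) / ((p : ℝ) - 1)) →
        (∀ K ∈ N, ∀ i, val K i ≠ 0 ∧ (val K i : ℝ) ≤ (Y : ℝ) ^ (2 * D : ℝ)) →
        (∀ K ∈ N, ∀ p : ℕ, p.Prime → p ∣ W → ∀ i, ¬ p ∣ val K i) →
        (∀ K ∈ N, ∀ p : ℕ, p.Prime → ¬ p ∣ W → (p : ℝ) < (Y : ℝ) ^ ε₁ → ∀ i, p ∣ val K i → hit p K) →
        (∀ K ∈ N, ∀ p : ℕ, p.Prime → ¬ p ∣ W → (Y : ℝ) ^ ε₁ ≤ p → (p : ℝ) < (Y : ℝ) ^ υ → ∀ i j,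
          p ∣ val K i → p ∣ val K j → i = j) →
        (∀ K ∈ N, ∀ p : ℕ, p.Prime → rt G p = 0 → (Y : ℝ) ^ ε₁ ≤ p → (p : ℝ) < (Y : ℝ) ^ υ →
          ∀ i, ¬ p ∣ val K i) →
        (∀ A S : Finset ℕ, (∀ p ∈ A, p.Prime ∧ ¬ p ∣ W ∧ (p : ℝ) < (Y : ℝ) ^ ε₁) →
          (∀ p ∈ S, p.Prime ∧ ¬ p ∣ W ∧ (Y : ℝ) ^ ε₁ ≤ p ∧ (p : ℝ) < (Y : ℝ) ^ υ) →
          (((∏ p ∈ A, p) * (∏ p ∈ S, p) : ℕ) : ℝ) ≤ (Y : ℝ) ^ θ → ∀ σ : ℕ → Fin (2 ^ k),
          |∑ K ∈ N, ω K * (if (∀ p ∈ A, hit p K) ∧ (∀ p ∈ S, p ∣ val K (σ p)) then 1 else 0) -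
            X₀ * (∏ p ∈ A, γ p) * ∏ p ∈ S, ((rt G p : ℝ) / p)| ≤
              e ((∏ p ∈ A, p) * (∏ p ∈ S, p))) →
        ∑ d ∈ dd W Y θ, (2 ^ k) ^ d.primeFactors.card * e d ≤
          X₀ / Real.log Y ^ (4 * (g₁ * 2 ^ k) + 2) →
        ∀ z : ℕ, (z : ℝ) < (Y : ℝ) ^ ε₁ → (Y : ℝ) ^ ε₁ ≤ z + 1 →
        c * (X₀ * ∏ p ∈ PS W z, (1 - γ p)) ≤
          ∑ K ∈ (gdA Y ε₁ ζ υ aw bw m N val).filter (fun K => ∀ p : ℕ, p.Prime → ¬ p ∣ W →
            (p : ℝ) < (Y : ℝ) ^ ε₁ → ¬ hit p K), ω K ∧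
        0 < ∏ p ∈ PS W z, (1 - γ p) ∧
        1 ≤ Real.log Y ^ (4 * (g₁ * 2 ^ k) + 1) * ∏ p ∈ PS W z, (1 - γ p) := by
  have hυ1 : υ ≤ 1 := by linarith
  obtain ⟨f0, F0, hf0, hF0, HL⟩ := lsw4 τ ζ υ aw bw hζ h2 h4 hτ hζυ hυτ ha hb hab hJ0
  obtain ⟨C, hC1, hfl⟩ := Pool.Agent.TH423.SH.fLemC
  -- the number of the slots
  obtain ⟨k, hk⟩ : ∃ k : ℕ, 3 * ((m : ℝ) + 1) * 1474560 ≤ f0 * R * k := by
    obtain ⟨k, hk⟩ := exists_nat_ge (3 * ((m : ℝ) + 1) * 1474560 / (f0 * R))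
    refine ⟨k, ?_⟩
    rw [div_le_iff₀ (by positivity)] at hk
    linarith
  -- the presieve
  obtain ⟨ε₁, b₀, hε, hε1, hεe, hb₀, hbE, hεb⟩ := par (1 + aw) R k C (C * (g₁ * 2 ^ k + 1))
    (by linarith) hR (min ζ (τ - υ)) ((θ - (2 * R + τ)) / 2) (lt_min hζ (by linarith))
    (by linarith)
  have hεζ : ε₁ ≤ ζ := hε1.trans (min_le_left _ _)
  have hετ : ε₁ ≤ τ - υ := hε1.trans (min_le_right _ _)
  obtain ⟨η, hη, HL⟩ := HL ε₁ hε hεζ hετ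
  obtain ⟨cV, hcV, hVlow⟩ := V_low (2 * (g₁ * 2 ^ k))
  have hε11 : ε₁ ≤ 1 := hεe.trans (e0_le k (1 + aw) R).2
  have hAb := Ab_one k ε₁ hε hε11
  have hom := om_bd k (1 + aw) ε₁ (by linarith) hε hε11
  obtain ⟨c', hc'⟩ : ∃ c' : ℕ, ((2 ^ k : ℕ) : ℝ) * (2 * D / ε₁) + (2 * R + τ) / ε₁ ≤ c' := exists_nat_ge _
  have hc1' : ((2 ^ k : ℕ) : ℝ) * (2 * D / ε₁) ≤ c' := by
    have : 0 ≤ (2 * R + τ) / ε₁ := div_nonneg (by linarith) hε.le
    linarith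
  have hc2' : (2 * R + τ) / ε₁ ≤ c' := by
    have : 0 ≤ ((2 ^ k : ℕ) : ℝ) * (2 * D / ε₁) := by positivity
    linarith
  set A0 : ℕ := 4 * (g₁ * 2 ^ k) with hA0
  set CC : ℝ := (Ab k ε₁ * 2 ^ c') ^ 2 * ((1 + (1 + aw) * 2 ^ c') * 2 ^ k * (m + 1)) * 2 ^ c' with hCC
  have hCC0 : 0 ≤ CC := by
    have : 0 ≤ (1 + (1 + aw) * 2 ^ c') := by positivity
    positivity
  refine ⟨k, C * (g₁ * 2 ^ k + 1) + (g₁ * 2 ^ k + 2), by omega, ε₁,
    1 / (2 ^ k * (Ab k ε₁ * 2 ^ c') ^ 2), min η (1 / 40), hε, hεζ, by positivity,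
    lt_min hη (by norm_num), ?_⟩
  intro W hWpos hWp
  obtain ⟨Y2, hY2⟩ := Pool.Agent.K3h21.LN.dat_u g ε₁ υ R (om k (1 + aw) ε₁) hε (by linarith) hυ1 hom.1
  obtain ⟨Y3, hY3⟩ := exJ ε₁ hε
  have ev1 : ∀ᶠ Y : ℕ in atTop, (W + 2 : ℝ) ≤ (Y : ℝ) ^ ε₁ :=
    ((tendsto_rpow_atTop hε).comp tendsto_natCast_atTop_atTop).eventually_ge_atTop _
  have ev3 : ∀ᶠ Y : ℕ in atTop, 3 ^ A0 / cV + CC * 5 * 3 ^ A0 / cV + 1 ≤ Real.log (Y : ℝ) :=
    (Real.tendsto_log_atTop.comp tendsto_natCast_atTop_atTop).eventually_ge_atTop _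
  obtain ⟨Y4, hY4⟩ := eventually_atTop.1 (ev1.and (ev3.and (eventually_ge_atTop 3)))
  refine ⟨max Y2 (max Y3 Y4), ?_⟩
  intro Y hY G hG hMe N ω val hit γ X₀ e hω hX₀ he hγ hval hvW hhit hU hrt0 hH hsum z hz1 hz2
  have hM : Mer (pr Y ε₁ υ) (tt Y) (fun p => (rt G p : ℝ) / p) ε₁ υ η :=
    fun a b h1 h2 h3 => (hMe a b h1 h2 h3).trans (min_le_left _ _)
  have hd := hY2 Y ((le_max_left _ _).trans hY) G hG
    (fun a b h1 h2 h3 => (hMe a b h1 h2 h3).trans (min_le_right _ _))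
  obtain ⟨J, hJ1, hJ2⟩ := hY3 Y (((le_max_left _ _).trans (le_max_right _ _)).trans hY)
  obtain ⟨e1, e3, e4⟩ := hY4 Y (((le_max_right _ _).trans (le_max_right _ _)).trans hY)
  have hY3' : 3 ≤ Y := by omega
  have hY2' : 2 ≤ Y := by omega
  have hYr : (3 : ℝ) ≤ Y := by exact_mod_cast hY3'
  have hY0 : (0 : ℝ) < Y := by linarith
  have hY1 : (1 : ℝ) ≤ Y := by linarith
  have hcVp : 0 ≤ 3 ^ A0 / cV := by positivity
  have hCCp : 0 ≤ CC * 5 * 3 ^ A0 / cV := by positivity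
  have hlog1 : 1 ≤ Real.log Y := by linarith
  -- the sieving limit
  have hzJ : z < 2 ^ 2 ^ J := by
    have : (z : ℝ) < 2 ^ 2 ^ J := hz1.trans_le hJ1
    exact_mod_cast this
  have hWz : W ≤ z := by
    have h2 : (W : ℝ) ≤ z := by linarith
    exact_mod_cast h2
  have hευ : ε₁ ≤ υ := hεζ.trans hζυ
  set V : ℝ := ∏ p ∈ PS W z, (1 - γ p) with hVd
  have hPS : ∀ p ∈ PS W z, p.Prime ∧ p ≤ z ∧ ¬ p ∣ W := by
    intro p hp
    unfold PS at hp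
    rw [mem_filter, mem_Icc] at hp
    exact ⟨hp.2.1, hp.1.2, hp.2.2⟩
  have hPSY : ∀ p ∈ PS W z, (p : ℝ) < (Y : ℝ) ^ ε₁ := by
    intro p hp
    have h2 : (p : ℝ) ≤ z := by exact_mod_cast (hPS p hp).2.1
    exact h2.trans_lt hz1
  have hγ' : ∀ p ∈ PS W z, 0 ≤ γ p ∧ γ p ≤ ((g₁ * 2 ^ k : ℕ) : ℝ) / ((p : ℝ) - 1) := by
    intro p hp
    obtain ⟨h1, h2, h3⟩ := hPS p hp
    exact hγ p h1 h3 (hPSY p hp)
  have hV : cV * (1 / 2 ^ J) ^ A0 ≤ V := by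
    have h0 := hVlow J (PS W z) (fun p => γ p * p) ?_ ?_ ?_
    · have e1 : 2 * (2 * (g₁ * 2 ^ k)) = A0 := by rw [hA0]; ring
      rw [e1] at h0
      refine h0.trans (le_of_eq ?_)
      rw [hVd]
      refine prod_congr rfl fun p hp => ?_
      have h1 : (p : ℝ) ≠ 0 := by exact_mod_cast (hPS p hp).1.ne_zero
      rw [mul_div_assoc, div_self h1, mul_one]
    · intro p hp
      obtain ⟨h1, h2, h3⟩ := hPS p hp
      exact ⟨h1, by omega⟩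
    · intro p hp
      obtain ⟨h1, h2, h3⟩ := hPS p hp
      obtain ⟨h4, h5⟩ := hγ' p hp
      have h6 : (2 : ℝ) ≤ p := by exact_mod_cast h1.two_le
      rw [le_div_iff₀ (by linarith)] at h5
      push_cast at h5 ⊢
      have h7 : γ p * p ≤ 2 * (γ p * (p - 1)) := by nlinarith
      linarith
    · intro p hp
      obtain ⟨h1, h2, h3⟩ := hPS p hp
      obtain ⟨h4, h5⟩ := hγ' p hp
      have h6 : g₁ * 2 ^ k + 2 < p := by
        by_contra hcon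
        exact h3 (hWp p h1 (by omega))
      have h7 : ((g₁ * 2 ^ k : ℕ) : ℝ) + 3 ≤ p := by exact_mod_cast h6
      have h8 : (0 : ℝ) ≤ ((g₁ * 2 ^ k : ℕ) : ℝ) := Nat.cast_nonneg _
      rw [le_div_iff₀ (by linarith)] at h5
      have h9 : γ p * (p - 1) ≤ p - 3 := by linarith
      have h10 : γ p ≤ 1 := by
        by_contra hcon
        push Not at hcon
        nlinarith
      nlinarith
  have hV0 : 0 < V := lt_of_lt_of_le (by positivity) hV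
  obtain ⟨hV2, hV3⟩ := num1 Y J A0 ε₁ cV V hY3' hε11 hcV hJ2 hV (by linarith)
  have hJlog := J_log Y J ε₁ hY3' hε11 hJ2
  have hJJ : (J : ℝ) + 2 ≤ 5 * Real.log Y := by
    have h1 : (J : ℝ) ≤ 2 ^ J := by exact_mod_cast (Nat.lt_two_pow_self (n := J)).le
    linarith
  -- the level
  have hBZ : (Y : ℝ) ^ (2 * R + τ) * ((2 : ℝ) ^ 2 ^ J) ^ (C * b₀) ≤ (Y : ℝ) ^ θ := by
    have h1 : ((2 : ℝ) ^ 2 ^ J) ^ (C * b₀) ≤ (Y : ℝ) ^ ((θ - (2 * R + τ)) / 2) := by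
      calc ((2 : ℝ) ^ 2 ^ J) ^ (C * b₀) ≤ ((Y : ℝ) ^ (2 * ε₁)) ^ (C * b₀) :=
            pow_le_pow_left₀ (by positivity) hJ2 _
        _ = (Y : ℝ) ^ (2 * ε₁ * (C * b₀)) := by
            rw [← Real.rpow_natCast, ← Real.rpow_mul hY0.le]
            push_cast
            ring_nf
        _ ≤ _ := Real.rpow_le_rpow_of_exponent_le hY1 hεb
    calc (Y : ℝ) ^ (2 * R + τ) * ((2 : ℝ) ^ 2 ^ J) ^ (C * b₀) ≤
        (Y : ℝ) ^ (2 * R + τ) * (Y : ℝ) ^ ((θ - (2 * R + τ)) / 2) := by gcongr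
      _ = (Y : ℝ) ^ (2 * R + τ + (θ - (2 * R + τ)) / 2) := (Real.rpow_add hY0 _ _).symm
      _ ≤ _ := Real.rpow_le_rpow_of_exponent_le hY1 (by linarith)
  have hξ : ∀ K ∈ N, ∀ (s : Pg G Y ε₁ υ) j,
      xv (fun s : Pg G Y ε₁ υ => (s : ℕ)) (val K) s = some j ↔ (s : ℕ) ∣ val K j := by
    intro K hK s j
    obtain ⟨a1, a2, a3, a4, -⟩ := Pg_mem G Y ε₁ υ hY2' s
    refine xv_iff _ _ _ (hU K hK s a1 ?_ a2 ((tt_lt Y s υ hY2' a1.pos).1 a4)) j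
    intro h
    have h1 : z < (s : ℕ) := by exact_mod_cast hz1.trans_le a2
    have := Nat.le_of_dvd hWpos h
    omega
  have hX : 0 ≤ X₀ * V := by positivity
  obtain ⟨cU, cL0, hc1, hc2, hc3, hc4⟩ := HL Y hY2'
  obtain ⟨hc4, -⟩ := hc4 (fun p => (rt G p : ℝ) / p) (fun p _ => by positivity) hM
  set ee : (Pg G Y ε₁ υ → Option (Fin (2 ^ k))) → ℝ := fun T =>
    ((J : ℝ) + 2) * ∑ A ∈ (PS W z).powerset.filter
        (fun A : Finset ℕ => ((∏ p ∈ A, p : ℕ) : ℝ) ≤ ((2 : ℝ) ^ 2 ^ J) ^ (C * b₀)),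
      (2 ^ k) ^ A.card * e ((∏ p ∈ A, p) * (∏ p ∈ sp G Y ε₁ υ T, p)) with hee
  have hee0 : ∀ T, 0 ≤ ee T := by
    intro T
    rw [hee]
    exact mul_nonneg (by positivity) (sum_nonneg fun A _ => mul_nonneg (by positivity) (he _))
  have hasm := asmA k (1 + aw) R f0 τ (by linarith) hR hf0 m hτ hk ε₁ hε hεe υ
    (qs G Y ε₁ υ) (mus G Y ε₁ υ) (ls G Y ε₁ υ) hd
    (fun T => cL0 (T.map (Function.Embedding.subtype _))) (fun T => (hc1 _).2)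
    (fun T hT => lz_le G Y ε₁ υ hY2' T τ (hc2 _ (by
      intro p hp
      rw [Finset.mem_map] at hp
      obtain ⟨s, _, rfl⟩ := hp
      exact (mem_filter.1 s.2).1) (Or.inr hT)))
    (N := N) (ν := nuB ω (PS W z) hit)
    (ξ := fun K => xv (fun s : Pg G Y ε₁ υ => (s : ℕ)) (val K)) (X := X₀ * V) (V := ε₁ * f0)
    (E := (1 / 2 : ℝ) ^ b₀) hX
    (by
      refine hc4.trans (le_of_eq ?_)
      rw [VV_restrict (pr Y ε₁ υ) (Pg G Y ε₁ υ) (filter_subset _ _) cL0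
        (fun p => (rt G p : ℝ) / p) (fun p hp hp' => by
          have h0 : rt G p = 0 := by
            by_contra h1
            exact hp' (mem_filter.2 ⟨hp, h1⟩)
          rw [h0]
          simp)]
      refine sum_congr rfl fun T _ => ?_
      congr 1
      refine prod_congr rfl fun s _ => ?_
      unfold qs
      rw [one_div, inv_div])
    (fun s => by
      have h1 := hd.q2 s
      unfold mus
      apply one_div_le_one_div_of_le (by linarith)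
      linarith)
    (by rw [mul_comm]) (by positivity)
    (by
      have : 0 ≤ (1 / 2 : ℝ) ^ b₀ := by positivity
      linarith) ee hee0
    (fun T hT => by
      exact pre_TB C hC1 hfl G (g₁ * 2 ^ k) Y ε₁ υ W z k b₀ J hY2' N ω val hit γ X₀ θ (2 * R + τ) e he hω hX₀
        hγ' hz1 hWz hWpos hb₀ (fun p hp hpk => hWp p hp (by omega)) hzJ hBZ hH hU T hT)
    (by linarith) c' hc2'
    (by
      have h1 := sumTA G Y ε₁ υ W z k hY2' e he (2 * R + τ) (((2 : ℝ) ^ 2 ^ J) ^ (C * b₀)) θ hz1 hWz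
        hWpos hBZ
      have h2 : ∑ T : Pg G Y ε₁ υ → Option (Fin (2 ^ k)), (if lt (ls G Y ε₁ υ) T ≤ 2 * R + τ then
          2 ^ sz T * ee T else 0) ≤ 2 ^ c' * ((J : ℝ) + 2) *
            ∑ T : Pg G Y ε₁ υ → Option (Fin (2 ^ k)), (if lt (ls G Y ε₁ υ) T ≤ 2 * R + τ then
            ∑ A ∈ (PS W z).powerset.filter
              (fun A : Finset ℕ => ((∏ p ∈ A, p : ℕ) : ℝ) ≤ ((2 : ℝ) ^ 2 ^ J) ^ (C * b₀)),
              (2 ^ k) ^ A.card * e ((∏ p ∈ A, p) * (∏ p ∈ sp G Y ε₁ υ T, p)) else 0) := by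
        rw [mul_sum]
        refine sum_le_sum fun T _ => ?_
        split_ifs with hT
        · have h3 := sz_lt (ls G Y ε₁ υ) ε₁ hd.l1 T
          have h4 : (sz T : ℝ) ≤ c' := by
            refine le_trans ?_ hc2'
            rw [le_div_iff₀ hε]
            linarith
          have h5 : sz T ≤ c' := by exact_mod_cast h4
          have h6 : (2 : ℝ) ^ sz T ≤ 2 ^ c' := pow_le_pow_right₀ (by norm_num) h5
          rw [hee, mul_assoc]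
          exact mul_le_mul_of_nonneg_right h6 (hee0 T)
        · rw [mul_zero]
      have h3 := h1.trans hsum
      have hlp : 0 < Real.log Y ^ (A0 + 2) := by positivity
      have hJ0' : (0 : ℝ) ≤ (J : ℝ) + 2 := by positivity
      calc (Ab k ε₁ * 2 ^ c') ^ 2 * ((1 + (1 + aw) * 2 ^ c') * 2 ^ k * (m + 1)) *
          (∑ T : Pg G Y ε₁ υ → Option (Fin (2 ^ k)), if lt (ls G Y ε₁ υ) T ≤ 2 * R + τ then
            2 ^ sz T * ee T else 0) ≤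
          (Ab k ε₁ * 2 ^ c') ^ 2 * ((1 + (1 + aw) * 2 ^ c') * 2 ^ k * (m + 1)) *
            (2 ^ c' * ((J : ℝ) + 2) * (X₀ / Real.log Y ^ (A0 + 2))) := by
            apply mul_le_mul_of_nonneg_left _ (by positivity)
            refine h2.trans ?_
            exact mul_le_mul_of_nonneg_left h3 (by positivity)
        _ = CC * (((J : ℝ) + 2) * (X₀ / Real.log Y ^ (A0 + 2))) := by rw [hCC]; ring
        _ ≤ CC * ((5 * Real.log Y) * (X₀ / Real.log Y ^ (A0 + 2))) := by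
            apply mul_le_mul_of_nonneg_left _ hCC0
            exact mul_le_mul_of_nonneg_right hJJ (by positivity)
        _ = X₀ * (CC * 5 / Real.log Y ^ (A0 + 1)) := by
            rw [pow_succ _ (A0 + 1)]
            field_simp
        _ ≤ X₀ * V := by
            apply mul_le_mul_of_nonneg_left _ hX₀
            refine le_trans ?_ hV2
            have h7 : CC * 5 * 3 ^ A0 / cV ≤ Real.log Y := by linarith
            rw [div_le_div_iff₀ (by positivity) (by positivity), mul_pow, pow_succ]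
            rw [div_le_iff₀ hcV] at h7
            have h8 : 0 ≤ Real.log Y ^ A0 := by positivity
            have h9 := mul_le_mul_of_nonneg_right h7 h8
            nlinarith)
    (fun K hK => by
      unfold nuB
      split_ifs
      · exact hω K hK
      · exact le_rfl)
    (fun K i => WB Y ε₁ ζ υ aw bw (val K i))
    (fun K hK _ i => by
      have h1 := slot_v G Y ε₁ υ hY2' cL0 (val K i) (fun p hp h0 =>
        hrt0 K hK p (pr_mem Y p ε₁ υ hY2' hp).1 h0 (pr_mem Y p ε₁ υ hY2' hp).2.1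
          (pr_mem Y p ε₁ υ hY2' hp).2.2 i) i
        (xv (fun s : Pg G Y ε₁ υ => (s : ℕ)) (val K)) (fun s => hξ K hK s i)
      have h2 := (hc3 (val K i)).1
      refine le_trans (le_of_eq ?_) h2
      refine Eq.trans ?_ h1
      refine sum_congr rfl fun T _ => ?_
      congr)
    (fun K hK _ i hw s hs => by
      have h1 := (hξ K hK s i).1 hs
      have h2 := WB_ne Y ε₁ ζ υ aw bw _ hw (s : ℕ) ((mem_filter.1 s.2).1) h1
      show R < tt Y (s : ℕ)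
      linarith)
  have hB0 : 0 < (Ab k ε₁ * 2 ^ c') ^ 2 := by positivity
  have hup := sum_le_sum (s := N) fun K hK => by
    have h0 := pt_A Y ε₁ ζ υ aw bw ((Ab k ε₁ * 2 ^ c') ^ 2)
      (Lam none (qs G Y ε₁ υ) (mus G Y ε₁ υ) (yf (ls G Y ε₁ υ) R k)
        (xv (fun s : Pg G Y ε₁ υ => (s : ℕ)) (val K)) ^ 2) W z k m hY2' hb hab N ω val hz2 K hK
      (hω K hK) (hvW K hK) (sq_nonneg _)
      (Lam_fin' k R hR ε₁ hε υ hευ (qs G Y ε₁ υ) (mus G Y ε₁ υ)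
        (ls G Y ε₁ υ) _ hd none _ c' (few_v G D k c' Y ε₁ υ hε hY2' (val K) (hval K hK) hc1' _
          (fun s j => hξ K hK s j)))
    have h1 : nuB ω (PS W z) hit K *
      ((Lam none (qs G Y ε₁ υ) (mus G Y ε₁ υ) (yf (ls G Y ε₁ υ) R k)
        (xv (fun s : Pg G Y ε₁ υ => (s : ℕ)) (val K)) ^ 2) *
        (∑ i, WB Y ε₁ ζ υ aw bw (val K i) - m)) ≤
      if K ∈ (gdA Y ε₁ ζ υ aw bw m N val).filter (fun K => ∀ p : ℕ, p.Prime → ¬ p ∣ W →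
            (p : ℝ) < (Y : ℝ) ^ ε₁ → ¬ hit p K) then ω K * ((Ab k ε₁ * 2 ^ c') ^ 2 * 2 ^ k) else 0 := by
      have hB2 : 0 ≤ ω K * ((Ab k ε₁ * 2 ^ c') ^ 2 * 2 ^ k) := mul_nonneg (hω K hK) (by positivity)
      by_cases hh : ∀ p ∈ PS W z, ¬ hit p K
      · have e1 : nuB ω (PS W z) hit K = ω K := by unfold nuB; rw [if_pos hh]
        have e2 : nuA ω (PS W z) val K = ω K := by
          unfold nuA
          rw [if_pos]
          rintro p hp ⟨i, hi⟩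
          obtain ⟨h1, h2, h3⟩ := hPS p hp
          exact hh p hp (hhit K hK p h1 h3 (hPSY p hp) i hi)
        rw [e2] at h0
        rw [e1]
        refine h0.trans ?_
        split_ifs with h2 h3 h3
        · exact le_rfl
        · exfalso
          apply h3
          rw [mem_filter]
          refine ⟨h2, fun p hp hpW hpY => hh p ?_⟩
          unfold PS
          rw [mem_filter, mem_Icc]
          have : (p : ℝ) < z + 1 := hpY.trans_le hz2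
          have : p < z + 1 := by exact_mod_cast this
          exact ⟨⟨hp.one_lt.le, by omega⟩, hp, hpW⟩
        · exact hB2
        · exact le_rfl
      · have e1 : nuB ω (PS W z) hit K = 0 := by unfold nuB; rw [if_neg hh]
        rw [e1, zero_mul]
        split_ifs
        · exact hB2
        · exact le_rfl
    exact h1
  have hsum' : ∑ K ∈ N, (if K ∈ (gdA Y ε₁ ζ υ aw bw m N val).filter (fun K => ∀ p : ℕ, p.Prime → ¬ p ∣ W →
            (p : ℝ) < (Y : ℝ) ^ ε₁ → ¬ hit p K) then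
      ω K * ((Ab k ε₁ * 2 ^ c') ^ 2 * 2 ^ k) else 0) =
      (∑ K ∈ (gdA Y ε₁ ζ υ aw bw m N val).filter (fun K => ∀ p : ℕ, p.Prime → ¬ p ∣ W →
            (p : ℝ) < (Y : ℝ) ^ ε₁ → ¬ hit p K), ω K) * ((Ab k ε₁ * 2 ^ c') ^ 2 * 2 ^ k) := by
    rw [← sum_filter, ← sum_mul]
    congr 1
    apply sum_congr _ fun _ _ => rfl
    ext K
    rw [mem_filter]
    constructor
    · exact fun h => h.2
    · intro h
      refine ⟨?_, h⟩
      have h' := (mem_filter.1 h).1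
      unfold gdA at h'
      exact (mem_filter.1 h').1
  rw [hsum'] at hup
  have h1 := hasm.trans hup
  refine ⟨?_, hV0, hV3⟩
  rw [div_mul_eq_mul_div, div_le_iff₀ (by positivity), one_mul]
  calc X₀ * V ≤ (∑ K ∈ (gdA Y ε₁ ζ υ aw bw m N val).filter (fun K => ∀ p : ℕ, p.Prime → ¬ p ∣ W →
            (p : ℝ) < (Y : ℝ) ^ ε₁ → ¬ hit p K), ω K) *
        ((Ab k ε₁ * 2 ^ c') ^ 2 * 2 ^ k) := h1
    _ = _ := by ring

end Pool.Agent.K3h21.CB
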