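import Pool.Agent.K3h21.CB.FinB
import Pool.Agent.R503.W.Bvh
import Pool.Agent.H386R2.HL.E

set_option autoImplicit false
set_option linter.unusedSectionVars false
set_option linter.unusedVariables false

/-! Primes in given classes for many prime moduli at once. -/

namespace Pool.Agent.K3h21.CB

open Finset Filter
open Pool.Agent.H442R2.KF (Er piAP piN)

/-- the primes in `(X, 2 X]` -/
def PB (X : ℕ) : Finset ℕ := (Ioc X (2 * X)).filter Nat.Prime

open Classical in
/-- the number of the nonzero classes with the property `Q q` -/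
noncomputable def nz (Q : ℕ → ℕ → Prop) (q : ℕ) : ℕ := ((range q).filter (fun c => c ≠ 0 ∧ Q q c)).card

theorem pb_class (X q c : ℕ) : (((PB X).filter (fun p => p ≡ c [MOD q])).card : ℝ) =
    (PB X).card / (q.totient : ℝ) + Er (2 * X) q c - Er X q c := by
  have h1 : ((PB X).filter (fun p => p ≡ c [MOD q])).card + piAP X q c = piAP (2 * X) q c := by
    unfold piAP PB
    rw [filter_filter, ← card_union_of_disjoint]
    · congr 1
      ext p
      simp only [mem_union, mem_filter, mem_Ioc, mem_Icc]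
      constructor
      · rintro (⟨⟨h1, h2⟩, h3, h4⟩ | ⟨⟨h1, h2⟩, h3, h4⟩)
        · exact ⟨⟨by omega, h2⟩, h3, h4⟩
        · exact ⟨⟨h1, by omega⟩, h3, h4⟩
      · rintro ⟨⟨h1, h2⟩, h3, h4⟩
        by_cases h5 : p ≤ X
        · exact Or.inr ⟨⟨h1, h5⟩, h3, h4⟩
        · exact Or.inl ⟨⟨by omega, h2⟩, h3, h4⟩
    · rw [disjoint_left]
      intro p hp hp'
      rw [mem_filter, mem_Ioc] at hp
      rw [mem_filter, mem_Icc] at hp'
      omega
  have h2 : (PB X).card + piN X = piN (2 * X) := by
    unfold piN PB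
    rw [← card_union_of_disjoint]
    · congr 1
      ext p
      simp only [mem_union, mem_filter, mem_Ioc, mem_Icc]
      constructor
      · rintro (⟨⟨h1, h2⟩, h3⟩ | ⟨⟨h1, h2⟩, h3⟩)
        · exact ⟨⟨by omega, h2⟩, h3⟩
        · exact ⟨⟨h1, by omega⟩, h3⟩
      · rintro ⟨⟨h1, h2⟩, h3⟩
        by_cases h5 : p ≤ X
        · exact Or.inr ⟨⟨h1, h5⟩, h3⟩
        · exact Or.inl ⟨⟨by omega, h2⟩, h3⟩
    · rw [disjoint_left]
      intro p hp hp'
      rw [mem_filter, mem_Ioc] at hp
      rw [mem_filter, mem_Icc] at hp'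
      omega
  have h3 : (((PB X).filter (fun p => p ≡ c [MOD q])).card : ℝ) + piAP X q c = piAP (2 * X) q c := by
    exact_mod_cast h1
  have h4 : ((PB X).card : ℝ) + piN X = piN (2 * X) := by exact_mod_cast h2
  unfold Er
  rw [← h4]
  rw [add_div]
  linarith

open Classical in
/-- the number of the classes modulo `d W` -/
theorem cls_count (W a₀ d : ℕ) (hW : Squarefree W) (ha₀ : a₀.Coprime W) (hd : Squarefree d)
    (hdW : d.Coprime W) (Q : ℕ → ℕ → Prop)
    (hQ : ∀ q ∈ d.primeFactors, ∀ r s : ℕ, r ≡ s [MOD q] → (Q q r ↔ Q q s)) :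
    ((range (d * W)).filter (fun c => c.Coprime (d * W) ∧ c ≡ a₀ [MOD W] ∧
      ∀ q ∈ d.primeFactors, Q q c)).card = ∏ q ∈ d.primeFactors, nz Q q := by
  have hd0 : d ≠ 0 := hd.ne_zero
  have hW0 : W ≠ 0 := hW.ne_zero
  have hpf : (d * W).primeFactors = d.primeFactors ∪ W.primeFactors := Nat.primeFactors_mul hd0 hW0
  have hdisj : Disjoint d.primeFactors W.primeFactors := hdW.disjoint_primeFactors
  set Q' : ℕ → ℕ → Prop := fun q r => if q ∣ W then r ≡ a₀ [MOD q] else (r % q ≠ 0 ∧ Q q r) with hQ'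
  have hpp : ∀ q ∈ d.primeFactors ∪ W.primeFactors, q.Prime := by
    intro q hq
    rw [mem_union] at hq
    rcases hq with hq | hq
    · exact Nat.prime_of_mem_primeFactors hq
    · exact Nat.prime_of_mem_primeFactors hq
  have hnW : ∀ q ∈ d.primeFactors, ¬ q ∣ W := by
    intro q hq h
    exact (disjoint_left.1 hdisj) hq (Nat.mem_primeFactors.2 ⟨Nat.prime_of_mem_primeFactors hq, h, hW0⟩)
  have h1 := Pool.Agent.Y833.RSZ.card_prod (d.primeFactors ∪ W.primeFactors) hpp Q' (by
    intro q hq r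
    rw [hQ']
    dsimp only
    split_ifs with h
    · constructor
      · intro h2
        exact (Nat.mod_modEq r q).trans h2
      · intro h2
        exact (Nat.mod_modEq r q).symm.trans h2
    · rw [mem_union] at hq
      have hqd : q ∈ d.primeFactors := by
        rcases hq with hq | hq
        · exact hq
        · exact absurd (Nat.dvd_of_mem_primeFactors hq) h
      rw [Nat.mod_mod, hQ q hqd r (r % q) (Nat.mod_modEq r q).symm])
  have hprod : ∏ q ∈ d.primeFactors ∪ W.primeFactors, q = d * W := by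
    rw [prod_union hdisj, Nat.prod_primeFactors_of_squarefree hd, Nat.prod_primeFactors_of_squarefree hW]
  rw [hprod, prod_union hdisj] at h1
  have h2 : ∏ q ∈ d.primeFactors, ((range q).filter (Q' q)).card = ∏ q ∈ d.primeFactors, nz Q q := by
    refine prod_congr rfl fun q hq => ?_
    unfold nz
    congr 1
    ext r
    have hQq : r < q → (Q' q r ↔ (r ≠ 0 ∧ Q q r)) := by
      intro hr
      rw [hQ']
      dsimp only
      rw [if_neg (hnW q hq), Nat.mod_eq_of_lt hr]
    rw [mem_filter, mem_filter, mem_range]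
    exact and_congr_right hQq
  have h3 : ∏ q ∈ W.primeFactors, ((range q).filter (Q' q)).card = 1 := by
    apply prod_eq_one
    intro q hq
    have hqW := Nat.dvd_of_mem_primeFactors hq
    have hq0 := (Nat.prime_of_mem_primeFactors hq).pos
    rw [card_eq_one]
    refine ⟨a₀ % q, ?_⟩
    ext r
    have hQq : Q' q r ↔ r ≡ a₀ [MOD q] := by
      rw [hQ']
      dsimp only
      rw [if_pos hqW]
    rw [mem_filter, mem_range, mem_singleton, hQq]
    constructor
    · rintro ⟨h4, h5⟩
      unfold Nat.ModEq at h5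
      rwa [Nat.mod_eq_of_lt h4] at h5
    · rintro rfl
      exact ⟨Nat.mod_lt _ hq0, Nat.mod_modEq _ _⟩
  have h1' : ((range (d * W)).filter (fun n => ∀ p ∈ d.primeFactors ∪ W.primeFactors, Q' p n)).card =
      ∏ q ∈ d.primeFactors, nz Q q := by
    calc _ = (∏ q ∈ d.primeFactors, ((range q).filter (Q' q)).card) *
        ∏ q ∈ W.primeFactors, ((range q).filter (Q' q)).card := by
          convert h1
      _ = _ := by rw [h2, h3, mul_one]
  rw [← h1']
  congr 1
  ext r
  rw [mem_filter, mem_filter]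
  refine and_congr_right fun hr => ?_
  constructor
  · rintro ⟨g1, g2, g3⟩ q hq
    rw [hQ']
    dsimp only
    split_ifs with h4
    · exact g2.of_dvd h4
    · rw [mem_union] at hq
      have hqd : q ∈ d.primeFactors := by
        rcases hq with hq | hq
        · exact hq
        · exact absurd (Nat.dvd_of_mem_primeFactors hq) h4
      refine ⟨fun h5 => ?_, g3 q hqd⟩
      have h6 : q ∣ r := Nat.dvd_of_mod_eq_zero h5
      have h7 : q ∣ d * W := (Nat.dvd_of_mem_primeFactors hqd).mul_right W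
      have h8 := Nat.dvd_gcd h6 h7
      rw [g1] at h8
      exact (Nat.prime_of_mem_primeFactors hqd).one_lt.ne' (Nat.dvd_one.1 h8)
  · intro h4
    have g2 : r ≡ a₀ [MOD W] := by
      have h5 : ∀ q ∈ W.primeFactors, q ∣ ((r : ℤ) - a₀).natAbs := by
        intro q hq
        have h6 := h4 q (mem_union_right _ hq)
        simp only [hQ', if_pos (Nat.dvd_of_mem_primeFactors hq)] at h6
        have h7 := (Nat.modEq_iff_dvd.1 h6.symm)
        exact Int.natCast_dvd.1 h7
      have h6 : W ∣ ((r : ℤ) - a₀).natAbs := by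
        rw [← Nat.prod_primeFactors_of_squarefree hW]
        exact Finset.prod_primes_dvd _ (fun q hq => (Nat.prime_of_mem_primeFactors hq).prime) h5
      exact (Nat.modEq_iff_dvd.2 (Int.natCast_dvd.2 h6)).symm
    refine ⟨?_, g2, fun q hq => ?_⟩
    · rw [Nat.coprime_mul_iff_right]
      constructor
      · apply Nat.Coprime.symm
        rw [Nat.coprime_iff_gcd_eq_one]
        by_contra h5
        obtain ⟨q, hq, hqd⟩ := Nat.exists_prime_and_dvd h5
        have hqd1 := hqd.trans (Nat.gcd_dvd_left _ _)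
        have hqd2 := hqd.trans (Nat.gcd_dvd_right _ _)
        have hqm : q ∈ d.primeFactors := Nat.mem_primeFactors.2 ⟨hq, hqd1, hd0⟩
        have h6 := h4 q (mem_union_left _ hqm)
        simp only [hQ', if_neg (hnW q hqm)] at h6
        exact h6.1 (Nat.mod_eq_zero_of_dvd hqd2)
      · unfold Nat.Coprime at ha₀ ⊢
        rw [g2.gcd_eq]
        exact ha₀
    · have h6 := h4 q (mem_union_left _ hq)
      simp only [hQ', if_neg (hnW q hq)] at h6
      exact h6.2

open Classical in
/-- **primes in given classes** -/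
theorem prm_count (X W a₀ d : ℕ) (hW : Squarefree W) (ha₀ : a₀.Coprime W) (hd : Squarefree d)
    (hdW : d.Coprime W) (hdX : d * W ≤ X) (Q : ℕ → ℕ → Prop)
    (hQ : ∀ q ∈ d.primeFactors, ∀ r s : ℕ, r ≡ s [MOD q] → (Q q r ↔ Q q s)) (M : ℝ)
    (hM : ∀ c, c.Coprime (d * W) → |Er (2 * X) (d * W) c| + |Er X (d * W) c| ≤ M) :
    |((((PB X).filter (fun p => p ≡ a₀ [MOD W] ∧ ∀ q ∈ d.primeFactors, Q q p)).card : ℕ) : ℝ) -
      (PB X).card / (W.totient : ℝ) * ∏ q ∈ d.primeFactors, ((nz Q q : ℝ) / ((q : ℝ) - 1))| ≤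
      (∏ q ∈ d.primeFactors, (nz Q q : ℝ)) * M := by
  have hd0 : d ≠ 0 := hd.ne_zero
  have hW0 : W ≠ 0 := hW.ne_zero
  have hdW0 : 0 < d * W := Nat.mul_pos (Nat.pos_of_ne_zero hd0) (Nat.pos_of_ne_zero hW0)
  set T := (range (d * W)).filter (fun c => c.Coprime (d * W) ∧ c ≡ a₀ [MOD W] ∧
      ∀ q ∈ d.primeFactors, Q q c) with hT
  have hTc := cls_count W a₀ d hW ha₀ hd hdW Q hQ
  rw [← hT] at hTc
  have h1 : ((PB X).filter (fun p => p ≡ a₀ [MOD W] ∧ ∀ q ∈ d.primeFactors, Q q p)).card =
      ∑ c ∈ T, ((PB X).filter (fun p => p ≡ c [MOD (d * W)])).card := by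
    rw [card_eq_sum_card_fiberwise (f := fun p => p % (d * W)) (t := T)]
    · refine sum_congr rfl fun c hc => ?_
      rw [hT, mem_filter, mem_range] at hc
      obtain ⟨c1, c2, c3, c4⟩ := hc
      rw [filter_filter]
      congr 1
      ext p
      rw [mem_filter, mem_filter]
      refine and_congr_right fun hp => ?_
      constructor
      · rintro ⟨h2, h3⟩
        unfold Nat.ModEq
        rw [h3, Nat.mod_eq_of_lt c1]
      · intro h2
        refine ⟨⟨?_, fun q hq => ?_⟩, ?_⟩
        · exact (h2.of_dvd (Nat.dvd_mul_left _ _)).trans c3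
        · exact (hQ q hq p c (h2.of_dvd ((Nat.dvd_of_mem_primeFactors hq).mul_right W))).2 (c4 q hq)
        · unfold Nat.ModEq at h2
          rwa [Nat.mod_eq_of_lt c1] at h2
    · intro p hp
      have hp' := mem_filter.1 (mem_coe.1 hp)
      obtain ⟨hpP, h2, h3⟩ := hp'
      unfold PB at hpP
      rw [mem_filter, mem_Ioc] at hpP
      obtain ⟨⟨h4, h5⟩, h6⟩ := hpP
      rw [hT]
      apply mem_coe.2
      rw [mem_filter, mem_range]
      refine ⟨Nat.mod_lt _ hdW0, ?_, ?_, fun q hq => ?_⟩
      · have h7 : p.Coprime (d * W) := (Nat.Prime.coprime_iff_not_dvd h6).2 (fun h7 => by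
          have := Nat.le_of_dvd hdW0 h7
          omega)
        unfold Nat.Coprime at h7 ⊢
        rw [← h7]
        exact (Nat.mod_modEq p (d * W)).gcd_eq
      · exact ((Nat.mod_modEq p (d * W)).of_dvd (Nat.dvd_mul_left _ _)).trans h2
      · exact (hQ q hq _ p ((Nat.mod_modEq p (d * W)).of_dvd
          ((Nat.dvd_of_mem_primeFactors hq).mul_right W))).2 (h3 q hq)
  have htot : ((d * W).totient : ℝ) = (∏ q ∈ d.primeFactors, ((q : ℝ) - 1)) * W.totient := by
    rw [Nat.totient_mul hdW]
    push_cast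
    congr 1
    have h2 := Nat.totient_mul_prod_primeFactors d
    have h3 : d.totient = ∏ q ∈ d.primeFactors, (q - 1) := by
      rw [Nat.prod_primeFactors_of_squarefree hd] at h2
      have : 0 < d := Nat.pos_of_ne_zero hd0
      exact Nat.eq_of_mul_eq_mul_right this (by rw [h2, mul_comm])
    rw [h3]
    push_cast
    refine prod_congr rfl fun q hq => ?_
    have := (Nat.prime_of_mem_primeFactors hq).one_lt
    rw [Nat.cast_sub this.le]
    simp
  have h2 : ((((PB X).filter (fun p => p ≡ a₀ [MOD W] ∧ ∀ q ∈ d.primeFactors, Q q p)).card : ℕ) : ℝ) =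
      T.card * ((PB X).card / ((d * W).totient : ℝ)) +
        ∑ c ∈ T, (Er (2 * X) (d * W) c - Er X (d * W) c) := by
    rw [h1]
    push_cast
    rw [sum_congr rfl (fun c _ => pb_class X (d * W) c)]
    rw [← nsmul_eq_mul, ← sum_const, ← sum_add_distrib]
    refine sum_congr rfl fun c _ => ?_
    ring
  have h3 : (T.card : ℝ) = ∏ q ∈ d.primeFactors, (nz Q q : ℝ) := by
    rw [hTc]
    push_cast
    rfl
  have h4 : T.card * ((PB X).card / ((d * W).totient : ℝ)) =
      (PB X).card / (W.totient : ℝ) * ∏ q ∈ d.primeFactors, ((nz Q q : ℝ) / ((q : ℝ) - 1)) := by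
    rw [htot, h3, prod_div_distrib]
    have h5 : ∏ q ∈ d.primeFactors, ((q : ℝ) - 1) ≠ 0 := by
      apply prod_ne_zero_iff.2
      intro q hq
      have : (1 : ℝ) < q := by exact_mod_cast (Nat.prime_of_mem_primeFactors hq).one_lt
      linarith
    have h6 : (W.totient : ℝ) ≠ 0 := by
      have := Nat.totient_pos.2 (Nat.pos_of_ne_zero hW0)
      positivity
    field_simp
  rw [h2, h4, add_sub_cancel_left, ← h3]
  refine (abs_sum_le_sum_abs _ _).trans ?_
  rw [← nsmul_eq_mul, ← sum_const]
  refine sum_le_sum fun c hc => ?_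
  rw [hT, mem_filter] at hc
  exact (abs_sub _ _).trans (hM c hc.2.1)

end Pool.Agent.K3h21.CB
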