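import Pool.Agent.K3h21.CB.Prm1
import Pool.Agent.H398R2.BV1

set_option autoImplicit false
set_option linter.unusedSectionVars false
set_option linter.unusedVariables false

/-! Tools: removing primes from a number, maximal errors, periodic counting. -/

namespace Pool.Agent.K3h21.CB

open Finset Filter
open Pool.Agent.H442R2.KF (Er piAP piN)

/-- the number `n` without the primes of `Z` -/
noncomputable def strip (Z : Finset ℕ) (n : ℕ) : ℕ := ∏ q ∈ n.primeFactors \ Z, q ^ n.factorization q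

theorem strip_ne (Z : Finset ℕ) (n : ℕ) : strip Z n ≠ 0 := by
  unfold strip
  apply prod_ne_zero_iff.2
  intro q hq
  rw [Finset.mem_sdiff] at hq
  exact pow_ne_zero _ (Nat.prime_of_mem_primeFactors hq.1).ne_zero

theorem full_prod (n : ℕ) (hn : n ≠ 0) : ∏ q ∈ n.primeFactors, q ^ n.factorization q = n := by
  have := Nat.prod_factorization_pow_eq_self hn
  rwa [Finsupp.prod, Nat.support_factorization] at this

theorem strip_dvd (Z : Finset ℕ) (n : ℕ) (hn : n ≠ 0) : strip Z n ∣ n := by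
  conv_rhs => rw [← full_prod n hn]
  unfold strip
  exact prod_dvd_prod_of_subset _ _ _ sdiff_subset

theorem strip_le (Z : Finset ℕ) (n : ℕ) (hn : n ≠ 0) : strip Z n ≤ n :=
  Nat.le_of_dvd (Nat.pos_of_ne_zero hn) (strip_dvd Z n hn)

theorem dvd_strip (Z : Finset ℕ) (n q : ℕ) (hn : n ≠ 0) (hq : q.Prime) (hqZ : q ∉ Z) :
    q ∣ strip Z n ↔ q ∣ n := by
  constructor
  · intro h
    exact h.trans (strip_dvd Z n hn)
  · intro h
    have h1 : q ∈ n.primeFactors \ Z := Finset.mem_sdiff.2 ⟨Nat.mem_primeFactors.2 ⟨hq, h, hn⟩, hqZ⟩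
    have h2 : q ∣ q ^ n.factorization q := dvd_pow_self q (hq.factorization_pos_of_dvd hn h).ne'
    exact h2.trans (dvd_prod_of_mem (fun q => q ^ n.factorization q) h1)

theorem not_dvd_strip (Z : Finset ℕ) (n q : ℕ) (hq : q.Prime) (hqZ : q ∈ Z) : ¬ q ∣ strip Z n := by
  intro h
  unfold strip at h
  obtain ⟨p, hp, hqp⟩ := (Prime.dvd_finsetProd_iff hq.prime _).1 h
  rw [Finset.mem_sdiff] at hp
  have h1 : q ∣ p := hq.dvd_of_dvd_pow hqp
  have h2 := (Nat.prime_dvd_prime_iff_eq hq (Nat.prime_of_mem_primeFactors hp.1)).1 h1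
  exact hp.2 (h2 ▸ hqZ)

theorem strip_eq (Z : Finset ℕ) (n : ℕ) (hn : n ≠ 0) (h : ∀ q ∈ Z, q.Prime → ¬ q ∣ n) : strip Z n = n := by
  have h1 : n.primeFactors \ Z = n.primeFactors := by
    apply sdiff_eq_self_of_disjoint
    rw [disjoint_left]
    intro q hq hqZ
    exact h q hqZ (Nat.prime_of_mem_primeFactors hq) (Nat.dvd_of_mem_primeFactors hq)
  unfold strip
  rw [h1, full_prod n hn]

theorem piAP_mod (x n c : ℕ) : piAP x n (c % n) = piAP x n c := by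
  unfold piAP
  congr 1
  ext p
  rw [mem_filter, mem_filter]
  refine and_congr_right fun _ => and_congr_right fun _ => ?_
  constructor
  · intro h
    exact h.trans (Nat.mod_modEq c n)
  · intro h
    exact h.trans (Nat.mod_modEq c n).symm

theorem exMax (x n : ℕ) (hn : 1 ≤ n) : ∃ b : ℕ, b.Coprime n ∧ ∀ c : ℕ, c.Coprime n → |Er x n c| ≤ |Er x n b| := by
  have hco : ∀ c : ℕ, c.Coprime n → c % n ∈ (range n).filter (fun c => c.Coprime n) := by
    intro c hc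
    rw [mem_filter, mem_range]
    refine ⟨Nat.mod_lt _ hn, ?_⟩
    unfold Nat.Coprime at hc ⊢
    rw [← hc]
    exact (Nat.mod_modEq c n).gcd_eq
  obtain ⟨b, hb, hmax⟩ := exists_max_image ((range n).filter (fun c => c.Coprime n)) (fun c => |Er x n c|)
    ⟨1 % n, hco 1 (Nat.coprime_one_left n)⟩
  refine ⟨b, (mem_filter.1 hb).2, fun c hc => ?_⟩
  have h := hmax _ (hco c hc)
  have h2 : Er x n (c % n) = Er x n c := by
    unfold Er
    rw [piAP_mod]
  rwa [h2] at h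

/-- **maximal errors are small in the mean** -/
theorem exMx (κ : ℝ) (hκ : κ < 1 / 2) (B U : ℕ) (hB : 1 ≤ B) : ∃ C : ℝ, 0 < C ∧ ∀ Y : ℕ, 3 ≤ Y →
    ∃ M : ℕ → ℝ, (∀ n, 0 ≤ M n) ∧ (∀ n, 1 ≤ n → ∀ c : ℕ, c.Coprime n → |Er (2 * Y) n c| + |Er Y n c| ≤ M n) ∧
      ∑ n ∈ Icc 1 ⌊((2 * Y : ℕ) : ℝ) ^ κ⌋₊, (B : ℝ) ^ n.primeFactors.card * M n ≤ C * (Y / Real.log Y ^ U) := by
  obtain ⟨C, hC, hbv⟩ := Pool.Agent.R503.W.bv_weights κ hκ B U hB
  refine ⟨4 * C, by positivity, fun Y hY => ?_⟩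
  have h1 : ∀ n : ℕ, ∃ b : ℕ, 1 ≤ n → (b.Coprime n ∧ ∀ c : ℕ, c.Coprime n → |Er (2 * Y) n c| ≤ |Er (2 * Y) n b|) := by
    intro n
    by_cases hn : 1 ≤ n
    · obtain ⟨b, hb⟩ := exMax (2 * Y) n hn
      exact ⟨b, fun _ => hb⟩
    · exact ⟨0, fun h => absurd h hn⟩
  have h2 : ∀ n : ℕ, ∃ b : ℕ, 1 ≤ n → (b.Coprime n ∧ ∀ c : ℕ, c.Coprime n → |Er Y n c| ≤ |Er Y n b|) := by
    intro n
    by_cases hn : 1 ≤ n
    · obtain ⟨b, hb⟩ := exMax Y n hn
      exact ⟨b, fun _ => hb⟩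
    · exact ⟨0, fun h => absurd h hn⟩
  choose b₁ hb₁ using h1
  choose b₂ hb₂ using h2
  refine ⟨fun n => |Er (2 * Y) n (b₁ n)| + |Er Y n (b₂ n)|, fun n => by positivity, fun n hn c hc => ?_, ?_⟩
  · exact add_le_add ((hb₁ n hn).2 c hc) ((hb₂ n hn).2 c hc)
  · have h3 := hbv (2 * Y) (by omega) b₁ (fun d hd => (hb₁ d hd).1) (fun _ => 2 * Y) (fun _ => le_rfl)
    have h4 := hbv (2 * Y) (by omega) b₂ (fun d hd => (hb₂ d hd).1) (fun _ => Y) (fun _ => by omega)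
    have h5 : ∑ n ∈ Icc 1 ⌊((2 * Y : ℕ) : ℝ) ^ κ⌋₊, (B : ℝ) ^ n.primeFactors.card *
        (|Er (2 * Y) n (b₁ n)| + |Er Y n (b₂ n)|) ≤ C * (((2 * Y : ℕ) : ℝ) / Real.log ((2 * Y : ℕ) : ℝ) ^ U) +
          C * (((2 * Y : ℕ) : ℝ) / Real.log ((2 * Y : ℕ) : ℝ) ^ U) := by
      rw [sum_congr rfl (fun n _ => mul_add _ _ _), sum_add_distrib]
      exact add_le_add h3 h4
    refine h5.trans ?_
    have hY3 : (3 : ℝ) ≤ Y := by exact_mod_cast hY
    have hl : 0 < Real.log (Y : ℝ) := Real.log_pos (by linarith)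
    have h6 : ((2 * Y : ℕ) : ℝ) / Real.log ((2 * Y : ℕ) : ℝ) ^ U ≤ 2 * (Y / Real.log Y ^ U) := by
      push_cast
      rw [← mul_div_assoc]
      apply div_le_div_of_nonneg_left (by positivity) (by positivity)
      apply pow_le_pow_left₀ hl.le
      exact Real.log_le_log (by linarith) (by linarith)
    have := mul_le_mul_of_nonneg_left h6 hC.le
    linarith

theorem cls_le (Y q c : ℕ) (hq : 0 < q) :
    ((((Ioc Y (2 * Y)).filter (fun n => n ≡ c [MOD q])).card : ℕ) : ℝ) ≤ Y / q + 1 := by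
  have h1 := Nat.Ioc_filter_modEq_card Y (2 * Y) hq c
  have h2 : ((((Ioc Y (2 * Y)).filter (fun n => n ≡ c [MOD q])).card : ℕ) : ℤ) ≤
      max (⌊(((2 * Y : ℕ) : ℚ) - c) / q⌋ - ⌊((Y : ℚ) - c) / q⌋) 0 := h1.le
  have hq0 : (0 : ℝ) < q := by exact_mod_cast hq
  have hqQ : (0 : ℚ) < q := by exact_mod_cast hq
  have h3 : ((max (⌊(((2 * Y : ℕ) : ℚ) - c) / q⌋ - ⌊((Y : ℚ) - c) / q⌋) 0 : ℤ) : ℚ) ≤ (Y : ℚ) / q + 1 := by
    push_cast
    apply max_le
    · have a1 := Int.floor_le ((((2 * Y : ℕ) : ℚ) - c) / q)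
      have a2 := Int.lt_floor_add_one (((Y : ℚ) - c) / q)
      have a3 : (((2 * Y : ℕ) : ℚ) - c) / q = ((Y : ℚ) - c) / q + Y / q := by
        push_cast
        field_simp
        ring
      push_cast at a1 a3
      linarith
    · positivity
  have h4 : (((((Ioc Y (2 * Y)).filter (fun n => n ≡ c [MOD q])).card : ℕ) : ℤ) : ℚ) ≤ (Y : ℚ) / q + 1 :=
    le_trans (by exact_mod_cast h2) h3
  have h5 : ((((((Ioc Y (2 * Y)).filter (fun n => n ≡ c [MOD q])).card : ℕ) : ℤ) : ℚ) : ℝ) ≤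
      (((Y : ℚ) / q + 1 : ℚ) : ℝ) := by exact_mod_cast h4
  push_cast at h5
  exact_mod_cast h5

open Classical in
/-- periodic counting -/
theorem per_cnt (Y q g : ℕ) (hq : 0 < q) (Q : ℕ → Prop) (hQ : ∀ n : ℕ, Q n → Q (n % q))
    (hg : ((range q).filter Q).card ≤ g) :
    ((((Ioc Y (2 * Y)).filter Q).card : ℕ) : ℝ) ≤ g * (Y / q + 1) := by
  have hsub : (Ioc Y (2 * Y)).filter Q ⊆ ((range q).filter Q).biUnion (fun c =>
      (Ioc Y (2 * Y)).filter (fun n => n ≡ c [MOD q])) := by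
    intro n hn
    rw [mem_filter] at hn
    rw [mem_biUnion]
    refine ⟨n % q, mem_filter.2 ⟨mem_range.2 (Nat.mod_lt _ hq), hQ n hn.2⟩, mem_filter.2 ⟨hn.1, ?_⟩⟩
    exact (Nat.mod_modEq n q).symm
  calc ((((Ioc Y (2 * Y)).filter Q).card : ℕ) : ℝ) ≤
      ((∑ c ∈ (range q).filter Q, ((Ioc Y (2 * Y)).filter (fun n => n ≡ c [MOD q])).card : ℕ) : ℝ) := by
        exact_mod_cast (card_le_card hsub).trans card_biUnion_le
    _ = ∑ c ∈ (range q).filter Q, ((((Ioc Y (2 * Y)).filter (fun n => n ≡ c [MOD q])).card : ℕ) : ℝ) := by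
        push_cast
        rfl
    _ ≤ ∑ c ∈ (range q).filter Q, ((Y : ℝ) / q + 1) := sum_le_sum fun c _ => cls_le Y q c hq
    _ = ((range q).filter Q).card * ((Y : ℝ) / q + 1) := by rw [sum_const, nsmul_eq_mul]
    _ ≤ g * (Y / q + 1) := by
        apply mul_le_mul_of_nonneg_right _ (by positivity)
        exact_mod_cast hg

theorem one_sub_prod (S : Finset ℕ) (x : ℕ → ℝ) (h0 : ∀ q ∈ S, 0 ≤ x q) (h1 : ∀ q ∈ S, x q ≤ 1) :
    0 ≤ 1 - ∏ q ∈ S, (1 - x q) ∧ 1 - ∏ q ∈ S, (1 - x q) ≤ ∑ q ∈ S, x q := by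
  induction S using Finset.induction_on with
  | empty => simp
  | insert a s ha ih =>
    rw [prod_insert ha, sum_insert ha]
    obtain ⟨i1, i2⟩ := ih (fun q hq => h0 q (mem_insert_of_mem hq)) (fun q hq => h1 q (mem_insert_of_mem hq))
    have a0 := h0 a (mem_insert_self a s)
    have a1 := h1 a (mem_insert_self a s)
    have hp : 0 ≤ ∏ q ∈ s, (1 - x q) := prod_nonneg fun q hq => by
      have := h1 q (mem_insert_of_mem hq)
      linarith
    constructor <;> nlinarith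

end Pool.Agent.K3h21.CB
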