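import Pool.Agent.K3h21.CB.Prm2

set_option autoImplicit false
set_option linter.unusedSectionVars false
set_option linter.unusedVariables false

/-! Primes as a base sequence: the number of the primes with prescribed divisibilities. -/

namespace Pool.Agent.K3h21.CB

open Finset Filter
open Pool.Agent.Y677.RSZ (rt per_mod)
open Pool.Agent.H442R2.KF (Er piAP piN)
open Pool.Agent.K3h21.AV (dd)

open Classical in
/-- the base -/
noncomputable def NB (W a₀ Y : ℕ) : Finset ℕ := (PB Y).filter (fun p => p ≡ a₀ [MOD W])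

/-- some value is divisible by `q` -/
def ht {n : ℕ} (L : Fin n → ℤ → ℤ) (q K : ℕ) : Prop := ∃ i, (q : ℤ) ∣ L i K

/-- the values without the primes of `Z` -/
noncomputable def vz {n : ℕ} (L : Fin n → ℤ → ℤ) (Z : Finset ℕ) (K : ℕ) (i : Fin n) : ℕ :=
  strip Z (L i K).natAbs

/-- the density of a hit -/
noncomputable def gm {n : ℕ} (L : Fin n → ℤ → ℤ) (q : ℕ) : ℝ := (nz (ht L) q : ℝ) / ((q : ℝ) - 1)

/-- the bound of the remainder -/
noncomputable def er (M : ℕ → ℝ) (W g₂ : ℕ) (X₀ ι : ℝ) (Z : Finset ℕ) (d : ℕ) : ℝ :=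
  (g₂ : ℝ) ^ d.primeFactors.card * M (d * W) +
    X₀ * ((g₂ : ℝ) ^ d.primeFactors.card / d * (d.primeFactors.card * ι + (d.primeFactors ∩ Z).card))

theorem er_nonneg (M : ℕ → ℝ) (W g₂ : ℕ) (X₀ ι : ℝ) (Z : Finset ℕ) (hM : ∀ n, 0 ≤ M n) (hX : 0 ≤ X₀)
    (hι : 0 ≤ ι) (d : ℕ) : 0 ≤ er M W g₂ X₀ ι Z d := by
  unfold er
  have := hM (d * W)
  positivity

open Classical in
theorem nz_ht {n : ℕ} (L : Fin n → ℤ → ℤ) (g₁ q : ℕ)
    (hroot : ∀ i, ((range q).filter (fun c : ℕ => (q : ℤ) ∣ L i c)).card ≤ g₁) : nz (ht L) q ≤ g₁ * n := by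
  unfold nz ht
  have hsub : (range q).filter (fun c : ℕ => c ≠ 0 ∧ ∃ i, (q : ℤ) ∣ L i c) ⊆
      univ.biUnion (fun i => (range q).filter (fun c : ℕ => (q : ℤ) ∣ L i c)) := by
    intro c hc
    rw [mem_filter] at hc
    obtain ⟨h1, h2, i, h3⟩ := hc
    rw [mem_biUnion]
    exact ⟨i, mem_univ i, mem_filter.2 ⟨h1, h3⟩⟩
  have h2 : ((range q).filter (fun c : ℕ => c ≠ 0 ∧ ∃ i, (q : ℤ) ∣ L i c)).card ≤ g₁ * n := by
    calc _ ≤ _ := card_le_card hsub
      _ ≤ ∑ i : Fin n, ((range q).filter (fun c : ℕ => (q : ℤ) ∣ L i c)).card := card_biUnion_le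
      _ ≤ ∑ _i : Fin n, g₁ := sum_le_sum fun i _ => hroot i
      _ = g₁ * n := by rw [sum_const, card_univ, Fintype.card_fin, smul_eq_mul, mul_comm]
  convert h2

open Classical in
/-- **the number of the primes with prescribed divisibilities** -/
theorem cntE {n : ℕ} (L : Fin n → ℤ → ℤ) (Z : Finset ℕ) (W a₀ Y g g₁ : ℕ) (w w' : ℝ) (hw : 0 < w)
    (hw' : w' ≤ Y) (hW : Squarefree W) (ha₀ : a₀.Coprime W)
    (hper : ∀ i, ∀ q : ℕ, q.Prime → ∀ x : ℤ, (q : ℤ) ∣ L i (x + q) - L i x)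
    (hne : ∀ K ∈ PB Y, ∀ i, L i K ≠ 0)
    (hroot : ∀ q : ℕ, q.Prime → ¬ q ∣ W → ∀ i, ((range q).filter (fun c : ℕ => (q : ℤ) ∣ L i c)).card ≤ g₁)
    (G : ℤ → ℤ) (hG : ∀ p : ℕ, p.Prime → rt G p ≤ g)
    (hbig : ∀ q : ℕ, q.Prime → w ≤ q → (q : ℝ) < w' → q ∉ Z → ∀ i,
      ((range q).filter (fun c : ℕ => c ≠ 0 ∧ (q : ℤ) ∣ L i c)).card = rt G q)
    (M : ℕ → ℝ) (hM0 : ∀ n, 0 ≤ M n)
    (hM : ∀ n, 1 ≤ n → ∀ c : ℕ, c.Coprime n → |Er (2 * Y) n c| + |Er Y n c| ≤ M n)
    (A S : Finset ℕ) (hA : ∀ p ∈ A, p.Prime ∧ ¬ p ∣ W ∧ (p : ℝ) < w)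
    (hS : ∀ p ∈ S, p.Prime ∧ ¬ p ∣ W ∧ w ≤ p ∧ (p : ℝ) < w')
    (hd : (∏ p ∈ A, p) * (∏ p ∈ S, p) * W ≤ Y) (σ : ℕ → Fin n) :
    |∑ K ∈ NB W a₀ Y, (1 : ℝ) * (if (∀ p ∈ A, ht L p K) ∧ (∀ p ∈ S, p ∣ vz L Z K (σ p)) then 1 else 0) -
      (PB Y).card / (W.totient : ℝ) * (∏ p ∈ A, gm L p) * ∏ p ∈ S, ((rt G p : ℝ) / p)| ≤
      er M W (2 * (g₁ * n + g)) ((PB Y).card / (W.totient : ℝ)) (1 / w) Z ((∏ p ∈ A, p) * (∏ p ∈ S, p)) := by
  set g₂ : ℕ := 2 * (g₁ * n + g) with hg₂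
  set X₀ : ℝ := (PB Y).card / (W.totient : ℝ) with hX₀
  have hX0 : 0 ≤ X₀ := by positivity
  have hdis : Disjoint A S := by
    rw [disjoint_left]
    intro p h1 h2
    have := (hA p h1).2.2
    have := (hS p h2).2.2.1
    linarith
  have hpp : ∀ p ∈ A ∪ S, p.Prime := by
    intro p hp
    rcases mem_union.1 hp with h | h
    · exact (hA p h).1
    · exact (hS p h).1
  have hpW : ∀ p ∈ A ∪ S, ¬ p ∣ W := by
    intro p hp
    rcases mem_union.1 hp with h | h
    · exact (hA p h).2.1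
    · exact (hS p h).2.1
  set d : ℕ := (∏ p ∈ A, p) * (∏ p ∈ S, p) with hdd
  have hdU : d = ∏ p ∈ A ∪ S, p := (prod_union hdis).symm
  have hdpf : d.primeFactors = A ∪ S := by rw [hdU]; exact Nat.primeFactors_prod hpp
  have hdsq : Squarefree d := by rw [hdU]; exact Pool.Agent.Y882.PX.sqf_prod _ hpp
  have hdW : d.Coprime W := by
    rw [hdU]
    exact Nat.Coprime.prod_left fun p hp => (Nat.Prime.coprime_iff_not_dvd (hpp p hp)).2 (hpW p hp)
  have hd1 : 1 ≤ d := Nat.pos_of_ne_zero hdsq.ne_zero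
  have hdr : (0 : ℝ) < d := by exact_mod_cast hd1
  have hdprod : (d : ℝ) = ∏ p ∈ A ∪ S, (p : ℝ) := by rw [hdU]; push_cast; rfl
  have hp2 : ∀ p ∈ A ∪ S, (2 : ℝ) ≤ p := fun p hp => by exact_mod_cast (hpp p hp).two_le
  have hgm : ∀ p ∈ A, 0 ≤ gm L p ∧ gm L p ≤ (g₂ : ℝ) / p := by
    intro p hp
    have h2 := hp2 p (mem_union_left _ hp)
    have h3 := nz_ht L g₁ p (hroot p (hA p hp).1 (hA p hp).2.1)
    have h4 : (nz (ht L) p : ℝ) ≤ g₁ * n := by exact_mod_cast h3
    unfold gm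
    refine ⟨div_nonneg (Nat.cast_nonneg _) (by linarith), ?_⟩
    rw [div_le_div_iff₀ (by linarith) (by linarith), hg₂]
    push_cast
    have h5 : (0 : ℝ) ≤ g₁ * n := by positivity
    have h6 : (0 : ℝ) ≤ g := by positivity
    have h7 : (nz (ht L) p : ℝ) * p ≤ g₁ * n * p := mul_le_mul_of_nonneg_right h4 (by linarith)
    nlinarith [mul_nonneg h5 (show (0:ℝ) ≤ p - 2 by linarith), mul_nonneg h6 (show (0:ℝ) ≤ p - 1 by linarith)]
  have hrtb : ∀ p ∈ S, (rt G p : ℝ) ≤ g := fun p hp => by exact_mod_cast hG p (hS p hp).1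
  have hrt : ∀ p ∈ S, 0 ≤ (rt G p : ℝ) / p ∧ (rt G p : ℝ) / p ≤ (g₂ : ℝ) / p := by
    intro p hp
    have h2 := hp2 p (mem_union_right _ hp)
    refine ⟨by positivity, ?_⟩
    apply div_le_div_of_nonneg_right _ (by linarith)
    refine (hrtb p hp).trans ?_
    rw [hg₂]
    push_cast
    have h5 : (0 : ℝ) ≤ g₁ * n := by positivity
    have h6 : (0 : ℝ) ≤ g := by positivity
    linarith
  have hgd : (∏ p ∈ A, ((g₂ : ℝ) / p)) * ∏ p ∈ S, ((g₂ : ℝ) / p) = (g₂ : ℝ) ^ d.primeFactors.card / d := by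
    rw [← prod_union hdis, prod_div_distrib, prod_const, hdpf, hdprod]
  have hAb : (∏ p ∈ A, gm L p) ≤ ∏ p ∈ A, ((g₂ : ℝ) / p) := Finset.prod_le_prod (fun p hp => (hgm p hp).1) fun p hp => (hgm p hp).2
  have hA0 : 0 ≤ ∏ p ∈ A, gm L p := prod_nonneg fun p hp => (hgm p hp).1
  by_cases hZ : ∃ q ∈ S, q ∈ Z
  · obtain ⟨q, hqS, hqZ⟩ := hZ
    have h0 : ∑ K ∈ NB W a₀ Y, (1 : ℝ) * (if (∀ p ∈ A, ht L p K) ∧ (∀ p ∈ S, p ∣ vz L Z K (σ p)) then 1 else 0) = 0 := by
      apply sum_eq_zero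
      intro K hK
      rw [if_neg, mul_zero]
      rintro ⟨-, h2⟩
      exact not_dvd_strip Z _ q (hS q hqS).1 hqZ (h2 q hqS)
    rw [h0, zero_sub, abs_neg, abs_of_nonneg (mul_nonneg (mul_nonneg hX0 hA0) (prod_nonneg fun p hp => (hrt p hp).1))]
    have h1 : X₀ * (∏ p ∈ A, gm L p) * ∏ p ∈ S, ((rt G p : ℝ) / p) ≤ X₀ * ((g₂ : ℝ) ^ d.primeFactors.card / d * 1) := by
      rw [mul_one, ← hgd, mul_assoc]
      apply mul_le_mul_of_nonneg_left _ hX0
      exact mul_le_mul hAb (Finset.prod_le_prod (fun p hp => (hrt p hp).1) fun p hp => (hrt p hp).2)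
        (prod_nonneg fun p hp => (hrt p hp).1) (prod_nonneg fun p hp => by positivity)
    refine h1.trans ?_
    unfold er
    have h2 : (1 : ℝ) ≤ ((d.primeFactors ∩ Z).card : ℝ) := by
      have : 0 < (d.primeFactors ∩ Z).card := card_pos.2 ⟨q, mem_inter.2 ⟨by
        rw [hdpf]; exact mem_union_right _ hqS, hqZ⟩⟩
      exact_mod_cast this
    have h3 : 0 ≤ (g₂ : ℝ) ^ d.primeFactors.card * M (d * W) := mul_nonneg (by positivity) (hM0 _)
    have h4 : (1 : ℝ) ≤ d.primeFactors.card * (1 / w) + (d.primeFactors ∩ Z).card := by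
      have : (0 : ℝ) ≤ d.primeFactors.card * (1 / w) := by positivity
      linarith
    have h5 : X₀ * ((g₂ : ℝ) ^ d.primeFactors.card / d * 1) ≤
        X₀ * ((g₂ : ℝ) ^ d.primeFactors.card / d * (d.primeFactors.card * (1 / w) + (d.primeFactors ∩ Z).card)) := by
      apply mul_le_mul_of_nonneg_left _ hX0
      exact mul_le_mul_of_nonneg_left h4 (by positivity)
    linarith
  · push Not at hZ
    set Q : ℕ → ℕ → Prop := fun q c => if q ∈ A then ht L q c else (q : ℤ) ∣ L (σ q) c with hQ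
    have hQA : ∀ q ∈ A, Q q = ht L q := by
      intro q hq
      funext c
      simp only [hQ, if_pos hq]
    have hQS : ∀ q ∈ S, Q q = fun c : ℕ => (q : ℤ) ∣ L (σ q) c := by
      intro q hq
      have : q ∉ A := fun h => (disjoint_left.1 hdis) h hq
      funext c
      simp only [hQ, if_neg this]
    have hQper : ∀ q ∈ d.primeFactors, ∀ r s : ℕ, r ≡ s [MOD q] → (Q q r ↔ Q q s) := by
      intro q hq r s hrs
      have hqp := Nat.prime_of_mem_primeFactors hq
      rw [hdpf] at hq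
      rcases mem_union.1 hq with h | h
      · rw [hQA q h]
        unfold ht
        constructor
        · rintro ⟨i, hi⟩
          exact ⟨i, (per_mod (fun p hp n => hper i p hp n) hqp r s hrs).1 hi⟩
        · rintro ⟨i, hi⟩
          exact ⟨i, (per_mod (fun p hp n => hper i p hp n) hqp r s hrs).2 hi⟩
      · rw [hQS q h]
        exact per_mod (fun p hp n => hper (σ q) p hp n) hqp r s hrs
    have hcnt := prm_count Y W a₀ d hW ha₀ hdsq hdW hd Q hQper (M (d * W)) (fun c hc => hM _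
      (Nat.mul_pos hd1 (Nat.pos_of_ne_zero hW.ne_zero)) c hc)
    have hsum : ∑ K ∈ NB W a₀ Y, (1 : ℝ) * (if (∀ p ∈ A, ht L p K) ∧ (∀ p ∈ S, p ∣ vz L Z K (σ p)) then 1 else 0) =
        ((((PB Y).filter (fun p => p ≡ a₀ [MOD W] ∧ ∀ q ∈ d.primeFactors, Q q p)).card : ℕ) : ℝ) := by
      have e1 : (PB Y).filter (fun p => p ≡ a₀ [MOD W] ∧ ∀ q ∈ d.primeFactors, Q q p) =
          (NB W a₀ Y).filter (fun K => (∀ p ∈ A, ht L p K) ∧ (∀ p ∈ S, p ∣ vz L Z K (σ p))) := by
        unfold NB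
        rw [filter_filter]
        ext K
        rw [mem_filter, mem_filter]
        refine and_congr_right fun hK => and_congr_right fun hK2 => ?_
        have hKS : ∀ q ∈ S, (q ∣ vz L Z K (σ q) ↔ (q : ℤ) ∣ L (σ q) K) := by
          intro q hq
          unfold vz
          rw [dvd_strip Z _ q (Int.natAbs_ne_zero.2 (hne K hK _)) (hS q hq).1 (hZ q hq)]
          exact Int.natCast_dvd.symm
        rw [hdpf]
        constructor
        · intro h
          refine ⟨fun q hq => ?_, fun q hq => ?_⟩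
          · have := h q (mem_union_left _ hq)
            rwa [hQA q hq] at this
          · have := h q (mem_union_right _ hq)
            rw [hQS q hq] at this
            exact (hKS q hq).2 this
        · rintro ⟨h1, h2⟩ q hq
          rcases mem_union.1 hq with h | h
          · rw [hQA q h]
            exact h1 q h
          · rw [hQS q h]
            exact (hKS q h).1 (h2 q h)
      rw [e1, card_filter]
      push_cast
      refine sum_congr rfl fun K _ => ?_
      rw [one_mul]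
    rw [hsum]
    have hnzA : ∀ q ∈ A, ((nz Q q : ℝ) / ((q : ℝ) - 1)) = gm L q := by
      intro q hq
      unfold gm nz
      rw [hQA q hq]
    have hnzS : ∀ q ∈ S, nz Q q = rt G q := by
      intro q hq
      unfold nz
      rw [hQS q hq]
      obtain ⟨h1, h2, h3, h4⟩ := hS q hq
      convert hbig q h1 h3 h4 (hZ q hq) (σ q)
    have hnz : ∏ q ∈ d.primeFactors, ((nz Q q : ℝ) / ((q : ℝ) - 1)) =
        (∏ p ∈ A, gm L p) * ∏ p ∈ S, ((rt G p : ℝ) / ((p : ℝ) - 1)) := by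
      rw [hdpf, prod_union hdis]
      congr 1
      · exact prod_congr rfl hnzA
      · exact prod_congr rfl fun q hq => by rw [hnzS q hq]
    have hnzb : ∏ q ∈ d.primeFactors, (nz Q q : ℝ) ≤ (g₂ : ℝ) ^ d.primeFactors.card := by
      rw [hdpf, ← prod_const]
      apply Finset.prod_le_prod (fun q _ => Nat.cast_nonneg _)
      intro q hq
      rcases mem_union.1 hq with h | h
      · have h3 : nz Q q ≤ g₁ * n := by
          have := nz_ht L g₁ q (hroot q (hA q h).1 (hA q h).2.1)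
          unfold nz at this ⊢
          rwa [hQA q h]
        have h4 : (nz Q q : ℝ) ≤ g₁ * n := by exact_mod_cast h3
        rw [hg₂]
        push_cast
        have h5 : (0 : ℝ) ≤ g₁ * n := by positivity
        have h6 : (0 : ℝ) ≤ g := by positivity
        linarith
      · rw [hnzS q h]
        refine (hrtb q h).trans ?_
        rw [hg₂]
        push_cast
        have h5 : (0 : ℝ) ≤ g₁ * n := by positivity
        have h6 : (0 : ℝ) ≤ g := by positivity
        linarith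
    rw [hnz] at hcnt
    set cc : ℝ := ((((PB Y).filter (fun p => p ≡ a₀ [MOD W] ∧ ∀ q ∈ d.primeFactors, Q q p)).card : ℕ) : ℝ) with hcc
    -- the two products
    set P₁ : ℝ := ∏ p ∈ S, ((rt G p : ℝ) / ((p : ℝ) - 1)) with hP₁
    set P₂ : ℝ := ∏ p ∈ S, ((rt G p : ℝ) / p) with hP₂
    have hP12 : P₂ = P₁ * ∏ p ∈ S, (1 - 1 / (p : ℝ)) := by
      rw [hP₁, hP₂, ← prod_mul_distrib]
      refine prod_congr rfl fun p hp => ?_
      have h2 := hp2 p (mem_union_right _ hp)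
      have h3 : (p : ℝ) - 1 ≠ 0 := by linarith
      have h4 : (p : ℝ) ≠ 0 := by linarith
      field_simp
    have hP₁b : 0 ≤ P₁ ∧ P₁ ≤ ∏ p ∈ S, ((g₂ : ℝ) / p) := by
      constructor
      · exact prod_nonneg fun p hp => div_nonneg (Nat.cast_nonneg _) (by
          have h2 := hp2 p (mem_union_right _ hp)
          linarith)
      · apply Finset.prod_le_prod
        · intro p hp
          exact div_nonneg (Nat.cast_nonneg _) (by
            have h2 := hp2 p (mem_union_right _ hp)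
            linarith)
        · intro p hp
          have h2 := hp2 p (mem_union_right _ hp)
          rw [div_le_div_iff₀ (by linarith) (by linarith), hg₂]
          push_cast
          have h5 : (0 : ℝ) ≤ g₁ * n := by positivity
          have h6 : (0 : ℝ) ≤ g := by positivity
          have h7 : (rt G p : ℝ) * p ≤ g * p := mul_le_mul_of_nonneg_right (hrtb p hp) (by linarith)
          nlinarith [mul_nonneg h6 (show (0:ℝ) ≤ p - 2 by linarith), mul_nonneg h5 (show (0:ℝ) ≤ p - 1 by linarith)]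
    obtain ⟨u1, u2⟩ := one_sub_prod S (fun p => 1 / (p : ℝ)) (fun p hp => by positivity) (fun p hp => by
      have h2 := hp2 p (mem_union_right _ hp)
      rw [div_le_one (by linarith)]
      linarith)
    have u3 : ∑ p ∈ S, 1 / (p : ℝ) ≤ d.primeFactors.card * (1 / w) := by
      calc ∑ p ∈ S, 1 / (p : ℝ) ≤ ∑ _p ∈ S, 1 / w := sum_le_sum fun p hp =>
            one_div_le_one_div_of_le hw (hS p hp).2.2.1
        _ = S.card * (1 / w) := by rw [sum_const, nsmul_eq_mul]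
        _ ≤ _ := by
            apply mul_le_mul_of_nonneg_right _ (by positivity)
            have : S.card ≤ d.primeFactors.card := by
              rw [hdpf]
              exact card_le_card subset_union_right
            exact_mod_cast this
    have hdiff : |X₀ * (∏ p ∈ A, gm L p) * P₁ - X₀ * (∏ p ∈ A, gm L p) * P₂| ≤
        X₀ * ((g₂ : ℝ) ^ d.primeFactors.card / d * (d.primeFactors.card * (1 / w) + (d.primeFactors ∩ Z).card)) := by
      have e1 : X₀ * (∏ p ∈ A, gm L p) * P₁ - X₀ * (∏ p ∈ A, gm L p) * P₂ =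
          X₀ * ((∏ p ∈ A, gm L p) * P₁ * (1 - ∏ p ∈ S, (1 - 1 / (p : ℝ)))) := by
        rw [hP12]
        ring
      rw [e1, abs_of_nonneg (mul_nonneg hX0 (mul_nonneg (mul_nonneg hA0 hP₁b.1) u1))]
      apply mul_le_mul_of_nonneg_left _ hX0
      rw [← hgd]
      apply mul_le_mul _ _ u1 (by positivity)
      · exact mul_le_mul hAb hP₁b.2 hP₁b.1 (prod_nonneg fun p hp => by positivity)
      · have : (0 : ℝ) ≤ ((d.primeFactors ∩ Z).card : ℝ) := Nat.cast_nonneg _
        linarith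
    have hmain : |cc - X₀ * (∏ p ∈ A, gm L p) * P₁| ≤ (g₂ : ℝ) ^ d.primeFactors.card * M (d * W) := by
      rw [mul_assoc X₀]
      have hcnt' : |cc - X₀ * ((∏ p ∈ A, gm L p) * P₁)| ≤
          (∏ q ∈ d.primeFactors, (nz Q q : ℝ)) * M (d * W) := by
        convert hcnt
      refine hcnt'.trans ?_
      exact mul_le_mul_of_nonneg_right hnzb (hM0 _)
    unfold er
    calc |cc - X₀ * (∏ p ∈ A, gm L p) * P₂| =
        |(cc - X₀ * (∏ p ∈ A, gm L p) * P₁) + (X₀ * (∏ p ∈ A, gm L p) * P₁ - X₀ * (∏ p ∈ A, gm L p) * P₂)| := by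
          congr 1
          ring
      _ ≤ _ := abs_add_le _ _
      _ ≤ _ := add_le_add hmain hdiff

end Pool.Agent.K3h21.CB
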