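import Pool.Agent.K3h21.CB.Prm3

set_option autoImplicit false
set_option linter.unusedSectionVars false
set_option linter.unusedVariables false

/-! Primes as a base sequence: the sum of the remainders. -/

namespace Pool.Agent.K3h21.CB

open Finset Filter
open Pool.Agent.Y677.RSZ (rt per_mod)
open Pool.Agent.H442R2.KF (Er piAP piN)
open Pool.Agent.K3h21.AV (dd)

open Classical in
theorem sumZ (D B j : ℕ) (Z : Finset ℕ) (ι : ℝ) (hι : 0 ≤ ι) (hZ : ∀ q ∈ Z, 1 / (q : ℝ) ≤ ι)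
    (T : Finset ℕ) (hT : ∀ d ∈ T, 1 ≤ d ∧ d ≤ D ∧ Squarefree d)
    (hj : ∑ e ∈ Icc 1 D, (B : ℝ) ^ e.primeFactors.card / e ≤ (1 + Real.log D) ^ (2 ^ j)) :
    ∑ d ∈ T, (B : ℝ) ^ d.primeFactors.card / d * ((d.primeFactors ∩ Z).card : ℝ) ≤
      Z.card * (B * ι * (1 + Real.log D) ^ (2 ^ j)) := by
  have h1 : ∀ d ∈ T, (B : ℝ) ^ d.primeFactors.card / d * ((d.primeFactors ∩ Z).card : ℝ) =
      ∑ q ∈ Z, if q ∈ d.primeFactors then (B : ℝ) ^ d.primeFactors.card / d else 0 := by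
    intro d hd
    rw [← sum_filter, sum_const, nsmul_eq_mul, mul_comm]
    congr 3
    ext q
    rw [mem_inter, mem_filter, and_comm]
  rw [sum_congr rfl h1, sum_comm]
  have h2 : ∀ q ∈ Z, ∑ d ∈ T, (if q ∈ d.primeFactors then (B : ℝ) ^ d.primeFactors.card / d else 0) ≤
      B * ι * (1 + Real.log D) ^ (2 ^ j) := by
    intro q hq
    rw [← sum_filter]
    have h3 : ∑ d ∈ T.filter (fun d => q ∈ d.primeFactors), (B : ℝ) ^ d.primeFactors.card / d ≤
        ∑ e ∈ Icc 1 D, (B : ℝ) * ι * ((B : ℝ) ^ e.primeFactors.card / e) := by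
      have h4 : ∀ d ∈ T.filter (fun d => q ∈ d.primeFactors), d / q ∈ Icc 1 D ∧
          (B : ℝ) ^ d.primeFactors.card / d ≤ (B : ℝ) * ι * ((B : ℝ) ^ (d / q).primeFactors.card / ((d / q : ℕ) : ℝ)) := by
        intro d hd
        rw [mem_filter] at hd
        obtain ⟨hdT, hqd⟩ := hd
        obtain ⟨d1, d2, d3⟩ := hT d hdT
        have hqp := Nat.prime_of_mem_primeFactors hqd
        obtain ⟨e, rfl⟩ := Nat.dvd_of_mem_primeFactors hqd
        have he0 : e ≠ 0 := by
          rintro rfl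
          simp at d1
        rw [Nat.mul_div_cancel_left e hqp.pos]
        have hco : q.Coprime e := Nat.coprime_of_squarefree_mul d3
        have hpf : (q * e).primeFactors.card = e.primeFactors.card + 1 := by
          rw [Nat.primeFactors_mul hqp.ne_zero he0, hqp.primeFactors, card_union_of_disjoint, card_singleton]
          · ring
          · rw [disjoint_singleton_left]
            intro h
            exact (Nat.Prime.coprime_iff_not_dvd hqp).1 hco (Nat.dvd_of_mem_primeFactors h)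
        refine ⟨mem_Icc.2 ⟨Nat.pos_of_ne_zero he0, ?_⟩, ?_⟩
        · exact (Nat.le_mul_of_pos_left e hqp.pos).trans d2
        · rw [hpf]
          have he : (0 : ℝ) < e := by exact_mod_cast Nat.pos_of_ne_zero he0
          have hqr : (0 : ℝ) < q := by exact_mod_cast hqp.pos
          have h5 := hZ q hq
          calc (B : ℝ) ^ (e.primeFactors.card + 1) / ((q * e : ℕ) : ℝ) =
              (B * ((B : ℝ) ^ e.primeFactors.card / e)) * (1 / q) := by
                push_cast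
                field_simp
                ring
            _ ≤ (B * ((B : ℝ) ^ e.primeFactors.card / e)) * ι := mul_le_mul_of_nonneg_left h5 (by positivity)
            _ = _ := by ring
      refine (sum_le_sum fun d hd => (h4 d hd).2).trans ?_
      have hinj : Set.InjOn (fun d : ℕ => d / q) (T.filter (fun d => q ∈ d.primeFactors) : Finset ℕ) := by
        intro a ha b hb hab
        rw [mem_coe, mem_filter] at ha hb
        dsimp only at hab
        rw [← Nat.div_mul_cancel (Nat.dvd_of_mem_primeFactors ha.2), hab,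
          Nat.div_mul_cancel (Nat.dvd_of_mem_primeFactors hb.2)]
      rw [← sum_image (f := fun e : ℕ => (B : ℝ) * ι * ((B : ℝ) ^ e.primeFactors.card / (e : ℝ))) hinj]
      apply sum_le_sum_of_subset_of_nonneg
      · intro e he
        rw [mem_image] at he
        obtain ⟨d, hd, rfl⟩ := he
        exact (h4 d hd).1
      · intro e _ _
        positivity
    refine h3.trans ?_
    rw [← mul_sum]
    exact mul_le_mul_of_nonneg_left hj (by positivity)
  refine (sum_le_sum h2).trans ?_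
  rw [sum_const, nsmul_eq_mul]

open Classical in
/-- **the sum of the remainders** -/
theorem sumE (k g₂ W Y j : ℕ) (θ κ : ℝ) (hW : 0 < W) (hg₂ : 1 ≤ g₂)
    (hθκ : (W : ℝ) * (Y : ℝ) ^ θ ≤ ((2 * Y : ℕ) : ℝ) ^ κ) (M : ℕ → ℝ) (hM0 : ∀ n, 0 ≤ M n) (X₀ ι : ℝ) (hX : 0 ≤ X₀)
    (hι : 0 ≤ ι) (Z : Finset ℕ) (hZ : ∀ q ∈ Z, 1 / (q : ℝ) ≤ ι)
    (hj : ∀ Q : ℕ, ∑ e ∈ Icc 1 Q, ((2 * (2 ^ k * g₂) : ℕ) : ℝ) ^ e.primeFactors.card / (Nat.totient e : ℝ) ≤
      (1 + Real.log Q) ^ (2 ^ j)) :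
    ∑ d ∈ dd W Y θ, (2 ^ k) ^ d.primeFactors.card * er M W g₂ X₀ ι Z d ≤
      ∑ n ∈ Icc 1 ⌊((2 * Y : ℕ) : ℝ) ^ κ⌋₊, ((2 ^ k * g₂ : ℕ) : ℝ) ^ n.primeFactors.card * M n +
      X₀ * (ι * (1 + Z.card * ((2 ^ k * g₂ : ℕ) : ℝ)) * (1 + Real.log ⌊(Y : ℝ) ^ θ⌋₊) ^ (2 ^ j)) := by
  set B : ℕ := 2 ^ k * g₂ with hB
  set D : ℕ := ⌊(Y : ℝ) ^ θ⌋₊ with hD
  have hB1 : 1 ≤ B := Nat.mul_pos (by positivity) hg₂
  have hBr : (1 : ℝ) ≤ B := by exact_mod_cast hB1
  have hmem : ∀ d ∈ dd W Y θ, 1 ≤ d ∧ d ≤ D ∧ Squarefree d := by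
    intro d hd
    unfold dd at hd
    rw [mem_filter, mem_Icc] at hd
    exact ⟨hd.1.1, hd.1.2, hd.2.1⟩
  have hsplit : ∀ d ∈ dd W Y θ, (2 ^ k) ^ d.primeFactors.card * er M W g₂ X₀ ι Z d =
      (B : ℝ) ^ d.primeFactors.card * M (d * W) +
      (X₀ * ι * ((B : ℝ) ^ d.primeFactors.card / d * d.primeFactors.card) +
        X₀ * ((B : ℝ) ^ d.primeFactors.card / d * ((d.primeFactors ∩ Z).card : ℝ))) := by
    intro d _
    unfold er
    rw [hB]
    push_cast
    rw [mul_pow]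
    ring
  rw [sum_congr rfl hsplit, sum_add_distrib, sum_add_distrib]
  -- the sums over the harmonic weights
  have hQ1 : ∀ c : ℕ, c ≤ 2 * B → ∑ e ∈ Icc 1 D, (c : ℝ) ^ e.primeFactors.card / e ≤ (1 + Real.log D) ^ (2 ^ j) := by
    intro c hc
    refine le_trans (sum_le_sum fun e he => ?_) (hj D)
    rw [mem_Icc] at he
    have h1 : (0 : ℝ) < e.totient := by exact_mod_cast Nat.totient_pos.2 he.1
    have h2 : (e.totient : ℝ) ≤ e := by exact_mod_cast Nat.totient_le e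
    have h3 : (c : ℝ) ≤ ((2 * B : ℕ) : ℝ) := by exact_mod_cast hc
    calc (c : ℝ) ^ e.primeFactors.card / e ≤ (c : ℝ) ^ e.primeFactors.card / e.totient :=
          div_le_div_of_nonneg_left (by positivity) h1 h2
      _ ≤ _ := by
          apply div_le_div_of_nonneg_right _ h1.le
          exact pow_le_pow_left₀ (Nat.cast_nonneg _) h3 _
  have s1 : ∑ d ∈ dd W Y θ, (B : ℝ) ^ d.primeFactors.card * M (d * W) ≤
      ∑ n ∈ Icc 1 ⌊((2 * Y : ℕ) : ℝ) ^ κ⌋₊, (B : ℝ) ^ n.primeFactors.card * M n := by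
    have h4 : ∀ d ∈ dd W Y θ, (B : ℝ) ^ d.primeFactors.card * M (d * W) ≤
        (B : ℝ) ^ (d * W).primeFactors.card * M (d * W) := by
      intro d hd
      obtain ⟨d1, d2, d3⟩ := hmem d hd
      apply mul_le_mul_of_nonneg_right _ (hM0 _)
      apply pow_le_pow_right₀ hBr
      exact card_le_card (Nat.primeFactors_mono (Nat.dvd_mul_right d W) (Nat.mul_pos d1 hW).ne')
    refine (sum_le_sum h4).trans ?_
    have hinj : Set.InjOn (fun d : ℕ => d * W) (dd W Y θ : Finset ℕ) := by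
      intro a _ b _ hab
      exact Nat.eq_of_mul_eq_mul_right hW hab
    rw [← sum_image (f := fun n : ℕ => (B : ℝ) ^ n.primeFactors.card * M n) hinj]
    apply sum_le_sum_of_subset_of_nonneg
    · intro n hn
      rw [mem_image] at hn
      obtain ⟨d, hd, rfl⟩ := hn
      obtain ⟨d1, d2, d3⟩ := hmem d hd
      rw [mem_Icc]
      refine ⟨Nat.mul_pos d1 hW, Nat.le_floor ?_⟩
      refine le_trans ?_ hθκ
      push_cast
      rw [mul_comm]
      apply mul_le_mul_of_nonneg_left _ (Nat.cast_nonneg _)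
      exact (Nat.le_floor_iff (by positivity)).1 d2
    · intro n _ _
      exact mul_nonneg (by positivity) (hM0 _)
  have s2 : ∑ d ∈ dd W Y θ, X₀ * ι * ((B : ℝ) ^ d.primeFactors.card / d * d.primeFactors.card) ≤
      X₀ * ι * (1 + Real.log D) ^ (2 ^ j) := by
    rw [← mul_sum]
    apply mul_le_mul_of_nonneg_left _ (by positivity)
    have h5 : ∀ d ∈ dd W Y θ, (B : ℝ) ^ d.primeFactors.card / d * d.primeFactors.card ≤
        ((2 * B : ℕ) : ℝ) ^ d.primeFactors.card / d := by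
      intro d hd
      obtain ⟨d1, d2, d3⟩ := hmem d hd
      have hdr : (0 : ℝ) < d := by exact_mod_cast d1
      push_cast
      rw [mul_pow, div_mul_eq_mul_div]
      apply div_le_div_of_nonneg_right _ hdr.le
      rw [mul_comm]
      apply mul_le_mul_of_nonneg_right _ (by positivity)
      exact_mod_cast Nat.lt_two_pow_self.le
    refine (sum_le_sum h5).trans (le_trans ?_ (hQ1 (2 * B) le_rfl))
    apply sum_le_sum_of_subset_of_nonneg
    · intro d hd
      obtain ⟨d1, d2, d3⟩ := hmem d hd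
      exact mem_Icc.2 ⟨d1, d2⟩
    · intro d _ _
      positivity
  have s3 : ∑ d ∈ dd W Y θ, X₀ * ((B : ℝ) ^ d.primeFactors.card / d * ((d.primeFactors ∩ Z).card : ℝ)) ≤
      X₀ * (Z.card * (B * ι * (1 + Real.log D) ^ (2 ^ j))) := by
    rw [← mul_sum]
    apply mul_le_mul_of_nonneg_left _ hX
    exact sumZ D B j Z ι hι hZ (dd W Y θ) hmem (hQ1 B (by omega))
  calc _ ≤ ∑ n ∈ Icc 1 ⌊((2 * Y : ℕ) : ℝ) ^ κ⌋₊, (B : ℝ) ^ n.primeFactors.card * M n +
        (X₀ * ι * (1 + Real.log D) ^ (2 ^ j) + X₀ * (Z.card * (B * ι * (1 + Real.log D) ^ (2 ^ j)))) :=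
        add_le_add s1 (add_le_add s2 s3)
    _ = _ := by ring

end Pool.Agent.K3h21.CB
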