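import Pool.Agent.K3h21.CB.Prm4

set_option autoImplicit false
set_option linter.unusedSectionVars false
set_option linter.unusedVariables false

/-! Primes as a base sequence: clusters of almost primes. -/

namespace Pool.Agent.K3h21.CB

open Finset Filter
open Pool.Agent.Y677.RSZ (rt per_mod ev_log)
open Pool.Agent.H442R2.KF (Er piAP piN)
open Pool.Agent.K3h21.AV (dd sqb gda AP)
open Pool.Agent.W23.DC
open Pool.Agent.Y882
open Pool.Agent.Y882.PX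
open Pool.Agent.Y882.KW
open Pool.Agent.R498.MT

theorem PB_card : ∃ x₀ : ℕ, ∀ X : ℕ, x₀ ≤ X → (X : ℝ) / (2 * Real.log X) ≤ (PB X).card := by
  obtain ⟨x₀, h⟩ := Pool.Agent.H386R2.HL.pnt_window (1 / 2) (by norm_num)
  refine ⟨x₀, fun X hX => ?_⟩
  have h1 := h X hX X le_rfl
  have h2 : (PB X).card + Nat.primeCounting X = Nat.primeCounting (X + X) := by
    have e : ∀ n : ℕ, Nat.primeCounting n = ((range (n + 1)).filter Nat.Prime).card := by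
      intro n
      unfold Nat.primeCounting Nat.primeCounting'
      rw [Nat.count_eq_card_filter_range]
    rw [e, e]
    unfold PB
    rw [← card_union_of_disjoint]
    · congr 1
      ext p
      simp only [mem_union, mem_filter, mem_Ioc, mem_range]
      constructor
      · rintro (⟨⟨h1, h2⟩, h3⟩ | ⟨h1, h3⟩)
        · exact ⟨by omega, h3⟩
        · exact ⟨by omega, h3⟩
      · rintro ⟨h1, h3⟩
        by_cases h5 : p ≤ X
        · exact Or.inr ⟨by omega, h3⟩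
        · exact Or.inl ⟨⟨by omega, by omega⟩, h3⟩
    · rw [disjoint_left]
      intro p hp hp'
      rw [mem_filter, mem_Ioc] at hp
      rw [mem_filter, mem_range] at hp'
      omega
  have h3 : ((PB X).card : ℝ) + Nat.primeCounting X = Nat.primeCounting (X + X) := by exact_mod_cast h2
  rw [← h3] at h1
  have h4 : (X : ℝ) / (2 * Real.log X) = (1 - 1 / 2) * (X / Real.log X) := by
    rw [mul_comm 2, ← div_div]
    ring
  rw [h4]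
  linarith

theorem numsP (θ κ τ δ : ℝ) (hθκ : θ < κ) (hτ : 0 < τ) (hδ : 0 < δ) (W C₀ g₁ k B E A Y₀ : ℕ) (C : ℝ) :
    ∀ᶠ Y : ℕ in atTop, 3 ≤ Y ∧ Y₀ ≤ Y ∧ (W : ℝ) ≤ (Y : ℝ) ^ (κ - θ) ∧ (W : ℝ) + 1 ≤ (Y : ℝ) ^ δ ∧
      (4 * C * W + 4 * W + 1) ≤ Real.log Y ∧
      (2 * (1 + C₀ * B) * 2 ^ E : ℝ) * Real.log Y ^ (E + A) ≤ (Y : ℝ) ^ δ ∧
      (6 * W * (2 ^ k * g₁) : ℝ) * Real.log Y ^ (A + 1) ≤ (Y : ℝ) ^ (τ / 4) ∧
      (8 * W * (C₀ * (2 ^ k * g₁)) : ℝ) * Real.log Y ^ (A + 1) ≤ (Y : ℝ) ^ δ ∧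
      (2 : ℝ) ≤ (Y : ℝ) ^ (τ / 4) := by
  have hT := tendsto_natCast_atTop_atTop (R := ℝ)
  have v1 : ∀ᶠ Y : ℕ in atTop, (W : ℝ) ≤ (Y : ℝ) ^ (κ - θ) :=
    ((tendsto_rpow_atTop (by linarith)).comp hT).eventually_ge_atTop _
  have v2 : ∀ᶠ Y : ℕ in atTop, (W : ℝ) + 1 ≤ (Y : ℝ) ^ δ :=
    ((tendsto_rpow_atTop hδ).comp hT).eventually_ge_atTop _
  have v3 : ∀ᶠ Y : ℕ in atTop, (4 * C * W + 4 * W + 1) ≤ Real.log (Y : ℝ) :=
    (Real.tendsto_log_atTop.comp hT).eventually_ge_atTop _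
  have v4 : ∀ᶠ Y : ℕ in atTop, (2 : ℝ) ≤ (Y : ℝ) ^ (τ / 4) :=
    ((tendsto_rpow_atTop (by linarith)).comp hT).eventually_ge_atTop _
  filter_upwards [eventually_ge_atTop 3, eventually_ge_atTop Y₀, v1, v2, v3,
    ev_log (E + A) (2 * (1 + C₀ * B) * 2 ^ E) δ hδ,
    ev_log (A + 1) (6 * W * (2 ^ k * g₁)) (τ / 4) (by linarith),
    ev_log (A + 1) (8 * W * (C₀ * (2 ^ k * g₁))) δ hδ, v4] with Y a1 a2 a3 a4 a5 a6 a7 a8 a9
  exact ⟨a1, a2, a3, a4, a5, a6, a7, a8, a9⟩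

open Classical in
/-- few primes with a square -/
theorem sqP {n : ℕ} (L : Fin n → ℤ → ℤ) (Z : Finset ℕ) (W a₀ Y g₁ : ℕ) (w w' w₀ : ℝ) (hw : 2 ≤ w) (hw' : 0 ≤ w')
    (hw₀ : w₀ ≤ w)
    (hper : ∀ i, ∀ q : ℕ, q.Prime → ∀ x : ℤ, ((q ^ 2 : ℕ) : ℤ) ∣ L i (x + (q ^ 2 : ℕ)) - L i x)
    (hne : ∀ K ∈ PB Y, ∀ i, L i K ≠ 0)
    (hsq : ∀ q : ℕ, q.Prime → w₀ ≤ q → (q : ℝ) < w' → q ∉ Z → ∀ i,
      ((range (q ^ 2)).filter (fun c : ℕ => ((q ^ 2 : ℕ) : ℤ) ∣ L i c)).card ≤ g₁) :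
    ((sqb w w' (NB W a₀ Y) (vz L Z)).card : ℝ) ≤ n * (g₁ * (Y * (2 / w) + w')) := by
  set QQ : Finset ℕ := (range ⌈w'⌉₊).filter (fun q => q.Prime ∧ w ≤ q ∧ (q : ℝ) < w' ∧ q ∉ Z) with hQQ
  have hsub : sqb w w' (NB W a₀ Y) (vz L Z) ⊆ univ.biUnion (fun i : Fin n =>
      QQ.biUnion (fun q => (Ioc Y (2 * Y)).filter (fun K : ℕ => ((q ^ 2 : ℕ) : ℤ) ∣ L i K))) := by
    intro K hK
    unfold sqb at hK
    rw [mem_filter] at hK
    obtain ⟨hK1, i, q, hq1, hq2, hq3, hq4⟩ := hK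
    unfold NB at hK1
    rw [mem_filter] at hK1
    have hKP := hK1.1
    unfold PB at hK1
    rw [mem_filter] at hK1
    unfold vz at hq4
    have hqZ : q ∉ Z := fun h => not_dvd_strip Z _ q hq1 h ((dvd_pow_self q two_ne_zero).trans hq4)
    rw [mem_biUnion]
    refine ⟨i, mem_univ i, ?_⟩
    rw [mem_biUnion]
    refine ⟨q, ?_, mem_filter.2 ⟨hK1.1.1, ?_⟩⟩
    · rw [hQQ, mem_filter, mem_range]
      exact ⟨Nat.lt_ceil.2 hq3, hq1, hq2, hq3, hqZ⟩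
    · exact Int.natCast_dvd.2 (hq4.trans (strip_dvd Z _ (Int.natAbs_ne_zero.2 (hne K hKP i))))
  have hone : ∀ i : Fin n, ∀ q ∈ QQ,
      ((((Ioc Y (2 * Y)).filter (fun K : ℕ => ((q ^ 2 : ℕ) : ℤ) ∣ L i K)).card : ℕ) : ℝ) ≤
        g₁ * (Y * (1 / (q : ℝ) ^ 2) + 1) := by
    intro i q hq
    rw [hQQ, mem_filter] at hq
    obtain ⟨-, h1, h2, h3, h4⟩ := hq
    have hpm : ∀ x : ℕ, ((q ^ 2 : ℕ) : ℤ) ∣ L i x → ((q ^ 2 : ℕ) : ℤ) ∣ L i ((x % q ^ 2 : ℕ) : ℤ) := by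
      intro x hx
      have key : ∀ (t : ℕ) (x : ℤ), ((q ^ 2 : ℕ) : ℤ) ∣ L i (x + t * (q ^ 2 : ℕ)) - L i x := by
        intro t
        induction t with
        | zero => intro x; simp
        | succ t ih =>
          intro x
          have e1 := ih x
          have e2 := hper i q h1 (x + t * (q ^ 2 : ℕ))
          have e3 := dvd_add e1 e2
          have e4 : x + ((t + 1 : ℕ) : ℤ) * ((q ^ 2 : ℕ) : ℤ) = x + (t : ℤ) * ((q ^ 2 : ℕ) : ℤ) + ((q ^ 2 : ℕ) : ℤ) := by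
            push_cast
            ring
          rw [e4]
          rw [sub_add_sub_cancel'] at e3
          exact e3
      have e5 := key (x / q ^ 2) ((x % q ^ 2 : ℕ) : ℤ)
      have e6 : ((x % q ^ 2 : ℕ) : ℤ) + ((x / q ^ 2 : ℕ) : ℤ) * ((q ^ 2 : ℕ) : ℤ) = (x : ℤ) := by
        have := Nat.mod_add_div x (q ^ 2)
        have h2 : ((x % q ^ 2 + q ^ 2 * (x / q ^ 2) : ℕ) : ℤ) = (x : ℤ) := by rw [this]
        push_cast at h2 ⊢
        linarith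
      rw [e6] at e5
      exact (dvd_sub_right hx).1 e5
    have hcd := hsq q h1 (hw₀.trans h2) h3 h4 i
    have h5 := per_cnt Y (q ^ 2) g₁ (by have := h1.pos; positivity)
      (fun K : ℕ => ((q ^ 2 : ℕ) : ℤ) ∣ L i K) hpm (by convert hcd)
    have h6 : ((((Ioc Y (2 * Y)).filter (fun K : ℕ => ((q ^ 2 : ℕ) : ℤ) ∣ L i K)).card : ℕ) : ℝ) ≤
        g₁ * ((Y : ℝ) / ((q ^ 2 : ℕ) : ℝ) + 1) := by convert h5
    refine h6.trans (le_of_eq ?_)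
    push_cast
    ring
  calc ((sqb w w' (NB W a₀ Y) (vz L Z)).card : ℝ) ≤
      ((∑ i : Fin n, ∑ q ∈ QQ, ((Ioc Y (2 * Y)).filter (fun K : ℕ => ((q ^ 2 : ℕ) : ℤ) ∣ L i K)).card : ℕ) : ℝ) := by
        exact_mod_cast (card_le_card hsub).trans (card_biUnion_le.trans
          (sum_le_sum fun i _ => card_biUnion_le))
    _ = ∑ i : Fin n, ∑ q ∈ QQ, ((((Ioc Y (2 * Y)).filter (fun K : ℕ => ((q ^ 2 : ℕ) : ℤ) ∣ L i K)).card : ℕ) : ℝ) := by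
        push_cast
        rfl
    _ ≤ ∑ _i : Fin n, ∑ q ∈ QQ, g₁ * (Y * (1 / (q : ℝ) ^ 2) + 1) :=
        sum_le_sum fun i _ => sum_le_sum fun q hq => hone i q hq
    _ = n * (g₁ * (Y * (∑ q ∈ QQ, 1 / (q : ℝ) ^ 2) + QQ.card)) := by
        rw [sum_const, card_univ, Fintype.card_fin, nsmul_eq_mul,
          ← mul_sum, sum_add_distrib, ← mul_sum, sum_const, nsmul_eq_mul, mul_one]
    _ ≤ _ := by
        have h6 : ∑ q ∈ QQ, 1 / (q : ℝ) ^ 2 ≤ 2 / w :=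
          Pool.Agent.Y882.MG.tail_sq _ _ hw (fun q hq => by
            rw [hQQ, mem_filter] at hq
            exact hq.2.2.1)
        have h7 : (QQ.card : ℝ) ≤ w' :=
          Pool.Agent.Y882.MG.card_lt _ _ hw' (fun q hq => by
            rw [hQQ, mem_filter] at hq
            exact ⟨hq.2.1.one_le, hq.2.2.2.1.le⟩)
        gcongr

open Classical in
/-- few primes with an exceptional divisor -/
theorem remZ {n : ℕ} (L : Fin n → ℤ → ℤ) (Z : Finset ℕ) (Y g₁ : ℕ) (w : ℝ) (hw : 0 < w)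
    (hper : ∀ i, ∀ q : ℕ, q.Prime → ∀ x : ℤ, (q : ℤ) ∣ L i (x + q) - L i x) (hZ : ∀ q ∈ Z, w ≤ q)
    (hroot : ∀ q ∈ Z, q.Prime → ∀ i, ((range q).filter (fun c : ℕ => (q : ℤ) ∣ L i c)).card ≤ g₁) :
    ((((PB Y).filter (fun K : ℕ => ∃ q ∈ Z, q.Prime ∧ ∃ i, (q : ℤ) ∣ L i K)).card : ℕ) : ℝ) ≤
      Z.card * (n * (g₁ * (Y / w + 1))) := by
  have hsub : (PB Y).filter (fun K : ℕ => ∃ q ∈ Z, q.Prime ∧ ∃ i, (q : ℤ) ∣ L i K) ⊆
      (Z.filter Nat.Prime).biUnion (fun q => univ.biUnion (fun i : Fin n =>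
        (Ioc Y (2 * Y)).filter (fun K : ℕ => (q : ℤ) ∣ L i K))) := by
    intro K hK
    unfold PB at hK
    rw [mem_filter, mem_filter] at hK
    obtain ⟨⟨hK1, -⟩, q, hq, hqp, i, hi⟩ := hK
    rw [mem_biUnion]
    refine ⟨q, mem_filter.2 ⟨hq, hqp⟩, ?_⟩
    rw [mem_biUnion]
    exact ⟨i, mem_univ i, mem_filter.2 ⟨hK1, hi⟩⟩
  have hone : ∀ q ∈ Z.filter Nat.Prime, ∀ i : Fin n,
      ((((Ioc Y (2 * Y)).filter (fun K : ℕ => (q : ℤ) ∣ L i K)).card : ℕ) : ℝ) ≤ g₁ * (Y / w + 1) := by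
    intro q hq i
    rw [mem_filter] at hq
    have h1 := per_cnt Y q g₁ hq.2.pos (fun K : ℕ => (q : ℤ) ∣ L i K) (fun x hx =>
      (per_mod (fun p hp n => hper i p hp n) hq.2 x (x % q) (Nat.mod_modEq x q).symm).1 hx)
      (by convert hroot q hq.1 hq.2 i)
    refine le_trans (le_of_eq (by congr)) (h1.trans ?_)
    apply mul_le_mul_of_nonneg_left _ (Nat.cast_nonneg _)
    have h2 : (Y : ℝ) / q ≤ Y / w := div_le_div_of_nonneg_left (Nat.cast_nonneg _) hw (hZ q hq.1)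
    linarith
  calc _ ≤ ((∑ q ∈ Z.filter Nat.Prime, ∑ i : Fin n, ((Ioc Y (2 * Y)).filter (fun K : ℕ => (q : ℤ) ∣ L i K)).card : ℕ) : ℝ) := by
        exact_mod_cast (card_le_card hsub).trans (card_biUnion_le.trans (sum_le_sum fun q _ => card_biUnion_le))
    _ = ∑ q ∈ Z.filter Nat.Prime, ∑ i : Fin n, ((((Ioc Y (2 * Y)).filter (fun K : ℕ => (q : ℤ) ∣ L i K)).card : ℕ) : ℝ) := by
        push_cast
        rfl
    _ ≤ ∑ _q ∈ Z.filter Nat.Prime, ∑ _i : Fin n, (g₁ : ℝ) * (Y / w + 1) :=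
        sum_le_sum fun q hq => sum_le_sum fun i _ => hone q hq i
    _ = (Z.filter Nat.Prime).card * (n * (g₁ * (Y / w + 1))) := by
        rw [sum_const, sum_const, card_univ, Fintype.card_fin, nsmul_eq_mul, nsmul_eq_mul]
    _ ≤ _ := by
        apply mul_le_mul_of_nonneg_right _ (by positivity)
        exact_mod_cast card_filter_le _ _

end Pool.Agent.K3h21.CB
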