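import Pool.Agent.K3h21.CB.Prm5

set_option autoImplicit false
set_option linter.unusedSectionVars false
set_option linter.unusedVariables false

/-! Primes as a base sequence: clusters of almost primes, the theorem. -/

namespace Pool.Agent.K3h21.CB

open Finset Filter
open Pool.Agent.Y677.RSZ (rt per_mod ev_log)
open Pool.Agent.H442R2.KF (Er piAP piN)
open Pool.Agent.K3h21.AV (dd sqb gda AP)
open Pool.Agent.W23.DC
open Pool.Agent.Y882
open Pool.Agent.Y882.PX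
open Pool.Agent.Y882.KW
open Pool.Agent.R498.MT

open Classical in
/-- **Clusters of almost primes at the primes.** -/
theorem primeFin (g g₁ D r : ℕ) (τ B : ℝ) (hτ0 : 0 < τ) (hτ : τ < 1 / 2) (hBD : B ≤ 2 * D)
    (hr : 9 / 8 + B / (24 / 25 * τ) ≤ r + 1) (m : ℕ) :
    ∃ (k A₁ A : ℕ) (δ : ℝ), g₁ * 2 ^ k + 2 ≤ A₁ ∧ 0 < δ ∧ δ ≤ τ / 4 ∧ ∀ W : ℕ, Squarefree W →
      (∀ p : ℕ, p.Prime → p ≤ A₁ → p ∣ W) → ∀ C₀ : ℕ, ∃ η : ℝ, 0 < η ∧ ∃ Y₀ : ℕ, ∀ Y : ℕ, Y₀ ≤ Y →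
      ∀ G : ℤ → ℤ, (∀ p : ℕ, p.Prime → rt G p ≤ g) →
        Mer (pr Y δ (24 / 25 * τ)) (tt Y) (fun p => (rt G p : ℝ) / p) δ (24 / 25 * τ) η →
      ∀ (L : Fin (2 ^ k) → ℤ → ℤ) (Z : Finset ℕ) (a₀ : ℕ), a₀.Coprime W →
        (∀ i, ∀ q : ℕ, q.Prime → ∀ x : ℤ, (q : ℤ) ∣ L i (x + q) - L i x) →
        (∀ i, ∀ q : ℕ, q.Prime → ∀ x : ℤ, ((q ^ 2 : ℕ) : ℤ) ∣ L i (x + (q ^ 2 : ℕ)) - L i x) →
        (∀ K ∈ PB Y, ∀ i, L i K ≠ 0 ∧ ((L i K).natAbs : ℝ) ≤ (Y : ℝ) ^ B) →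
        (∀ i, ∀ q : ℕ, q.Prime → q ∣ W → ¬ (q : ℤ) ∣ L i a₀) →
        Z.card ≤ C₀ → (∀ q ∈ Z, (Y : ℝ) ^ δ ≤ q) →
        (∀ q : ℕ, q.Prime → ¬ q ∣ W → ∀ i, ((range q).filter (fun c : ℕ => (q : ℤ) ∣ L i c)).card ≤ g₁) →
        (∀ q : ℕ, q.Prime → (Y : ℝ) ^ δ ≤ q → (q : ℝ) < (Y : ℝ) ^ τ → q ∉ Z → ∀ i,
          ((range q).filter (fun c : ℕ => c ≠ 0 ∧ (q : ℤ) ∣ L i c)).card = rt G q) →
        (∀ q : ℕ, q.Prime → (Y : ℝ) ^ δ ≤ q → (q : ℝ) < (Y : ℝ) ^ τ → q ∉ Z → ∀ (x : ℕ) i j,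
          (q : ℤ) ∣ L i x → (q : ℤ) ∣ L j x → i = j) →
        (∀ q : ℕ, q.Prime → (Y : ℝ) ^ δ ≤ q → (q : ℝ) < (Y : ℝ) ^ τ → q ∉ Z → ∀ i,
          ((range (q ^ 2)).filter (fun c : ℕ => ((q ^ 2 : ℕ) : ℤ) ∣ L i c)).card ≤ g₁) →
        ∃ T ⊆ PB Y, (Y : ℝ) / Real.log Y ^ A ≤ T.card ∧ ∀ p ∈ T, p ≡ a₀ [MOD W] ∧
          (∃ H : Finset (Fin (2 ^ k)), H.card = m ∧ ∀ i ∈ H, AP r ((Y : ℝ) ^ (τ / 4)) (L i p).natAbs) ∧
          ∀ i, ∀ q : ℕ, q.Prime → q ∣ (L i p).natAbs → (Y : ℝ) ^ δ ≤ q := by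
  set θ : ℝ := (τ + 1 / 2) / 2 with hθ
  set κ : ℝ := (θ + 1 / 2) / 2 with hκ
  have hτθ : τ < θ := by rw [hθ]; linarith
  have hθκ : θ < κ := by rw [hκ, hθ]; linarith
  have hκ2 : κ < 1 / 2 := by rw [hκ, hθ]; linarith
  obtain ⟨k, A₁, A, δ, hA₁, hδ, hδτ, hfin⟩ := finB g g₁ D r τ θ B hτ0 hτθ (by linarith) hBD hr m
  refine ⟨k, A₁, A + 2, δ, hA₁, hδ, hδτ, fun W hWs hWp C₀ => ?_⟩
  have hW0 : 0 < W := Nat.pos_of_ne_zero hWs.ne_zero
  obtain ⟨η, hη, Y₀, hfin⟩ := hfin W hW0 hWp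
  set g₂ : ℕ := 2 * (g₁ * 2 ^ k + g) + 1 with hg₂
  set Bq : ℕ := 2 ^ k * g₂ with hBq
  have hBq1 : 1 ≤ Bq := Nat.mul_pos (by positivity) (by omega)
  obtain ⟨C, hC, hbv⟩ := exMx κ hκ2 Bq (A + 2) hBq1
  obtain ⟨j, hj⟩ := Pool.Agent.H398R2.BV.sum_pow_omega_div_totient ((2 * (2 ^ k * g₂) : ℕ) : ℝ) (by
    have : 1 ≤ 2 * (2 ^ k * g₂) := by omega
    exact_mod_cast this)
  obtain ⟨x₀, hPB⟩ := PB_card
  obtain ⟨Y₁, hY₁⟩ := eventually_atTop.1 (numsP θ κ τ δ hθκ hτ0 hδ W C₀ g₁ k Bq (2 ^ j) A (max Y₀ x₀) C)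
  refine ⟨η, hη, Y₁, ?_⟩
  intro Y hY G hG hMe L Z a₀ ha₀ hper hper2 hval haW hZc hZ hroot hbig hcoll hsq
  obtain ⟨a1, a2, a3, a4, a5, a6, a7, a8, a9⟩ := hY₁ Y hY
  have hYr : (3 : ℝ) ≤ Y := by exact_mod_cast a1
  have hY0 : (0 : ℝ) < Y := by linarith
  have hY1 : (1 : ℝ) ≤ Y := by linarith
  set Lg : ℝ := Real.log Y with hLg
  have hWr : (1 : ℝ) ≤ W := by exact_mod_cast hW0
  have hCW : 0 ≤ 4 * C * W := by positivity
  have hLg1 : 1 ≤ Lg := by linarith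
  have hLg0 : 0 < Lg := by linarith
  have hφ : (0 : ℝ) < W.totient := by exact_mod_cast Nat.totient_pos.2 hW0
  have hφW : (W.totient : ℝ) ≤ W := by exact_mod_cast Nat.totient_le W
  set X₀ : ℝ := (PB Y).card / (W.totient : ℝ) with hX₀
  have hX0 : 0 ≤ X₀ := by positivity
  have hXl : (Y : ℝ) / (2 * Lg * W) ≤ X₀ := by
    rw [hX₀]
    have h1 := hPB Y ((le_max_right _ _).trans a2)
    calc (Y : ℝ) / (2 * Lg * W) = (Y / (2 * Lg)) / W := by rw [div_div]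
      _ ≤ (Y / (2 * Lg)) / W.totient := div_le_div_of_nonneg_left (by positivity) hφ hφW
      _ ≤ _ := div_le_div_of_nonneg_right h1 hφ.le
  set w : ℝ := (Y : ℝ) ^ δ with hw
  have hw0 : 0 < w := by positivity
  have hWw : (W : ℝ) < w := by linarith
  have hYτ : (Y : ℝ) ^ τ ≤ Y := by
    conv_rhs => rw [← Real.rpow_one (Y : ℝ)]
    exact Real.rpow_le_rpow_of_exponent_le hY1 (by linarith)
  have hbigW : ∀ q : ℕ, w ≤ q → ¬ q ∣ W := by
    intro q hq hqW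
    have h1 : q ≤ W := Nat.le_of_dvd hW0 hqW
    have h2 : (q : ℝ) ≤ W := by exact_mod_cast h1
    linarith
  have hWθ : (W : ℝ) * (Y : ℝ) ^ θ ≤ (Y : ℝ) ^ κ := by
    calc (W : ℝ) * (Y : ℝ) ^ θ ≤ (Y : ℝ) ^ (κ - θ) * (Y : ℝ) ^ θ := mul_le_mul_of_nonneg_right a3 (by positivity)
      _ = (Y : ℝ) ^ κ := by
        rw [← Real.rpow_add hY0]
        congr 1
        ring
  have hWθ2 : (W : ℝ) * (Y : ℝ) ^ θ ≤ ((2 * Y : ℕ) : ℝ) ^ κ := by
    refine hWθ.trans (Real.rpow_le_rpow hY0.le ?_ (by rw [hκ, hθ]; linarith))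
    push_cast
    linarith
  have hWθ1 : (W : ℝ) * (Y : ℝ) ^ θ ≤ Y := by
    refine hWθ.trans ?_
    conv_rhs => rw [← Real.rpow_one (Y : ℝ)]
    exact Real.rpow_le_rpow_of_exponent_le hY1 (by linarith)
  obtain ⟨M, hM0, hM1, hMs⟩ := hbv Y a1
  have hne : ∀ K ∈ PB Y, ∀ i, L i K ≠ 0 := fun K hK i => (hval K hK i).1
  have hNP : ∀ K ∈ NB W a₀ Y, K ∈ PB Y ∧ K ≡ a₀ [MOD W] := by
    intro K hK
    unfold NB at hK
    exact mem_filter.1 hK
  have hKbig : ∀ K ∈ PB Y, K.Prime ∧ Y < K := by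
    intro K hK
    unfold PB at hK
    rw [mem_filter, mem_Ioc] at hK
    exact ⟨hK.2, hK.1.1⟩
  -- the application of the abstract theorem
  have hmain := hfin Y ((le_max_left _ _).trans a2) G hG hMe (NB W a₀ Y) (fun _ => 1) (vz L Z) (ht L) (gm L) X₀
    (er M W g₂ X₀ (1 / w) Z) (fun _ _ => zero_le_one) hX0
    (er_nonneg M W g₂ X₀ (1 / w) Z hM0 hX0 (by positivity))
    (fun p hp hpW _ => by
      have h2 : (2 : ℝ) ≤ p := by exact_mod_cast hp.two_le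
      have h3 := nz_ht L g₁ p (hroot p hp hpW)
      have h4 : (nz (ht L) p : ℝ) ≤ ((g₁ * 2 ^ k : ℕ) : ℝ) := by exact_mod_cast h3
      unfold gm
      exact ⟨div_nonneg (Nat.cast_nonneg _) (by linarith), div_le_div_of_nonneg_right h4 (by linarith)⟩)
    (fun K hK i => by
      obtain ⟨h1, h2⟩ := hval K (hNP K hK).1 i
      refine ⟨strip_ne Z _, le_trans ?_ h2⟩
      exact_mod_cast strip_le Z _ (Int.natAbs_ne_zero.2 h1))
    (fun K hK p hp hpW i hpd => by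
      have h1 := hpd.trans (strip_dvd Z _ (Int.natAbs_ne_zero.2 (hne K (hNP K hK).1 i)))
      have h2 : (p : ℤ) ∣ L i K := Int.natCast_dvd.2 h1
      exact haW i p hp hpW ((per_mod (fun q hq n => hper i q hq n) hp K a₀ ((hNP K hK).2.of_dvd hpW)).1 h2))
    (fun K hK p hp hpW hpw i hpd => by
      have h1 := hpd.trans (strip_dvd Z _ (Int.natAbs_ne_zero.2 (hne K (hNP K hK).1 i)))
      exact ⟨i, Int.natCast_dvd.2 h1⟩)
    (fun K hK p hp hpW hp1 hp2 i j hi hj' => by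
      by_cases hpZ : p ∈ Z
      · exact absurd hi (not_dvd_strip Z _ p hp hpZ)
      · have h1 := hi.trans (strip_dvd Z _ (Int.natAbs_ne_zero.2 (hne K (hNP K hK).1 i)))
        have h2 := hj'.trans (strip_dvd Z _ (Int.natAbs_ne_zero.2 (hne K (hNP K hK).1 j)))
        exact hcoll p hp hp1 hp2 hpZ K i j (Int.natCast_dvd.2 h1) (Int.natCast_dvd.2 h2))
    (fun K hK p hp h0 hp1 hp2 i hpd => by
      by_cases hpZ : p ∈ Z
      · exact absurd hpd (not_dvd_strip Z _ p hp hpZ)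
      · have h1 := hpd.trans (strip_dvd Z _ (Int.natAbs_ne_zero.2 (hne K (hNP K hK).1 i)))
        have h2 : (p : ℤ) ∣ L i K := Int.natCast_dvd.2 h1
        have h3 := hbig p hp hp1 hp2 hpZ i
        rw [h0, card_eq_zero, filter_eq_empty_iff] at h3
        apply h3 (mem_range.2 (Nat.mod_lt K hp.pos))
        refine ⟨fun h4 => ?_, (per_mod (fun q hq n => hper i q hq n) hp K (K % p) (Nat.mod_modEq K p).symm).1 h2⟩
        obtain ⟨h5, h6⟩ := hKbig K (hNP K hK).1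
        have h7 := (Nat.prime_dvd_prime_iff_eq hp h5).1 (Nat.dvd_of_mod_eq_zero h4)
        have h8 : (p : ℝ) < Y := hp2.trans_le hYτ
        have h9 : p < Y := by exact_mod_cast h8
        omega)
    (fun A' S hA' hS hAS σ => by
      have h1 := cntE L Z W a₀ Y g g₁ w ((Y : ℝ) ^ τ) hw0 hYτ hWs ha₀ hper hne hroot G hG
        (fun q hq h1 h2 h3 i => hbig q hq h1 h2 h3 i) M hM0 hM1 A' S hA' hS (by
          have h2 : (((∏ p ∈ A', p) * (∏ p ∈ S, p) * W : ℕ) : ℝ) ≤ Y := by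
            rw [Nat.cast_mul, mul_comm]
            exact (mul_le_mul_of_nonneg_left hAS (Nat.cast_nonneg _)).trans hWθ1
          exact_mod_cast h2) σ
      have h2 : er M W (2 * (g₁ * 2 ^ k + g)) X₀ (1 / w) Z ((∏ p ∈ A', p) * ∏ p ∈ S, p) ≤
          er M W g₂ X₀ (1 / w) Z ((∏ p ∈ A', p) * ∏ p ∈ S, p) := by
        unfold er
        have h3 : ((2 * (g₁ * 2 ^ k + g) : ℕ) : ℝ) ≤ (g₂ : ℝ) := by exact_mod_cast (by omega : 2 * (g₁ * 2 ^ k + g) ≤ g₂)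
        have h4 := pow_le_pow_left₀ (Nat.cast_nonneg _) h3 (((∏ p ∈ A', p) * ∏ p ∈ S, p).primeFactors.card)
        apply add_le_add
        · exact mul_le_mul_of_nonneg_right h4 (hM0 _)
        · apply mul_le_mul_of_nonneg_left _ hX0
          apply mul_le_mul_of_nonneg_right _ (by positivity)
          exact div_le_div_of_nonneg_right h4 (Nat.cast_nonneg _)
      refine le_trans (le_of_eq ?_) (h1.trans h2)
      congr)
    (by
      -- the sum of the remainders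
      have hs := sumE k g₂ W Y j θ κ hW0 (by omega) hWθ2 M hM0 X₀ (1 / w) hX0 (by positivity) Z
        (fun q hq => one_div_le_one_div_of_le hw0 (hZ q hq)) hj
      refine hs.trans ?_
      have hD : 1 + Real.log ⌊(Y : ℝ) ^ θ⌋₊ ≤ 2 * Lg := by
        have h1 : (1 : ℝ) ≤ ⌊(Y : ℝ) ^ θ⌋₊ := by
          have : 1 ≤ ⌊(Y : ℝ) ^ θ⌋₊ := Nat.le_floor (by
            push_cast
            exact Real.one_le_rpow hY1 (by rw [hθ]; linarith))
          exact_mod_cast this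
        have h2 : Real.log ⌊(Y : ℝ) ^ θ⌋₊ ≤ θ * Lg := by
          rw [hLg, ← Real.log_rpow hY0]
          exact Real.log_le_log (by linarith) (Nat.floor_le (by positivity))
        have h3 : θ * Lg ≤ 1 * Lg := mul_le_mul_of_nonneg_right (by rw [hθ]; linarith) hLg0.le
        linarith
      have hD0 : 0 ≤ 1 + Real.log ⌊(Y : ℝ) ^ θ⌋₊ := by
        have h1 : (1 : ℝ) ≤ ⌊(Y : ℝ) ^ θ⌋₊ := by
          have : 1 ≤ ⌊(Y : ℝ) ^ θ⌋₊ := Nat.le_floor (by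
            push_cast
            exact Real.one_le_rpow hY1 (by rw [hθ]; linarith))
          exact_mod_cast this
        have := Real.log_nonneg h1
        linarith
      have e1 : C * (Y / Lg ^ (A + 2)) ≤ X₀ / Lg ^ A / 2 := by
        have h1 : (Y : ℝ) / (2 * Lg * W) / Lg ^ A / 2 ≤ X₀ / Lg ^ A / 2 := by gcongr
        refine le_trans ?_ h1
        rw [div_div, div_div, mul_div_assoc', div_le_div_iff₀ (by positivity) (by positivity)]
        have h2 : 4 * C * W ≤ Lg := by nlinarith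
        calc C * Y * (2 * Lg * W * (Lg ^ A * 2)) = (4 * C * W) * (Y * (Lg * Lg ^ A)) := by ring
          _ ≤ Lg * (Y * (Lg * Lg ^ A)) := mul_le_mul_of_nonneg_right h2 (by positivity)
          _ = Y * Lg ^ (A + 2) := by ring
      have e2 : X₀ * (1 / w * (1 + Z.card * ((2 ^ k * g₂ : ℕ) : ℝ)) * (1 + Real.log ⌊(Y : ℝ) ^ θ⌋₊) ^ (2 ^ j)) ≤
          X₀ / Lg ^ A / 2 := by
        rw [div_div, div_eq_mul_one_div X₀]
        apply mul_le_mul_of_nonneg_left _ hX0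
        have h1 : (1 + Real.log ⌊(Y : ℝ) ^ θ⌋₊) ^ (2 ^ j) ≤ (2 * Lg) ^ (2 ^ j) := pow_le_pow_left₀ hD0 hD _
        have h2 : (Z.card : ℝ) ≤ C₀ := by exact_mod_cast hZc
        calc 1 / w * (1 + Z.card * ((2 ^ k * g₂ : ℕ) : ℝ)) * (1 + Real.log ⌊(Y : ℝ) ^ θ⌋₊) ^ (2 ^ j) ≤
            1 / w * (1 + C₀ * ((2 ^ k * g₂ : ℕ) : ℝ)) * (2 * Lg) ^ (2 ^ j) := by
              apply mul_le_mul _ h1 (by positivity) (by positivity)
              apply mul_le_mul_of_nonneg_left _ (by positivity)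
              have := mul_le_mul_of_nonneg_right h2 (Nat.cast_nonneg (α := ℝ) (2 ^ k * g₂))
              linarith
          _ ≤ 1 / (Lg ^ A * 2) := by
              rw [one_div_mul_eq_div, div_mul_eq_mul_div, div_le_div_iff₀ hw0 (by positivity), one_mul]
              refine le_trans (le_of_eq ?_) a6
              rw [mul_pow, pow_add]
              ring
      have e3 : ∑ n ∈ Icc 1 ⌊((2 * Y : ℕ) : ℝ) ^ κ⌋₊, ((2 ^ k * g₂ : ℕ) : ℝ) ^ n.primeFactors.card * M n ≤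
          C * (Y / Lg ^ (A + 2)) := hMs
      linarith)
    (by
      -- the squares
      have h1 := sqP L Z W a₀ Y g₁ ((Y : ℝ) ^ (τ / 4)) ((Y : ℝ) ^ τ) w a9 (by positivity)
        (Real.rpow_le_rpow_of_exponent_le hY1 hδτ) hper2 hne hsq
      rw [sum_const, nsmul_eq_mul, mul_one]
      refine h1.trans ?_
      have h2 : (Y : ℝ) / (2 * Lg * W) / Lg ^ A ≤ X₀ / Lg ^ A := by gcongr
      refine le_trans ?_ h2
      have e1 : (Y : ℝ) ^ τ ≤ (Y : ℝ) ^ (1 - τ / 4) := Real.rpow_le_rpow_of_exponent_le hY1 (by linarith)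
      have e2 : (Y : ℝ) * (2 / (Y : ℝ) ^ (τ / 4)) = 2 * (Y : ℝ) ^ (1 - τ / 4) := by
        rw [Real.rpow_sub hY0, Real.rpow_one]
        ring
      have e3 : (Y : ℝ) ^ (1 - τ / 4) * (Y : ℝ) ^ (τ / 4) = Y := by
        rw [← Real.rpow_add hY0]
        have : 1 - τ / 4 + τ / 4 = 1 := by ring
        rw [this, Real.rpow_one]
      rw [e2, div_div, le_div_iff₀ (by positivity)]
      calc ((2 ^ k : ℕ) : ℝ) * (g₁ * (2 * (Y : ℝ) ^ (1 - τ / 4) + (Y : ℝ) ^ τ)) * (2 * Lg * W * Lg ^ A) ≤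
          ((2 ^ k : ℕ) : ℝ) * (g₁ * (2 * (Y : ℝ) ^ (1 - τ / 4) + (Y : ℝ) ^ (1 - τ / 4))) * (2 * Lg * W * Lg ^ A) := by
            gcongr
        _ = (Y : ℝ) ^ (1 - τ / 4) * ((6 * W * (2 ^ k * g₁)) * Lg ^ (A + 1)) := by
            push_cast
            ring
        _ ≤ (Y : ℝ) ^ (1 - τ / 4) * (Y : ℝ) ^ (τ / 4) := mul_le_mul_of_nonneg_left a7 (by positivity)
        _ = Y := e3)
  -- the primes
  set T₀ : Finset ℕ := (gda r m ((Y : ℝ) ^ (τ / 4)) ((Y : ℝ) ^ δ) (NB W a₀ Y) (vz L Z)).filter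
    (fun K => ∀ p : ℕ, p.Prime → ¬ p ∣ W → (p : ℝ) < (Y : ℝ) ^ δ → ¬ ht L p K) with hT₀
  rw [sum_const, nsmul_eq_mul, mul_one] at hmain
  set RM : Finset ℕ := (PB Y).filter (fun K : ℕ => ∃ q ∈ Z, q.Prime ∧ ∃ i, (q : ℤ) ∣ L i K) with hRM
  have hT₀P : T₀ ⊆ PB Y := by
    intro K hK
    rw [hT₀, mem_filter] at hK
    unfold gda at hK
    exact (hNP K (mem_filter.1 hK.1).1).1
  have hRMc : (RM.card : ℝ) ≤ X₀ / Lg ^ A / 2 := by
    have h1 := remZ L Z Y g₁ w hw0 hper hZ (fun q hq hqp i => hroot q hqp (hbigW q (hZ q hq)) i)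
    have h2 : (RM.card : ℝ) ≤ Z.card * (((2 ^ k : ℕ) : ℝ) * (g₁ * (Y / w + 1))) := by
      rw [hRM]
      convert h1
    refine h2.trans ?_
    have h3 : (Y : ℝ) / (2 * Lg * W) / Lg ^ A / 2 ≤ X₀ / Lg ^ A / 2 := by gcongr
    refine le_trans ?_ h3
    have h4 : (Z.card : ℝ) ≤ C₀ := by exact_mod_cast hZc
    have h5 : (1 : ℝ) ≤ Y / w := by
      rw [le_div_iff₀ hw0, one_mul, hw]
      conv_rhs => rw [← Real.rpow_one (Y : ℝ)]
      exact Real.rpow_le_rpow_of_exponent_le hY1 (by linarith)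
    calc Z.card * (((2 ^ k : ℕ) : ℝ) * (g₁ * (Y / w + 1))) ≤ C₀ * (((2 ^ k : ℕ) : ℝ) * (g₁ * (Y / w + Y / w))) := by
          gcongr
      _ ≤ (Y : ℝ) / (2 * Lg * W) / Lg ^ A / 2 := by
          rw [div_div, div_div, le_div_iff₀ (by positivity)]
          have e1 : C₀ * (((2 ^ k : ℕ) : ℝ) * (g₁ * ((Y : ℝ) / w + Y / w))) * (2 * Lg * W * (Lg ^ A * 2)) =
              (Y / w) * ((8 * W * (C₀ * (2 ^ k * g₁))) * Lg ^ (A + 1)) := by
            push_cast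
            ring
          rw [e1]
          calc (Y / w) * ((8 * W * (C₀ * (2 ^ k * g₁))) * Lg ^ (A + 1)) ≤ (Y / w) * w :=
                mul_le_mul_of_nonneg_left a8 (by positivity)
            _ = Y := div_mul_cancel₀ _ hw0.ne'
  refine ⟨T₀ \ RM, Finset.sdiff_subset.trans hT₀P, ?_, ?_⟩
  · have h1 : (T₀.card : ℝ) ≤ (T₀ \ RM).card + RM.card := by
      have : T₀.card ≤ (T₀ \ RM).card + RM.card := by
        exact card_le_card_sdiff_add_card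
      exact_mod_cast this
    have h2 : (Y : ℝ) / Lg ^ (A + 2) ≤ X₀ / Lg ^ A / 2 := by
      have h3 : (Y : ℝ) / (2 * Lg * W) / Lg ^ A / 2 ≤ X₀ / Lg ^ A / 2 := by gcongr
      refine le_trans ?_ h3
      rw [div_div, div_div]
      apply div_le_div_of_nonneg_left hY0.le (by positivity)
      have h4 : 4 * (W : ℝ) ≤ Lg := by linarith
      calc 2 * Lg * W * (Lg ^ A * 2) = (4 * W) * (Lg * Lg ^ A) := by ring
        _ ≤ Lg * (Lg * Lg ^ A) := mul_le_mul_of_nonneg_right h4 (by positivity)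
        _ = Lg ^ (A + 2) := by ring
    linarith
  · intro K hK
    rw [Finset.mem_sdiff] at hK
    obtain ⟨hKT, hKR⟩ := hK
    have hKP := hT₀P hKT
    rw [hT₀, mem_filter] at hKT
    obtain ⟨hKg, -⟩ := hKT
    unfold gda at hKg
    rw [mem_filter] at hKg
    obtain ⟨hKN, ⟨H, hH, hHA⟩, hKw⟩ := hKg
    have hst : ∀ i, vz L Z K i = (L i K).natAbs := by
      intro i
      unfold vz
      apply strip_eq Z _ (Int.natAbs_ne_zero.2 (hne K hKP i))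
      intro q hqZ hq hqd
      apply hKR
      rw [hRM, mem_filter]
      exact ⟨hKP, q, hqZ, hq, i, Int.natCast_dvd.2 hqd⟩
    refine ⟨(hNP K hKN).2, ⟨H, hH, fun i hi => ?_⟩, fun i q hq hqd => ?_⟩
    · rw [← hst i]
      exact hHA i hi
    · rw [← hst i] at hqd
      exact hKw i q hq hqd

end Pool.Agent.K3h21.CB
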